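import Pool.Agent.W2helper20.PK.Semi

set_option autoImplicit false

open Complex Set Filter Topology

namespace Pool.Agent.W2helper20.PK

/-- Derivatives on the real axis from the open upper half plane. -/
lemma bdry_deriv {G G' : ℂ → ℂ} (hG : ContinuousOn G {z : ℂ | 0 ≤ z.im})
    (hG' : ContinuousOn G' {z : ℂ | 0 ≤ z.im})
    (hd : ∀ z : ℂ, 0 < z.im → HasDerivAt G (G' z) z) (x : ℝ) :
    HasDerivAt (fun t : ℝ => G t) (G' x) x := by
  have hc1 : Continuous (fun q : ℝ × ℝ => G ((q.2 : ℂ) + (|q.1| : ℝ) * I)) := by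
    apply hG.comp_continuous (by fun_prop)
    intro q
    simp
  have hc2 : Continuous (fun q : ℝ × ℝ => G' ((q.2 : ℂ) + (|q.1| : ℝ) * I)) := by
    apply hG'.comp_continuous (by fun_prop)
    intro q
    simp
  have key : ∀ a b : ℝ, ∀ ε : ℝ, ε ≠ 0 →
      ∫ t in a..b, G' ((t : ℂ) + (|ε| : ℝ) * I) =
        G ((b : ℂ) + (|ε| : ℝ) * I) - G ((a : ℂ) + (|ε| : ℝ) * I) := by
    intro a b ε hε
    have hcont : Continuous (fun t : ℝ => G' ((t : ℂ) + (|ε| : ℝ) * I)) :=
      hc2.comp (Continuous.prodMk continuous_const continuous_id)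
    apply intervalIntegral.integral_eq_sub_of_hasDerivAt
      (f := fun t : ℝ => G ((t : ℂ) + (|ε| : ℝ) * I))
    · intro t _
      have h1 : HasDerivAt (fun t : ℝ => (t : ℂ) + (|ε| : ℝ) * I) 1 t :=
        (Complex.ofRealCLM.hasDerivAt).add_const _
      have h2 := (hd ((t : ℂ) + (|ε| : ℝ) * I) (by simpa using hε))
      have h3 := h2.comp_of_eq (h := fun t : ℝ => (t : ℂ) + (|ε| : ℝ) * I) t h1 rfl
      rw [mul_one] at h3
      exact h3
    · exact hcont.intervalIntegrable _ _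
  have key0 : ∀ a b : ℝ, ∫ t in a..b, G' (t : ℂ) = G (b : ℂ) - G (a : ℂ) := by
    intro a b
    have hA : Continuous (fun ε : ℝ => ∫ t in a..b, G' ((t : ℂ) + (|ε| : ℝ) * I)) :=
      intervalIntegral.continuous_parametric_intervalIntegral_of_continuous' hc2 a b
    have hB : Continuous (fun ε : ℝ => G ((b : ℂ) + (|ε| : ℝ) * I) - G ((a : ℂ) + (|ε| : ℝ) * I)) :=
      (hc1.comp (Continuous.prodMk continuous_id continuous_const)).sub
        (hc1.comp (Continuous.prodMk continuous_id continuous_const))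
    have h1 := (hA.tendsto 0).mono_left (nhdsWithin_le_nhds (s := {0}ᶜ))
    have h2 := (hB.tendsto 0).mono_left (nhdsWithin_le_nhds (s := {0}ᶜ))
    have h3 : (fun ε : ℝ => ∫ t in a..b, G' ((t : ℂ) + (|ε| : ℝ) * I)) =ᶠ[𝓝[≠] 0]
        (fun ε : ℝ => G ((b : ℂ) + (|ε| : ℝ) * I) - G ((a : ℂ) + (|ε| : ℝ) * I)) := by
      filter_upwards [self_mem_nhdsWithin] with ε hε
      exact key a b ε hε
    have h4 := tendsto_nhds_unique (h1.congr' h3) h2
    simpa using h4
  have hc0 : Continuous (fun t : ℝ => G' (t : ℂ)) := by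
    apply hG'.comp_continuous (by fun_prop)
    intro q
    simp
  have h5 : (fun t : ℝ => G t) = fun t : ℝ => (∫ s in (0:ℝ)..t, G' (s : ℂ)) + G ((0 : ℝ) : ℂ) := by
    ext t
    rw [key0]
    ring
  rw [h5]
  exact (intervalIntegral.integral_hasDerivAt_right (hc0.intervalIntegrable _ _)
    (hc0.stronglyMeasurableAtFilter _ _) hc0.continuousAt).add_const _

lemma Sw_hasDerivAt_real {w : ℝ} (hw : 0 < w) (x : ℝ) :
    HasDerivAt (fun t : ℝ => Sw w t) (Sw w x * Dw w x) x :=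
  bdry_deriv (G' := fun z => Sw w z * Dw w z) (continuousOn_Sw hw)
    ((continuousOn_Sw hw).mul (continuous_Dw w).continuousOn)
    (fun _ hz => Sw_hasDerivAt hw hz) x

/-- For real `x` with `|x| ≥ w` the number `a` is real. -/
lemma aw_real {w : ℝ} (hw : 0 < w) {x : ℝ} (hx : w ≤ |x|) :
    ∃ t : ℝ, aw w x = t ∧ |t| ≤ 1 ∧ t ≠ 0 ∧ x = w / 2 * (t + 1 / t) ∧ |t| * |x| ≤ w := by
  have hz : 0 ≤ ((x : ℂ)).im := by simp
  set a := aw w x with ha
  have h0 : a ≠ 0 := aw_ne hw hz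
  have h1 : ‖a‖ ≤ 1 := aw_norm_le hw hz
  have h2 : (x : ℂ) = w / 2 * (a + 1 / a) := aw_eq hw hz
  have h2' := aw_norm_mul_le hw hz
  have hpos : 0 < ‖a‖ := norm_pos_iff.2 h0
  have h5 : (w : ℂ) / 2 = ((w / 2 : ℝ) : ℂ) := by push_cast; ring
  have him : 0 = w / 2 * (a.im * (1 - 1 / ‖a‖ ^ 2)) := by
    have h4 := congrArg Complex.im h2
    rw [Complex.ofReal_im, h5, Complex.im_ofReal_mul, Complex.add_im, one_div, Complex.inv_im,
      Complex.normSq_eq_norm_sq] at h4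
    rw [h4]
    ring
  have hre : x = w / 2 * (a.re * (1 + 1 / ‖a‖ ^ 2)) := by
    have h4 := congrArg Complex.re h2
    rw [Complex.ofReal_re, h5, Complex.re_ofReal_mul, Complex.add_re, one_div, Complex.inv_re,
      Complex.normSq_eq_norm_sq] at h4
    rw [h4]
    ring
  have haim : a.im = 0 := by
    rcases mul_eq_zero.1 him.symm with h | h
    · linarith
    · rcases mul_eq_zero.1 h with h | h
      · exact h
      · have hn : ‖a‖ ^ 2 = 1 := by
          field_simp at h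
          linarith
        rw [hn] at hre
        have h6 : |x| = w * |a.re| := by
          rw [hre]
          rw [show w / 2 * (a.re * (1 + 1 / 1)) = w * a.re by ring, abs_mul, abs_of_pos hw]
        rw [h6] at hx
        have h7 : 1 ≤ |a.re| := by
          by_contra hc
          push Not at hc
          nlinarith
        have h8 : a.re ^ 2 + a.im ^ 2 = 1 := by
          rw [← hn, ← Complex.normSq_eq_norm_sq, Complex.normSq_apply]; ring
        have h9 : 1 ≤ a.re ^ 2 := by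
          rw [← sq_abs]; nlinarith
        nlinarith
  have har : a = (a.re : ℂ) := by
    apply Complex.ext
    · simp
    · simp [haim]
  refine ⟨a.re, har, ?_, ?_, ?_, ?_⟩
  · rw [har, Complex.norm_real, Real.norm_eq_abs] at h1; exact h1
  · intro h
    rw [h] at har
    exact h0 (by rw [har]; simp)
  · rw [har] at h2
    exact_mod_cast h2
  · rw [← ha, har, Complex.norm_real, Real.norm_eq_abs, Complex.norm_real, Real.norm_eq_abs] at h2'
    exact h2'

/-- Away from the cut the quotient `Sw w x / x` is real, between `exp (- w ^ 2 / (2 x ^ 2))` and `1`. -/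
lemma Sw_div_bounds {w : ℝ} (hw : 0 < w) {x : ℝ} (hx : w ≤ |x|) :
    ‖Sw w x‖ ≤ |x| ∧ |x| * Real.exp (-(w ^ 2 / (2 * x ^ 2))) ≤ ‖Sw w x‖ := by
  obtain ⟨t, h1, h2, h3, h4, h5⟩ := aw_real hw hx
  have hx0 : 0 < |x| := lt_of_lt_of_le hw hx
  have hxne : x ≠ 0 := abs_pos.1 hx0
  have ht0 : 0 < |t| := abs_pos.2 h3
  have ht2 : t ^ 2 ≤ 1 := by rw [← sq_abs]; nlinarith
  have ht2p : 0 < t ^ 2 := by positivity
  have hS : ‖Sw w x‖ = w / (2 * |t|) * Real.exp (t ^ 2 / 2) := by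
    unfold Sw
    rw [h1, norm_mul, norm_div, norm_mul, Complex.norm_real, Real.norm_of_nonneg hw.le,
      Complex.norm_real, Real.norm_eq_abs]
    have h7 : ‖(2 : ℂ)‖ = 2 := by simp
    rw [h7]
    congr 1
    rw [Complex.norm_exp]
    congr 1
    have : (t : ℂ) ^ 2 / 2 = ((t ^ 2 / 2 : ℝ) : ℂ) := by push_cast; ring
    rw [this, Complex.ofReal_re]
  have hxabs : |x| = w / (2 * |t|) * (1 + t ^ 2) := by
    rw [h4, abs_mul, abs_of_pos (by positivity : (0:ℝ) < w / 2)]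
    have : t + 1 / t = (1 + t ^ 2) / t := by field_simp; ring
    rw [this, abs_div, abs_of_pos (by positivity : (0:ℝ) < 1 + t ^ 2)]
    field_simp
  have hpos : 0 < w / (2 * |t|) := by positivity
  constructor
  · rw [hS, hxabs]
    apply mul_le_mul_of_nonneg_left _ hpos.le
    -- exp (u/2) ≤ 1 + u for 0 ≤ u ≤ 1
    have h6 : Real.exp (t ^ 2 / 2) * Real.exp (-(t ^ 2 / 2)) = 1 := by
      rw [← Real.exp_add]; simp
    have h7 := Real.add_one_le_exp (-(t ^ 2 / 2))
    have h8 : (1 + t ^ 2) * (1 - t ^ 2 / 2) ≥ 1 := by nlinarith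
    have h9 := Real.exp_pos (t ^ 2 / 2)
    nlinarith
  · rw [hS]
    rw [hxabs, mul_assoc]
    apply mul_le_mul_of_nonneg_left _ hpos.le
    have h6 : t ^ 2 ≤ w ^ 2 / x ^ 2 := by
      rw [le_div_iff₀ (by positivity)]
      rw [← sq_abs t, ← sq_abs x, ← mul_pow]
      exact pow_le_pow_left₀ (by positivity) h5 2
    have h7 : Real.exp (-(w ^ 2 / (2 * x ^ 2))) ≤ Real.exp (-(t ^ 2 / 2)) := by
      apply Real.exp_le_exp.2
      have : w ^ 2 / (2 * x ^ 2) = w ^ 2 / x ^ 2 / 2 := by field_simp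
      rw [this]
      linarith
    have h8 : (1 + t ^ 2) ≤ Real.exp (t ^ 2) := by
      have := Real.add_one_le_exp (t ^ 2); linarith
    calc (1 + t ^ 2) * Real.exp (-(w ^ 2 / (2 * x ^ 2))) ≤ Real.exp (t ^ 2) * Real.exp (-(t ^ 2 / 2)) := by
          gcongr
      _ = Real.exp (t ^ 2 / 2) := by rw [← Real.exp_add]; congr 1; ring

/-- `|1 / s - 1 / x| ≤ 2 w ^ 2 / |x| ^ 3` away from the cut. -/
lemma Dw_sub_inv {w : ℝ} (hw : 0 < w) {x : ℝ} (hx : w ≤ |x|) :
    ‖Dw w x - 1 / x‖ ≤ 2 * w ^ 2 / x ^ 2 / |x| := by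
  obtain ⟨t, h1, h2, h3, h4, h5⟩ := aw_real hw hx
  have hx0 : 0 < |x| := lt_of_lt_of_le hw hx
  have hxne : x ≠ 0 := abs_pos.1 hx0
  have ht0 : 0 < |t| := abs_pos.2 h3
  have hD : Dw w x - 1 / x = ((2 * t / w * (t ^ 2 / (1 + t ^ 2)) : ℝ) : ℂ) := by
    unfold Dw
    rw [h1]
    have h6 : (1 : ℝ) / x = 2 * t / w * (1 / (1 + t ^ 2)) := by
      rw [h4]
      have : (1 + t ^ 2) ≠ 0 := by positivity
      field_simp
      ring
    have h7 : (1 : ℂ) / x = ((1 / x : ℝ) : ℂ) := by push_cast; ring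
    rw [h7, h6]
    rw [← Complex.ofReal_ofNat 2, ← Complex.ofReal_mul, ← Complex.ofReal_div, ← Complex.ofReal_sub]
    congr 1
    have : (1 + t ^ 2) ≠ 0 := by positivity
    field_simp
    ring
  rw [hD, Complex.norm_real, Real.norm_eq_abs, abs_mul, abs_div, abs_mul, abs_of_pos hw,
    abs_of_nonneg (by positivity : (0:ℝ) ≤ t ^ 2 / (1 + t ^ 2)), abs_two]
  have h8 : t ^ 2 / (1 + t ^ 2) ≤ t ^ 2 := by
    apply div_le_self (by positivity)
    nlinarith [sq_nonneg t]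
  have h9 : |t| ≤ w / |x| := by rw [le_div_iff₀ hx0]; exact h5
  have h10 : t ^ 2 ≤ (w / |x|) ^ 2 := by
    rw [← sq_abs t]
    exact pow_le_pow_left₀ (abs_nonneg _) h9 2
  calc 2 * |t| / w * (t ^ 2 / (1 + t ^ 2)) ≤ 2 * (w / |x|) / w * (w / |x|) ^ 2 := by
        have : t ^ 2 / (1 + t ^ 2) ≤ (w / |x|) ^ 2 := h8.trans h10
        gcongr
    _ = 2 * w ^ 2 / x ^ 2 / |x| := by
        rw [← sq_abs x]
        field_simp

end Pool.Agent.W2helper20.PK
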