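import Mathlib

set_option autoImplicit false

open Set Filter Topology

namespace Pool.Agent.W2helper20.PK

/-- Poles: the left endpoints of the intervals of a Cantor construction. -/
noncomputable def pp (s : ℕ → ℝ) : ℕ → ℕ → ℝ
  | 0, _ => 0
  | (n + 1), i => pp s n (i / 2) + ((i % 2 : ℕ) : ℝ) * s (n + 1)

/-- Partial tail sums. -/
noncomputable def tl (s : ℕ → ℝ) (k t : ℕ) : ℝ := ∑ j ∈ Finset.range t, s (k + 1 + j)

/-- Generation of a gap. -/
def gen : ℕ → ℕ → ℕ
  | 0, _ => 0
  | (n + 1), j => if j % 2 = 0 then n + 1 else gen n (j / 2)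

/-- Standing assumption on the lengths. -/
structure Len (l : ℝ) (s : ℕ → ℝ) : Prop where
  l0 : 0 < l
  l2 : l < 1 / 2
  s0 : s 0 = 1
  pos : ∀ k, 0 < s k
  le : ∀ k, s (k + 1) ≤ l * s k

section
variable {l : ℝ} {s : ℕ → ℝ}

lemma pp_two_mul (n i : ℕ) : pp s (n + 1) (2 * i) = pp s n i := by
  have h1 : 2 * i / 2 = i := by omega
  have h2 : 2 * i % 2 = 0 := by omega
  simp only [pp, h1, h2]
  simp

lemma pp_two_mul_add (n i : ℕ) : pp s (n + 1) (2 * i + 1) = pp s n i + s (n + 1) := by
  have h1 : (2 * i + 1) / 2 = i := by omega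
  have h2 : (2 * i + 1) % 2 = 1 := by omega
  simp only [pp, h1, h2]
  simp

lemma Len.tau_lt (L : Len l s) : l / (1 - l) < 1 := by
  have := L.l2
  rw [div_lt_one (by linarith)]
  linarith

lemma Len.tau_pos (L : Len l s) : 0 < l / (1 - l) := by
  have := L.l2
  exact div_pos L.l0 (by linarith)

lemma Len.half (L : Len l s) (k : ℕ) : s (k + 1) ≤ s k / 2 := by
  have h1 := L.le k
  have h2 := L.pos k
  have h3 := L.l2
  nlinarith

lemma tl_nonneg (L : Len l s) (k t : ℕ) : 0 ≤ tl s k t :=
  Finset.sum_nonneg fun _ _ => (L.pos _).le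

lemma tl_succ (k t : ℕ) : tl s k (t + 1) = s (k + 1) + tl s (k + 1) t := by
  unfold tl
  rw [Finset.sum_range_succ', add_comm]
  congr 1
  apply Finset.sum_congr rfl
  intro j _
  congr 1
  ring

lemma tl_le (L : Len l s) (k t : ℕ) : tl s k t ≤ l / (1 - l) * s k := by
  induction t generalizing k with
  | zero =>
    unfold tl
    simp only [Finset.range_zero, Finset.sum_empty]
    exact mul_nonneg L.tau_pos.le (L.pos k).le
  | succ t ih =>
    rw [tl_succ]
    have h1 := ih (k + 1)
    have h2 := L.le k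
    have h3 := L.tau_pos
    have h4 : 1 - l ≠ 0 := by have := L.l2; linarith
    have h5 : (1 + l / (1 - l)) * l = l / (1 - l) := by field_simp; ring
    calc s (k + 1) + tl s (k + 1) t ≤ (1 + l / (1 - l)) * s (k + 1) := by linarith
      _ ≤ (1 + l / (1 - l)) * (l * s k) := by gcongr
      _ = l / (1 - l) * s k := by rw [← mul_assoc, h5]

lemma pp_block (L : Len l s) (k t i : ℕ) :
    pp s k (i / 2 ^ t) ≤ pp s (k + t) i ∧ pp s (k + t) i ≤ pp s k (i / 2 ^ t) + tl s k t := by
  induction t generalizing i with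
  | zero => simp [tl]
  | succ t ih =>
    have h1 : i / 2 ^ (t + 1) = i / 2 / 2 ^ t := by
      rw [Nat.div_div_eq_div_mul, pow_succ, mul_comm]
    have h2 := ih (i / 2)
    rw [h1]
    have h3 : pp s (k + (t + 1)) i = pp s (k + t) (i / 2) + ((i % 2 : ℕ) : ℝ) * s (k + t + 1) := rfl
    have h4 : tl s k (t + 1) = tl s k t + s (k + t + 1) := by
      unfold tl
      rw [Finset.sum_range_succ]
      congr 2
      ring
    have h5 := L.pos (k + t + 1)
    have h6 : (0 : ℝ) ≤ ((i % 2 : ℕ) : ℝ) := Nat.cast_nonneg _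
    have h7 : ((i % 2 : ℕ) : ℝ) ≤ 1 := by
      have : i % 2 ≤ 1 := by omega
      exact_mod_cast this
    rw [h3, h4]
    constructor <;> nlinarith

lemma pp_block_left (k t a : ℕ) : pp s (k + t) (2 ^ t * a) = pp s k a := by
  induction t generalizing a with
  | zero => simp
  | succ t ih =>
    have h1 : 2 ^ (t + 1) * a = 2 * (2 ^ t * a) := by ring
    rw [h1, ← add_assoc, pp_two_mul, ih]

lemma pp_sep (L : Len l s) (k : ℕ) {a b : ℕ} (hab : a < b) (hb : b < 2 ^ k) :
    s k ≤ pp s k b - pp s k a := by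
  induction k generalizing a b with
  | zero => omega
  | succ k ih =>
    have h0 := L.half k
    have h1 := L.pos (k + 1)
    have hb2 : b / 2 < 2 ^ k := by rw [pow_succ] at hb; omega
    simp only [pp]
    have e1 : (0 : ℝ) ≤ ((b % 2 : ℕ) : ℝ) := Nat.cast_nonneg _
    have e2 : ((a % 2 : ℕ) : ℝ) ≤ 1 := by
      have : a % 2 ≤ 1 := by omega
      exact_mod_cast this
    rcases (Nat.div_le_div_right (c := 2) hab.le).lt_or_eq with h | h
    · have h2 := ih h hb2
      nlinarith
    · have h3 : a % 2 = 0 := by omega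
      have h4 : b % 2 = 1 := by omega
      rw [h, h3, h4]
      simp

lemma pp_mono (L : Len l s) (k : ℕ) {a b : ℕ} (hab : a ≤ b) (hb : b < 2 ^ k) :
    pp s k a ≤ pp s k b := by
  rcases hab.lt_or_eq with h | h
  · have := pp_sep L k h hb
    have := L.pos k
    linarith
  · rw [h]

lemma pp_refl (n : ℕ) {i : ℕ} (hi : i < 2 ^ n) :
    pp s n (2 ^ n - 1 - i) = tl s 0 n - pp s n i := by
  induction n generalizing i with
  | zero => simp [pp, tl]
  | succ n ih =>
    have hi2 : i / 2 < 2 ^ n := by rw [pow_succ] at hi; omega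
    have h1 := ih hi2
    have h4 : tl s 0 (n + 1) = tl s 0 n + s (n + 1) := by
      unfold tl
      rw [Finset.sum_range_succ]
      congr 2
      ring
    have hpow : 2 ^ (n + 1) = 2 * 2 ^ n := by ring
    rcases Nat.even_or_odd' i with ⟨b, hb | hb⟩
    · have h2 : 2 ^ (n + 1) - 1 - i = 2 * (2 ^ n - 1 - b) + 1 := by omega
      have h3 : i / 2 = b := by omega
      rw [h2, pp_two_mul_add, hb, pp_two_mul, h4]
      rw [h3] at h1
      rw [h1]; ring
    · have h2 : 2 ^ (n + 1) - 1 - i = 2 * (2 ^ n - 1 - b) := by omega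
      have h3 : i / 2 = b := by omega
      rw [h2, pp_two_mul, hb, pp_two_mul_add, h4]
      rw [h3] at h1
      rw [h1]; ring

lemma pp_nonneg (L : Len l s) (n i : ℕ) : 0 ≤ pp s n i := by
  induction n generalizing i with
  | zero => exact le_refl _
  | succ n ih =>
    simp only [pp]
    have := ih (i / 2)
    have := L.pos (n + 1)
    positivity

lemma pp_le_one (L : Len l s) (n i : ℕ) : pp s n i ≤ 1 := by
  have h1 := (pp_block L 0 n i).2
  rw [zero_add] at h1
  have h2 := tl_le L 0 n
  rw [L.s0, mul_one] at h2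
  have h3 := L.tau_lt
  have h4 : pp s 0 (i / 2 ^ n) = 0 := rfl
  linarith

lemma pp_zero_idx (n : ℕ) : pp s n 0 = 0 := by
  induction n with
  | zero => rfl
  | succ n ih =>
    have := pp_two_mul (s := s) n 0
    rwa [mul_zero, ih] at this

lemma gen_spec (n : ℕ) {j : ℕ} (hj : j + 1 < 2 ^ n) :
    ∃ t a, gen n j + t = n ∧ j + 1 = 2 ^ t * (2 * a + 1) ∧ 1 ≤ gen n j := by
  induction n generalizing j with
  | zero => simp at hj
  | succ n ih =>
    by_cases h : j % 2 = 0
    · refine ⟨0, j / 2, ?_, ?_, ?_⟩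
      · simp [gen, h]
      · omega
      · simp [gen, h]
    · have h1 : j / 2 + 1 < 2 ^ n := by rw [pow_succ] at hj; omega
      obtain ⟨t, a, h2, h3, h4⟩ := ih h1
      refine ⟨t + 1, a, ?_, ?_, ?_⟩
      · simp only [gen, if_neg h]; omega
      · have : j + 1 = 2 * (j / 2 + 1) := by omega
        rw [this, h3]; ring
      · simp only [gen, if_neg h]; exact h4

/-- Description of a gap. -/
lemma gap_spec (L : Len l s) (n : ℕ) {j : ℕ} (hj : j + 1 < 2 ^ n) :
    ∃ g t a, gen n j = g + 1 ∧ n = g + 1 + t ∧ j + 1 = 2 ^ t * (2 * a + 1) ∧ a < 2 ^ g ∧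
      pp s n (j + 1) = pp s g a + s (g + 1) ∧ pp s g a ≤ pp s n j ∧
      pp s n j ≤ pp s g a + tl s (g + 1) t := by
  obtain ⟨t, a, h1, h2, h3⟩ := gen_spec n hj
  obtain ⟨g, hg⟩ : ∃ g, gen n j = g + 1 := ⟨gen n j - 1, by omega⟩
  have hn : n = g + 1 + t := by omega
  have hjt : j / 2 ^ t = 2 * a := by
    have h4 : j = 2 ^ t * (2 * a) + (2 ^ t - 1) := by
      have : 0 < 2 ^ t := by positivity
      have h5 : 2 ^ t * (2 * a + 1) = 2 ^ t * (2 * a) + 2 ^ t := by ring
      omega
    have : 0 < 2 ^ t := by positivity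
    rw [h4, Nat.mul_add_div this, Nat.div_eq_of_lt (by omega), add_zero]
  have hag : a < 2 ^ g := by
    by_contra hcon
    push Not at hcon
    have h5 : 2 ^ n = 2 ^ t * (2 * 2 ^ g) := by rw [hn]; ring
    have h6 : 2 ^ t * (2 * 2 ^ g) ≤ 2 ^ t * (2 * a + 1) := Nat.mul_le_mul_left _ (by omega)
    omega
  refine ⟨g, t, a, hg, hn, h2, hag, ?_, ?_, ?_⟩
  · rw [h2, hn, pp_block_left, pp_two_mul_add]
  · have := (pp_block L (g + 1) t j).1
    rw [hjt, pp_two_mul] at this
    rwa [hn]
  · have := (pp_block L (g + 1) t j).2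
    rw [hjt, pp_two_mul] at this
    rwa [hn]

lemma gap_len (L : Len l s) (n : ℕ) {j : ℕ} (hj : j + 1 < 2 ^ n) :
    (1 - l / (1 - l)) * s (gen n j) ≤ pp s n (j + 1) - pp s n j ∧
      pp s n (j + 1) - pp s n j ≤ s (gen n j) := by
  obtain ⟨g, t, a, h1, h2, h3, h4, h5, h6, h7⟩ := gap_spec L n hj
  have h8 := tl_le L (g + 1) t
  rw [h1, h5]
  constructor <;> linarith

/-- Sums in pairs. -/
lemma sum_pairs (f : ℕ → ℝ) (u v : ℕ) (h : u ≤ v) :
    ∑ i ∈ Finset.Ico (2 * u) (2 * v), f i = ∑ b ∈ Finset.Ico u v, (f (2 * b) + f (2 * b + 1)) := by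
  induction v, h using Nat.le_induction with
  | base => simp
  | succ v hv ih =>
    have h1 : 2 * (v + 1) = 2 * v + 1 + 1 := by ring
    rw [h1, Finset.sum_Ico_succ_top (by omega), Finset.sum_Ico_succ_top (by omega), ih,
      Finset.sum_Ico_succ_top hv]
    ring

lemma far_right (L : Len l s) {η : ℝ} (hη0 : 0 < η) (hη : η ≤ 1 / 2) (g : ℕ) {a : ℕ} {x : ℝ}
    (hx : a < 2 ^ g → x + η * s g ≤ pp s g a) :
    ∑ i ∈ Finset.Ico a (2 ^ g), 1 / (pp s g i - x) ≤ 2 / η / (1 - 2 * l) / s g := by
  have hl := L.l2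
  have hl' : 0 < 1 - 2 * l := by linarith
  have hl1 : 1 - 2 * l ≤ 1 := by have := L.l0; linarith
  induction g generalizing a with
  | zero =>
    rcases Nat.eq_zero_or_pos a with h | h
    · subst h
      have h1 := hx (by norm_num)
      have h2 : pp s 0 0 = 0 := rfl
      rw [L.s0, h2] at h1
      have h0 : Finset.Ico 0 1 = {0} := by decide
      simp only [pow_zero, L.s0]
      rw [h0, Finset.sum_singleton, h2, div_one]
      calc 1 / (0 - x) ≤ 1 / η := one_div_le_one_div_of_le hη0 (by linarith)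
        _ ≤ 2 / η := by gcongr; norm_num
        _ ≤ 2 / η / (1 - 2 * l) := by
            rw [le_div_iff₀ hl']
            have : 0 ≤ 2 / η := by positivity
            nlinarith
    · rw [Finset.Ico_eq_empty (by simp; omega), Finset.sum_empty]
      have := L.pos 0
      positivity
  | succ g ih =>
    have hs := L.pos (g + 1)
    have hsg := L.pos g
    by_cases ha : a < 2 ^ (g + 1)
    · have h1 := hx ha
      have hpow : 2 ^ (g + 1) = 2 * 2 ^ g := by ring
      have ha2 : a / 2 < 2 ^ g := by omega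
      -- bound for the first terms
      have hmid : 2 * (a / 2 + 1) ≤ 2 ^ (g + 1) := by omega
      have hIH : ∑ i ∈ Finset.Ico (a / 2 + 1) (2 ^ g), 1 / (pp s g i - x) ≤
          2 / η / (1 - 2 * l) / s g := by
        apply ih
        intro h2
        have h3 := pp_sep L g (Nat.lt_succ_self (a / 2)) h2
        have h4 : pp s (g + 1) a ≤ pp s g (a / 2) + s (g + 1) := by
          simp only [pp]
          have e2 : ((a % 2 : ℕ) : ℝ) ≤ 1 := by
            have : a % 2 ≤ 1 := by omega
            exact_mod_cast this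
          nlinarith
        have h5 := L.half g
        have h6 : 0 < η * s (g + 1) := by positivity
        have h7 : η * s g ≤ 1 / 2 * s g := by gcongr
        rw [Nat.succ_eq_add_one] at h3
        linarith
      have hposx : ∀ b, a / 2 + 1 ≤ b → b < 2 ^ g → 0 < pp s g b - x := by
        intro b hb1 hb2
        have h3 := pp_mono L (g + 1) (a := a) (b := 2 * b) (by omega) (by omega)
        rw [pp_two_mul] at h3
        have : 0 < η * s (g + 1) := by positivity
        linarith
      have hfirst : ∑ i ∈ Finset.Ico a (2 * (a / 2 + 1)), 1 / (pp s (g + 1) i - x) ≤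
          2 / η / s (g + 1) := by
        calc ∑ i ∈ Finset.Ico a (2 * (a / 2 + 1)), 1 / (pp s (g + 1) i - x)
            ≤ ∑ i ∈ Finset.Ico a (2 * (a / 2 + 1)), 1 / (η * s (g + 1)) := by
              apply Finset.sum_le_sum
              intro i hi
              rw [Finset.mem_Ico] at hi
              apply one_div_le_one_div_of_le (by positivity)
              have := pp_mono L (g + 1) (a := a) (b := i) hi.1 (by omega)
              linarith
          _ = ((2 * (a / 2 + 1) - a : ℕ) : ℝ) * (1 / (η * s (g + 1))) := by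
              rw [Finset.sum_const, Nat.card_Ico, nsmul_eq_mul]
          _ ≤ 2 * (1 / (η * s (g + 1))) := by
              apply mul_le_mul_of_nonneg_right _ (by positivity)
              have : 2 * (a / 2 + 1) - a ≤ 2 := by omega
              exact_mod_cast this
          _ = 2 / η / s (g + 1) := by field_simp
      have hsecond : ∑ i ∈ Finset.Ico (2 * (a / 2 + 1)) (2 ^ (g + 1)), 1 / (pp s (g + 1) i - x) ≤
          2 * (2 / η / (1 - 2 * l) / s g) := by
        rw [hpow, sum_pairs _ _ _ (by omega)]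
        calc ∑ b ∈ Finset.Ico (a / 2 + 1) (2 ^ g),
              (1 / (pp s (g + 1) (2 * b) - x) + 1 / (pp s (g + 1) (2 * b + 1) - x))
            ≤ ∑ b ∈ Finset.Ico (a / 2 + 1) (2 ^ g), 2 * (1 / (pp s g b - x)) := by
              apply Finset.sum_le_sum
              intro b hb
              rw [Finset.mem_Ico] at hb
              have h3 := hposx b hb.1 hb.2
              rw [pp_two_mul, pp_two_mul_add]
              have h4 : 1 / (pp s g b + s (g + 1) - x) ≤ 1 / (pp s g b - x) :=
                one_div_le_one_div_of_le h3 (by linarith)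
              linarith
          _ = 2 * ∑ b ∈ Finset.Ico (a / 2 + 1) (2 ^ g), (1 / (pp s g b - x)) := by
              rw [Finset.mul_sum]
          _ ≤ _ := by gcongr
      have hsplit : ∑ i ∈ Finset.Ico a (2 ^ (g + 1)), 1 / (pp s (g + 1) i - x) =
          ∑ i ∈ Finset.Ico a (2 * (a / 2 + 1)), 1 / (pp s (g + 1) i - x) +
          ∑ i ∈ Finset.Ico (2 * (a / 2 + 1)) (2 ^ (g + 1)), 1 / (pp s (g + 1) i - x) := by
        rw [Finset.sum_Ico_consecutive _ (by omega) hmid]
      rw [hsplit]
      have hle := L.le g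
      have h9 : 2 * (2 / η / (1 - 2 * l) / s g) ≤ 2 * (2 / η / (1 - 2 * l) * l / s (g + 1)) := by
        apply mul_le_mul_of_nonneg_left _ (by norm_num)
        rw [div_le_div_iff₀ hsg hs]
        have : 0 < 2 / η / (1 - 2 * l) := by positivity
        calc 2 / η / (1 - 2 * l) * s (g + 1) ≤ 2 / η / (1 - 2 * l) * (l * s g) := by gcongr
          _ = _ := by ring
      have h10 : 2 / η / s (g + 1) + 2 * (2 / η / (1 - 2 * l) * l / s (g + 1)) =
          2 / η / (1 - 2 * l) / s (g + 1) := by
        field_simp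
        ring
      linarith
    · rw [Finset.Ico_eq_empty (by omega), Finset.sum_empty]
      positivity

/-- Passing from level `g` to level `g + t`. -/
lemma block_sum (L : Len l s) (g t : ℕ) {a : ℕ} {x : ℝ} (ha : a ≤ 2 ^ g)
    (hx : ∀ i, a ≤ i → i < 2 ^ g → x < pp s g i) :
    ∑ i ∈ Finset.Ico (2 ^ t * a) (2 ^ (g + t)), 1 / (pp s (g + t) i - x) ≤
      2 ^ t * ∑ i ∈ Finset.Ico a (2 ^ g), 1 / (pp s g i - x) := by
  induction t with
  | zero => simp
  | succ t ih =>
    have h1 : 2 ^ (t + 1) * a = 2 * (2 ^ t * a) := by ring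
    have h2 : 2 ^ (g + (t + 1)) = 2 * 2 ^ (g + t) := by ring
    rw [h1, h2, ← add_assoc, sum_pairs _ _ _ (by
      rw [pow_add, mul_comm (2 ^ g)]
      exact Nat.mul_le_mul_left _ ha)]
    calc ∑ b ∈ Finset.Ico (2 ^ t * a) (2 ^ (g + t)),
          (1 / (pp s (g + t + 1) (2 * b) - x) + 1 / (pp s (g + t + 1) (2 * b + 1) - x))
        ≤ ∑ b ∈ Finset.Ico (2 ^ t * a) (2 ^ (g + t)), 2 * (1 / (pp s (g + t) b - x)) := by
          apply Finset.sum_le_sum
          intro b hb
          rw [Finset.mem_Ico] at hb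
          have h3 : 0 < pp s (g + t) b - x := by
            have h4 := (pp_block L g t b).1
            have h5 := hx (b / 2 ^ t) (by
              rw [Nat.le_div_iff_mul_le (by positivity), mul_comm]; exact hb.1) (by
              rw [Nat.div_lt_iff_lt_mul (by positivity), ← pow_add]; exact hb.2)
            linarith
          rw [pp_two_mul, pp_two_mul_add]
          have := L.pos (g + t + 1)
          have h4 : 1 / (pp s (g + t) b + s (g + t + 1) - x) ≤ 1 / (pp s (g + t) b - x) :=
            one_div_le_one_div_of_le h3 (by linarith)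
          linarith
      _ = 2 * ∑ b ∈ Finset.Ico (2 ^ t * a) (2 ^ (g + t)), (1 / (pp s (g + t) b - x)) := by
          rw [Finset.mul_sum]
      _ ≤ 2 * (2 ^ t * ∑ i ∈ Finset.Ico a (2 ^ g), 1 / (pp s g i - x)) := by gcongr
      _ = _ := by ring

end

end Pool.Agent.W2helper20.PK
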