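import Pool.Agent.W2helper20.PK.Cantor

set_option autoImplicit false

open Set Filter Topology

namespace Pool.Agent.W2helper20.PK

/-- Parameters of the construction. -/
structure Par (α l : ℝ) (s : ℕ → ℝ) : Prop extends Len l s where
  α0 : 0 < α
  α1 : α < 1
  eq : ∀ k, s k ^ (1 - α) = 1 / (2 ^ k * (k + 1))

section
variable {α l : ℝ} {s : ℕ → ℝ}

lemma mass (P : Par α l s) {n g : ℕ} (hgn : g ≤ n) {r : ℝ} (hr : 0 < r) (hrs : r ≤ s g) :
    ∃ k, g ≤ k ∧ k ≤ n ∧ tl s k (n - k) ≤ r ∧ 1 / 2 * (g + 1) * r ^ (1 - α) ≤ (1 / 2) ^ k := by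
  classical
  have hα1 := P.α1
  have hα0 := P.α0
  have hex : ∃ k, g ≤ k ∧ tl s k (n - k) ≤ r := ⟨n, hgn, by simp [tl, hr.le]⟩
  have hk := Nat.find_spec hex
  set k := Nat.find hex with hkdef
  have hkn : k ≤ n := Nat.find_min' hex ⟨hgn, by simp [tl, hr.le]⟩
  refine ⟨k, hk.1, hkn, hk.2, ?_⟩
  rcases hk.1.lt_or_eq with h | h
  · obtain ⟨q, hq⟩ : ∃ q, k = q + 1 := ⟨k - 1, by omega⟩
    have h1 := Nat.find_min hex (m := q) (by omega)
    rw [not_and, not_le] at h1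
    have h2 := h1 (by omega)
    have h3 : n - q = n - k + 1 := by omega
    rw [h3, tl_succ, ← hq] at h2
    have h4 := tl_le P.toLen k (n - k)
    have h5 := P.toLen.tau_lt
    have h6 := P.pos k
    have h7 : r ≤ 2 * s k := by nlinarith
    have h8 : r ^ (1 - α) ≤ 2 * s k ^ (1 - α) := by
      calc r ^ (1 - α) ≤ (2 * s k) ^ (1 - α) := Real.rpow_le_rpow hr.le h7 (by linarith)
        _ = 2 ^ (1 - α) * s k ^ (1 - α) := Real.mul_rpow (by norm_num) h6.le
        _ ≤ 2 * s k ^ (1 - α) := by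
            apply mul_le_mul_of_nonneg_right _ (Real.rpow_nonneg h6.le _)
            conv_rhs => rw [← Real.rpow_one 2]
            exact Real.rpow_le_rpow_of_exponent_le (by norm_num) (by linarith)
    rw [P.eq k] at h8
    have h9 : (g : ℝ) + 1 ≤ k + 1 := by
      have : (g : ℝ) ≤ k := by exact_mod_cast hk.1
      linarith
    have h10 : (0 : ℝ) < k + 1 := by positivity
    calc 1 / 2 * ((g : ℝ) + 1) * r ^ (1 - α) ≤ 1 / 2 * ((k : ℝ) + 1) * (2 * (1 / (2 ^ k * (k + 1)))) := by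
          gcongr
      _ = (1 / 2) ^ k := by rw [one_div_pow]; field_simp
  · have h8 : r ^ (1 - α) ≤ s g ^ (1 - α) := Real.rpow_le_rpow hr.le hrs (by linarith)
    rw [P.eq g] at h8
    rw [← h]
    calc 1 / 2 * ((g : ℝ) + 1) * r ^ (1 - α) ≤ 1 / 2 * ((g : ℝ) + 1) * (1 / (2 ^ g * (g + 1))) := by
          gcongr
      _ = 1 / 2 * (1 / 2) ^ g := by rw [one_div_pow]; field_simp
      _ ≤ (1 / 2) ^ g := by
          have : (0 : ℝ) < (1 / 2) ^ g := by positivity
          linarith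

lemma sum_ge_left (P : Par α l s) {n g t : ℕ} (hn : n = g + t) {j : ℕ} (hj : j < 2 ^ n)
    (hdiv : 2 ^ t ∣ j + 1) {f : ℕ → ℝ} (hf : ∀ i < 2 ^ n, 0 ≤ f i) {r y : ℝ} (hr : 0 < r)
    (hrs : r ≤ s g) (hy : 0 ≤ y) (hfy : ∀ i ≤ j, pp s n j - r ≤ pp s n i → y ≤ f i) :
    1 / 2 * (g + 1) * r ^ (1 - α) * y ≤ 1 / 2 ^ n * ∑ i ∈ Finset.range (2 ^ n), f i := by
  obtain ⟨k, h1, h2, h3, h4⟩ := mass P (n := n) (g := g) (by omega) hr hrs
  obtain ⟨u, hu⟩ : ∃ u, n = k + u := ⟨n - k, by omega⟩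
  have hu' : n - k = u := by omega
  rw [hu'] at h3
  have hut : u ≤ t := by omega
  obtain ⟨b, hb⟩ : 2 ^ u ∣ j + 1 := (pow_dvd_pow 2 hut).trans hdiv
  have h2u : 0 < 2 ^ u := by positivity
  obtain ⟨b', hb'⟩ : ∃ b', b = b' + 1 := by
    rcases b with _ | b'
    · omega
    · exact ⟨b', rfl⟩
  have hbj : j + 1 = 2 ^ u * b' + 2 ^ u := by rw [hb, hb']; ring
  have hblk : ∀ i, 2 ^ u * b' ≤ i → i ≤ j → pp s n j - r ≤ pp s n i := by
    intro i hi1 hi2
    have e0 : (b' + 1) * 2 ^ u = 2 ^ u * b' + 2 ^ u := by ring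
    have e1 : i / 2 ^ u = b' := by
      apply Nat.div_eq_of_lt_le
      · rw [mul_comm]; exact hi1
      · omega
    have e2 : j / 2 ^ u = b' := by
      apply Nat.div_eq_of_lt_le
      · rw [mul_comm]; omega
      · omega
    have e3 := (pp_block P.toLen k u i).1
    have e4 := (pp_block P.toLen k u j).2
    rw [e1, ← hu] at e3
    rw [e2, ← hu] at e4
    linarith
  have hsum : (2 : ℝ) ^ u * y ≤ ∑ i ∈ Finset.range (2 ^ n), f i := by
    calc (2 : ℝ) ^ u * y = ∑ i ∈ Finset.Ico (2 ^ u * b') (j + 1), y := by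
          rw [Finset.sum_const, Nat.card_Ico, nsmul_eq_mul]
          congr 1
          rw [hbj]
          simp
      _ ≤ ∑ i ∈ Finset.Ico (2 ^ u * b') (j + 1), f i := by
          apply Finset.sum_le_sum
          intro i hi
          rw [Finset.mem_Ico] at hi
          exact hfy i (by omega) (hblk i hi.1 (by omega))
      _ ≤ ∑ i ∈ Finset.range (2 ^ n), f i := by
          apply Finset.sum_le_sum_of_subset_of_nonneg
          · intro i hi
            rw [Finset.mem_Ico] at hi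
            rw [Finset.mem_range]
            omega
          · intro i hi _
            exact hf i (Finset.mem_range.1 hi)
  calc 1 / 2 * ((g : ℝ) + 1) * r ^ (1 - α) * y ≤ (1 / 2) ^ k * y := by gcongr
    _ = 1 / 2 ^ n * (2 ^ u * y) := by
        rw [hu, pow_add, one_div_pow]; field_simp
    _ ≤ _ := by gcongr

lemma sum_ge_right (P : Par α l s) {n g t : ℕ} (hn : n = g + t) {j : ℕ} (hj : j < 2 ^ n)
    (hdiv : 2 ^ t ∣ j) {f : ℕ → ℝ} (hf : ∀ i < 2 ^ n, 0 ≤ f i) {r y : ℝ} (hr : 0 < r)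
    (hrs : r ≤ s g) (hy : 0 ≤ y)
    (hfy : ∀ i < 2 ^ n, j ≤ i → pp s n i ≤ pp s n j + r → y ≤ f i) :
    1 / 2 * (g + 1) * r ^ (1 - α) * y ≤ 1 / 2 ^ n * ∑ i ∈ Finset.range (2 ^ n), f i := by
  obtain ⟨k, h1, h2, h3, h4⟩ := mass P (n := n) (g := g) (by omega) hr hrs
  obtain ⟨u, hu⟩ : ∃ u, n = k + u := ⟨n - k, by omega⟩
  have hu' : n - k = u := by omega
  rw [hu'] at h3
  have hut : u ≤ t := by omega
  obtain ⟨b, hb⟩ : 2 ^ u ∣ j := (pow_dvd_pow 2 hut).trans hdiv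
  have h2u : 0 < 2 ^ u := by positivity
  have hbk : b < 2 ^ k := by
    by_contra hcon
    push Not at hcon
    have h5 : 2 ^ n = 2 ^ u * 2 ^ k := by rw [hu]; ring
    have h6 : 2 ^ u * 2 ^ k ≤ 2 ^ u * b := Nat.mul_le_mul_left _ hcon
    omega
  have hend : 2 ^ u * b + 2 ^ u ≤ 2 ^ n := by
    have h5 : 2 ^ n = 2 ^ u * 2 ^ k := by rw [hu]; ring
    have h6 : 2 ^ u * (b + 1) ≤ 2 ^ u * 2 ^ k := Nat.mul_le_mul_left _ hbk
    have h7 : 2 ^ u * (b + 1) = 2 ^ u * b + 2 ^ u := by ring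
    omega
  have hblk : ∀ i, 2 ^ u * b ≤ i → i < 2 ^ u * b + 2 ^ u → pp s n i ≤ pp s n j + r := by
    intro i hi1 hi2
    have e0 : (b + 1) * 2 ^ u = 2 ^ u * b + 2 ^ u := by ring
    have e1 : i / 2 ^ u = b := by
      apply Nat.div_eq_of_lt_le
      · rw [mul_comm]; exact hi1
      · omega
    have e2 : j / 2 ^ u = b := by
      apply Nat.div_eq_of_lt_le
      · rw [mul_comm]; omega
      · omega
    have e3 := (pp_block P.toLen k u i).2
    have e4 := (pp_block P.toLen k u j).1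
    rw [e1, ← hu] at e3
    rw [e2, ← hu] at e4
    linarith
  have hsum : (2 : ℝ) ^ u * y ≤ ∑ i ∈ Finset.range (2 ^ n), f i := by
    calc (2 : ℝ) ^ u * y = ∑ i ∈ Finset.Ico (2 ^ u * b) (2 ^ u * b + 2 ^ u), y := by
          rw [Finset.sum_const, Nat.card_Ico, nsmul_eq_mul]
          simp
      _ ≤ ∑ i ∈ Finset.Ico (2 ^ u * b) (2 ^ u * b + 2 ^ u), f i := by
          apply Finset.sum_le_sum
          intro i hi
          rw [Finset.mem_Ico] at hi
          exact hfy i (by omega) (by omega) (hblk i hi.1 (by omega))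
      _ ≤ ∑ i ∈ Finset.range (2 ^ n), f i := by
          apply Finset.sum_le_sum_of_subset_of_nonneg
          · intro i hi
            rw [Finset.mem_Ico] at hi
            rw [Finset.mem_range]
            omega
          · intro i hi _
            exact hf i (Finset.mem_range.1 hi)
  calc 1 / 2 * ((g : ℝ) + 1) * r ^ (1 - α) * y ≤ (1 / 2) ^ k * y := by gcongr
    _ = 1 / 2 ^ n * (2 ^ u * y) := by
        rw [hu, pow_add, one_div_pow]; field_simp
    _ ≤ _ := by gcongr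

end

end Pool.Agent.W2helper20.PK
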