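import Pool.Agent.W2helper20.PK.Cantor2

set_option autoImplicit false

open Set Filter Topology

namespace Pool.Agent.W2helper20.PK

/-- The constant in `far_right`. -/
noncomputable def cC (l : ℝ) : ℝ := 2 / ((1 - l / (1 - l)) / 2) / (1 - 2 * l)

/-- Relative distance of a zero from the endpoints of its gap. -/
noncomputable def eps (α l : ℝ) : ℝ := min ((1 - l / (1 - l)) / 2) ((4 * cC l) ^ (-(1 / α)))

section
variable {α l : ℝ} {s : ℕ → ℝ}

lemma cC_pos (P : Par α l s) : 0 < cC l := by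
  have h1 := P.toLen.tau_lt
  have h2 := P.l2
  unfold cC
  have h3 : 0 < 1 - l / (1 - l) := by linarith
  have h4 : 0 < 1 - 2 * l := by linarith
  positivity

lemma eps_pos (P : Par α l s) : 0 < eps α l := by
  have h1 := P.toLen.tau_lt
  have h3 := cC_pos P
  unfold eps
  apply lt_min
  · linarith
  · exact Real.rpow_pos_of_pos (by positivity) _

lemma eps_le_half (P : Par α l s) : eps α l ≤ 1 / 2 := by
  have h1 := P.toLen.tau_pos
  refine (min_le_left _ _).trans ?_
  linarith

lemma zero_left (P : Par α l s) {n j : ℕ} (hj : j + 1 < 2 ^ n) {c : ℝ} (hc1 : pp s n j < c)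
    (hc2 : c < pp s n (j + 1)) (hN : ∑ i ∈ Finset.range (2 ^ n), 1 / (c - pp s n i) = 0) :
    eps α l * s (gen n j) ≤ c - pp s n j := by
  by_contra hcon
  push Not at hcon
  have L := P.toLen
  have hα0 := P.α0
  have hα1 := P.α1
  obtain ⟨g, t, a, h1, h2, h3, h4, h5, h6, h7⟩ := gap_spec L n hj
  have hlen := gap_len L n hj
  have hdiv : 2 ^ t ∣ j + 1 := ⟨_, h3⟩
  rw [h1] at hcon hlen
  set δ := c - pp s n j with hδ
  have hδ0 : 0 < δ := by linarith
  have hs := L.pos (g + 1)
  have hκ := L.tau_lt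
  have hκ' := L.tau_pos
  have hε1 : eps α l ≤ (1 - l / (1 - l)) / 2 := min_le_left _ _
  have hε2 : eps α l ≤ (4 * cC l) ^ (-(1 / α)) := min_le_right _ _
  have hCC := cC_pos P
  have hδs : δ ≤ s (g + 1) := by
    have := eps_le_half P
    nlinarith
  -- splitting
  have hsplit : ∑ i ∈ Finset.Ico 0 (j + 1), 1 / (c - pp s n i) +
      ∑ i ∈ Finset.Ico (j + 1) (2 ^ n), 1 / (c - pp s n i) = 0 := by
    rw [Finset.sum_Ico_consecutive _ (Nat.zero_le _) hj.le, ← Finset.range_eq_Ico, hN]
  have hneg : ∑ i ∈ Finset.Ico (j + 1) (2 ^ n), 1 / (c - pp s n i) =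
      -∑ i ∈ Finset.Ico (j + 1) (2 ^ n), 1 / (pp s n i - c) := by
    rw [← Finset.sum_neg_distrib]
    apply Finset.sum_congr rfl
    intro i _
    rw [← neg_sub, one_div, one_div, inv_neg]
  -- the left side
  have hleft : 1 / 2 * ((g + 1 : ℕ) + 1) * δ ^ (1 - α) * (1 / (2 * δ)) ≤
      1 / 2 ^ n * ∑ i ∈ Finset.Ico 0 (j + 1), 1 / (c - pp s n i) := by
    have h8 := sum_ge_left P (n := n) (g := g + 1) (t := t) h2 (j := j) (by omega) hdiv
      (f := fun i => if i ≤ j then 1 / (c - pp s n i) else 0) (r := δ) (y := 1 / (2 * δ))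
      (by
        intro i hi
        show 0 ≤ if i ≤ j then 1 / (c - pp s n i) else 0
        split_ifs with h
        · have := pp_mono L n h (by omega)
          exact one_div_nonneg.2 (by linarith)
        · exact le_refl _) hδ0 hδs (by positivity)
      (by
        intro i hi h9
        show 1 / (2 * δ) ≤ if i ≤ j then 1 / (c - pp s n i) else 0
        rw [if_pos hi]
        have := pp_mono L n hi (by omega)
        exact one_div_le_one_div_of_le (by linarith) (by linarith))
    refine h8.trans (le_of_eq ?_)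
    congr 1
    rw [Finset.range_eq_Ico, ← Finset.sum_Ico_consecutive _ (Nat.zero_le (j + 1)) hj.le]
    have e1 : ∑ i ∈ Finset.Ico (j + 1) (2 ^ n), (if i ≤ j then 1 / (c - pp s n i) else 0) = 0 := by
      apply Finset.sum_eq_zero
      intro i hi
      rw [Finset.mem_Ico] at hi
      rw [if_neg (by omega)]
    rw [e1, add_zero]
    apply Finset.sum_congr rfl
    intro i hi
    rw [Finset.mem_Ico] at hi
    rw [if_pos (by omega)]
  -- the right side
  have hpow : 2 ^ (g + 1) = 2 * 2 ^ g := by ring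
  have hright : 1 / 2 ^ n * ∑ i ∈ Finset.Ico (j + 1) (2 ^ n), 1 / (pp s n i - c) ≤
      (1 / 2) ^ (g + 1) * (cC l / s (g + 1)) := by
    have hpa : pp s (g + 1) (2 * a + 1) = pp s n (j + 1) := by rw [h5, pp_two_mul_add]
    have h8 := block_sum L (g + 1) t (a := 2 * a + 1) (x := c) (by omega)
      (by
        intro i hi1 hi2
        have := pp_mono L (g + 1) hi1 hi2
        rw [hpa] at this
        linarith)
    rw [← h3, ← h2] at h8
    have h9 := far_right L (η := (1 - l / (1 - l)) / 2) (by linarith) (by linarith) (g + 1)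
      (a := 2 * a + 1) (x := c) (by
        intro _
        rw [hpa]
        have : δ ≤ (1 - l / (1 - l)) / 2 * s (g + 1) := by nlinarith
        linarith [hlen.1])
    have h9' : ∑ i ∈ Finset.Ico (2 * a + 1) (2 ^ (g + 1)), 1 / (pp s (g + 1) i - c) ≤
        cC l / s (g + 1) := h9
    calc 1 / 2 ^ n * ∑ i ∈ Finset.Ico (j + 1) (2 ^ n), 1 / (pp s n i - c)
        ≤ 1 / 2 ^ n * (2 ^ t * (cC l / s (g + 1))) := by
          apply mul_le_mul_of_nonneg_left _ (by positivity)
          exact h8.trans (mul_le_mul_of_nonneg_left h9' (by positivity))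
      _ = _ := by
          rw [h2, pow_add, one_div_pow]; field_simp
  have hcomb : 1 / 2 * ((g + 1 : ℕ) + 1) * δ ^ (1 - α) * (1 / (2 * δ)) ≤
      (1 / 2) ^ (g + 1) * (cC l / s (g + 1)) := by
    refine hleft.trans (le_trans (le_of_eq ?_) hright)
    congr 1
    rw [hneg] at hsplit
    linarith
  -- conclusion
  have hG : (0 : ℝ) < ((g + 1 : ℕ) : ℝ) + 1 := by positivity
  have e1 : δ ^ (1 - α) * (1 / (2 * δ)) = δ ^ (-α) / 2 := by
    have : δ ^ (1 - α) = δ * δ ^ (-α) := by
      rw [sub_eq_add_neg, Real.rpow_add hδ0, Real.rpow_one]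
    rw [this]; field_simp
  have e2 : (1 / 2 : ℝ) ^ (g + 1) = (((g + 1 : ℕ) : ℝ) + 1) * (s (g + 1) * s (g + 1) ^ (-α)) := by
    have h8 := P.eq (g + 1)
    have : s (g + 1) ^ (1 - α) = s (g + 1) * s (g + 1) ^ (-α) := by
      rw [sub_eq_add_neg, Real.rpow_add hs, Real.rpow_one]
    rw [← this, h8, one_div_pow]
    field_simp
  have e3 : δ ^ (-α) ≤ 4 * cC l * s (g + 1) ^ (-α) := by
    have h8 : 1 / 2 * (((g + 1 : ℕ) : ℝ) + 1) * δ ^ (1 - α) * (1 / (2 * δ)) =
        (((g + 1 : ℕ) : ℝ) + 1) * (δ ^ (-α) / 4) := by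
      rw [mul_assoc, e1]; ring
    have h9 : (1 / 2 : ℝ) ^ (g + 1) * (cC l / s (g + 1)) =
        (((g + 1 : ℕ) : ℝ) + 1) * (cC l * s (g + 1) ^ (-α)) := by
      rw [e2]; field_simp
    rw [h8, h9] at hcomb
    have := le_of_mul_le_mul_left hcomb hG
    linarith
  have e4 : δ ^ (-α) > (eps α l * s (g + 1)) ^ (-α) :=
    Real.rpow_lt_rpow_of_neg hδ0 hcon (by linarith)
  have e5 : (eps α l * s (g + 1)) ^ (-α) ≥ 4 * cC l * s (g + 1) ^ (-α) := by
    rw [Real.mul_rpow (eps_pos P).le hs.le]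
    apply mul_le_mul_of_nonneg_right _ (Real.rpow_nonneg hs.le _)
    calc 4 * cC l = ((4 * cC l) ^ (-(1 / α))) ^ (-α) := by
          rw [← Real.rpow_mul (by positivity)]
          have : -(1 / α) * -α = 1 := by field_simp
          rw [this, Real.rpow_one]
      _ ≤ (eps α l) ^ (-α) := Real.rpow_le_rpow_of_nonpos (eps_pos P) hε2 (by linarith)
  linarith

lemma gen_refl (n : ℕ) {j : ℕ} (hj : j + 1 < 2 ^ n) : gen n (2 ^ n - 2 - j) = gen n j := by
  induction n generalizing j with
  | zero => simp at hj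
  | succ n ih =>
    have hpow : 2 ^ (n + 1) = 2 * 2 ^ n := by ring
    by_cases h : j % 2 = 0
    · have h' : (2 ^ (n + 1) - 2 - j) % 2 = 0 := by omega
      simp [gen, h, h']
    · have h' : ¬ (2 ^ (n + 1) - 2 - j) % 2 = 0 := by omega
      have h1 : j / 2 + 1 < 2 ^ n := by omega
      have h2 : (2 ^ (n + 1) - 2 - j) / 2 = 2 ^ n - 2 - j / 2 := by omega
      simp only [gen, if_neg h, if_neg h', h2]
      exact ih h1

lemma zero_right (P : Par α l s) {n j : ℕ} (hj : j + 1 < 2 ^ n) {c : ℝ} (hc1 : pp s n j < c)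
    (hc2 : c < pp s n (j + 1)) (hN : ∑ i ∈ Finset.range (2 ^ n), 1 / (c - pp s n i) = 0) :
    eps α l * s (gen n j) ≤ pp s n (j + 1) - c := by
  have h1 : 2 ^ n - 2 - j + 1 < 2 ^ n := by omega
  have e1 : 2 ^ n - 2 - j = 2 ^ n - 1 - (j + 1) := by omega
  have e2 : 2 ^ n - 2 - j + 1 = 2 ^ n - 1 - j := by omega
  have h2 := pp_refl (s := s) n (i := j + 1) hj
  have h3 := pp_refl (s := s) n (i := j) (by omega)
  have h4 := zero_left P (n := n) (j := 2 ^ n - 2 - j) h1 (c := tl s 0 n - c)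
    (by rw [e1, h2]; linarith) (by rw [e2, h3]; linarith)
    (by
      rw [← Finset.sum_range_reflect]
      have h5 : ∀ i ∈ Finset.range (2 ^ n), 1 / (tl s 0 n - c - pp s n (2 ^ n - 1 - i)) =
          -(1 / (c - pp s n i)) := by
        intro i hi
        rw [pp_refl n (Finset.mem_range.1 hi), ← one_div_neg_eq_neg_one_div]
        congr 1
        ring
      rw [Finset.sum_congr rfl h5, Finset.sum_neg_distrib, hN, neg_zero])
  rw [gen_refl n hj, e1, h2] at h4
  linarith

/-- Existence of the zeros. -/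
lemma exists_zero (L : Len l s) {n j : ℕ} (hj : j + 1 < 2 ^ n) :
    ∃ c, pp s n j < c ∧ c < pp s n (j + 1) ∧
      ∑ i ∈ Finset.range (2 ^ n), 1 / (c - pp s n i) = 0 := by
  classical
  have hlt : pp s n j < pp s n (j + 1) := by
    have := pp_sep L n (Nat.lt_succ_self j) hj
    have := L.pos n
    rw [Nat.succ_eq_add_one] at *
    linarith
  obtain ⟨c, hc, hd⟩ := exists_hasDerivAt_eq_zero (f := fun x : ℝ =>
      ∏ i ∈ Finset.range (2 ^ n), (x - pp s n i))
    (f' := fun x => ∑ i ∈ Finset.range (2 ^ n),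
      (∏ k ∈ (Finset.range (2 ^ n)).erase i, (x - pp s n k)) • (1 : ℝ)) hlt
    (by fun_prop)
    (by
      rw [Finset.prod_eq_zero (i := j) (Finset.mem_range.2 (by omega)) (by simp),
        Finset.prod_eq_zero (i := j + 1) (Finset.mem_range.2 (by omega)) (by simp)])
    (by
      intro x _
      exact HasDerivAt.fun_finsetProd fun i _ => (hasDerivAt_id x).sub_const _)
  refine ⟨c, hc.1, hc.2, ?_⟩
  have hne : ∀ i ∈ Finset.range (2 ^ n), c - pp s n i ≠ 0 := by
    intro i hi
    have hi' := Finset.mem_range.1 hi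
    rcases le_or_gt i j with h | h
    · have := pp_mono L n h (by omega)
      have h2 : 0 < c - pp s n i := by linarith [hc.1]
      exact h2.ne'
    · have := pp_mono L n (a := j + 1) (b := i) h hi'
      have h2 : c - pp s n i < 0 := by linarith [hc.2]
      exact h2.ne
  have hprod : ∏ i ∈ Finset.range (2 ^ n), (c - pp s n i) ≠ 0 := Finset.prod_ne_zero_iff.2 hne
  have h3 : ∑ i ∈ Finset.range (2 ^ n), (∏ k ∈ (Finset.range (2 ^ n)).erase i, (c - pp s n k)) • (1 : ℝ) =
      (∏ i ∈ Finset.range (2 ^ n), (c - pp s n i)) * ∑ i ∈ Finset.range (2 ^ n), 1 / (c - pp s n i) := by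
    rw [Finset.mul_sum]
    apply Finset.sum_congr rfl
    intro i hi
    rw [← Finset.mul_prod_erase _ _ hi]
    have := hne i hi
    simp only [smul_eq_mul]
    field_simp
  rw [h3] at hd
  exact (mul_eq_zero.1 hd).resolve_left hprod

end

end Pool.Agent.W2helper20.PK
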