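import Pool.Agent.W2helper20.PK.Line3

set_option autoImplicit false

open Complex Set Filter Topology

namespace Pool.Agent.W2helper20.PK

/-- The quantitative hypotheses. -/
structure Est (α A B : ℝ) (m : ℕ) (p c w : ℕ → ℝ) : Prop where
  H1 : ∀ J < m, ∀ x, p J < x → x < p (J + 1) →
    A ≤ FJ m p c J x * max |x - c J| (w J) *
      (min (min (x - p J) (p (J + 1) - x)) (max |x - c J| (w J))) ^ α
  H2l : ∀ x, x < p 0 → A ≤ |NN m p x| * ((p 0 - x) ^ α + (p 0 - x))
  H2r : ∀ x, p m < x → A ≤ |NN m p x| * ((x - p m) ^ α + (x - p m))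
  H3 : ∀ x, ∀ s ⊆ Finset.range m, (∀ j ∈ s, x ≤ p j ∨ p (j + 1) ≤ x) →
    ∑ j ∈ s, (w j) ^ 2 / (x - c j) ^ 2 ≤ B

section
variable {m : ℕ} {p c w : ℕ → ℝ} {α A B : ℝ}

lemma Est.B_nonneg (E : Est α A B m p c w) : 0 ≤ B := by
  have := E.H3 0 ∅ (by simp) (by simp)
  simpa using this

lemma abs_sum_same_le {ι : Type} (s : Finset ι) (f g : ι → ℝ) {d : ℝ}
    (hf : ∀ i ∈ s, 0 ≤ f i) (hg : ∀ i ∈ s, |g i| ≤ 1 / d) :
    |∑ i ∈ s, f i * g i| ≤ |∑ i ∈ s, f i| / d := by
  rw [abs_of_nonneg (Finset.sum_nonneg hf)]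
  calc |∑ i ∈ s, f i * g i| ≤ ∑ i ∈ s, |f i * g i| := Finset.abs_sum_le_sum_abs _ _
    _ ≤ ∑ i ∈ s, f i * (1 / d) := by
        apply Finset.sum_le_sum
        intro i hi
        rw [abs_mul, abs_of_nonneg (hf i hi)]
        exact mul_le_mul_of_nonneg_left (hg i hi) (hf i hi)
    _ = (∑ i ∈ s, f i) / d := by rw [← Finset.sum_mul]; ring

/-- Estimates in a gap. -/
lemma gap_est (S : Sys m p c w) (E : Est α A B m p c w) (hA : 0 < A) {J : ℕ} (hJ : J < m)
    {x : ℝ} (hx1 : p J < x) (hx2 : x < p (J + 1)) :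
    ∃ L : ℂ, HasDerivAt (fun y : ℝ => gg m p c w y) (gg m p c w x * L) x ∧
      ‖L‖ ≤ (3 + 2 * B) / rho m p c w x ∧
      ‖gg m p c w x‖ ≤ (4 * Real.exp (B / 2) / A) * rho m p c w x ^ α ∧ 0 < rho m p c w x := by
  set d := min (x - p J) (p (J + 1) - x) with hd
  set M := max |x - c J| (w J) with hM
  have hd0 : 0 < d := lt_min (by linarith) (by linarith)
  have hwJ := S.hw J hJ
  have hM0 : 0 < M := lt_max_of_lt_right hwJ
  have hB := E.B_nonneg
  have hfar : ∀ j ∈ (Finset.range m).erase J, d ≤ |x - c j| ∧ w j ≤ |x - c j| ∧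
      (x ≤ p j ∨ p (j + 1) ≤ x) := by
    intro j hj
    rw [Finset.mem_erase, Finset.mem_range] at hj
    have h1 := S.h1 j hj.2
    have h2 := S.h2 j hj.2
    have h3 := S.hw j hj.2
    rcases lt_or_gt_of_ne hj.1 with h | h
    · have h4 := S.le (i := j + 1) (j := J) h hJ.le
      have h5 : 0 < x - c j := by linarith
      rw [abs_of_pos h5]
      refine ⟨(min_le_left _ _).trans (by linarith), by linarith, Or.inr (by linarith)⟩
    · have h4 := S.le (i := J + 1) (j := j) h hj.2.le
      have h5 : x - c j < 0 := by linarith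
      rw [abs_of_neg h5]
      refine ⟨(min_le_right _ _).trans (by linarith), by linarith, Or.inl (by linarith)⟩
  have hrho : rho m p c w x = min d M := by
    apply le_antisymm
    · apply le_min
      · apply le_min
        · have := rho_le_p (p := p) (c := c) (w := w) hJ.le x
          rwa [abs_of_pos (by linarith)] at this
        · have := rho_le_p (p := p) (c := c) (w := w) (i := J + 1) hJ x
          rw [abs_of_neg (by linarith)] at this
          linarith
      · exact rho_le_c hJ x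
    · apply le_rho
      · intro i hi
        exact (min_le_left _ _).trans (S.gap_pos hJ hx1 hx2 hi).2
      · intro j hj
        rcases eq_or_ne j J with h | h
        · rw [h]; exact min_le_right _ _
        · exact le_max_of_le_left ((min_le_left _ _).trans
            (hfar j (Finset.mem_erase.2 ⟨h, Finset.mem_range.2 hj⟩)).1)
  have hrho0 : 0 < rho m p c w x := by rw [hrho]; exact lt_min hd0 hM0
  have hF := S.FJ_pos hJ hx1 hx2
  have hder := (S.FJ_hasDerivAt hJ hx1 hx2).fun_neg
  have hS0 : Sw (w J) ((x : ℂ) - c J) ≠ 0 := Sw_ne hwJ (by simp)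
  have hnorm : ‖(x : ℂ) - c J‖ = |x - c J| := by
    have h2 : ((x : ℂ) - c J) = ((x - c J : ℝ) : ℂ) := by push_cast; ring
    rw [h2, Complex.norm_real, Real.norm_eq_abs]
  have hloc := local_bound (m := m) (p := p) (c := c) (w := w) (x := x) (d := d) (B := B)
    (K := fun y => -FJ m p c J y)
    (K' := -((1 / (m + 1 : ℝ)) * ∑ i ∈ Finset.range (m + 1),
      (-(1 / ((x - p i) * (c J - p i)) * (1 / (x - p i))))))
    (T := fun y : ℝ => (Sw (w J) ((y : ℂ) - c J))⁻¹) (τ := Dw (w J) ((x : ℂ) - c J))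
    (s := (Finset.range m).erase J) hd0
    (by
      filter_upwards [Ioo_mem_nhds hx1 hx2] with y hy
      exact gg_gap S hJ hy.1 hy.2)
    hder (neg_ne_zero.2 hF.ne')
    (by
      have h1 : ∀ i ∈ Finset.range (m + 1), 0 ≤ 1 / ((x - p i) * (c J - p i)) := by
        intro i hi
        have := (S.gap_pos hJ hx1 hx2 (i := i) (by have := Finset.mem_range.1 hi; omega)).1
        positivity
      have h2 := abs_sum_same_le (Finset.range (m + 1)) (fun i => 1 / ((x - p i) * (c J - p i)))
        (fun i => 1 / (x - p i)) (d := d) h1 (by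
          intro i hi
          have := (S.gap_pos hJ hx1 hx2 (i := i) (by have := Finset.mem_range.1 hi; omega)).2
          rw [abs_div, abs_one]
          exact one_div_le_one_div_of_le hd0 this)
      rw [abs_neg, abs_mul, abs_neg, Finset.sum_neg_distrib, abs_neg]
      unfold FJ
      rw [abs_mul, mul_div_assoc]
      exact mul_le_mul_of_nonneg_left h2 (abs_nonneg _))
    (by
      refine ((Sw_shift_hasDerivAt hwJ (c J) x).fun_inv hS0).congr_deriv ?_
      field_simp)
    (fun j hj => S.hw j (Finset.mem_range.1 (Finset.mem_of_mem_erase hj)))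
    (fun j hj => (hfar j hj).2.1) (fun j hj => (hfar j hj).1)
    (E.H3 x _ (Finset.erase_subset _ _) fun j hj => (hfar j hj).2.2)
  obtain ⟨L, hL1, hL2, hL3⟩ := hloc
  refine ⟨L, hL1, ?_, ?_, hrho0⟩
  · have h1 : ‖Dw (w J) ((x : ℂ) - c J)‖ ≤ 2 / M := by
      have := Dw_norm_le hwJ (z := (x : ℂ) - c J) (by simp)
      rwa [hnorm] at this
    have h2 : 1 / d ≤ 1 / rho m p c w x :=
      one_div_le_one_div_of_le hrho0 (by rw [hrho]; exact min_le_left _ _)
    have h3 : 2 / M ≤ 2 / rho m p c w x :=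
      div_le_div_of_nonneg_left (by norm_num) hrho0 (by rw [hrho]; exact min_le_right _ _)
    have h4 : 2 * B / d ≤ 2 * B / rho m p c w x :=
      div_le_div_of_nonneg_left (by positivity) hrho0 (by rw [hrho]; exact min_le_left _ _)
    calc ‖L‖ ≤ 1 / d + ‖Dw (w J) ((x : ℂ) - c J)‖ + 2 * B / d := hL2
      _ ≤ 1 / rho m p c w x + 2 / rho m p c w x + 2 * B / rho m p c w x := by
          gcongr
          exact h1.trans h3
      _ = (3 + 2 * B) / rho m p c w x := by ring
  · have h1 : M / 4 ≤ ‖Sw (w J) ((x : ℂ) - c J)‖ := by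
      have := Sw_norm_ge hwJ (z := (x : ℂ) - c J) (by simp)
      rwa [hnorm] at this
    have h2 := E.H1 J hJ x hx1 hx2
    rw [← hd, ← hM, ← hrho] at h2
    have h3 : ‖(Sw (w J) ((x : ℂ) - c J))⁻¹‖ ≤ 4 / M := by
      rw [norm_inv]
      have h4 : (M / 4)⁻¹ = 4 / M := by rw [inv_div]
      rw [← h4]
      exact inv_anti₀ (by positivity) h1
    have h5 : |-FJ m p c J x|⁻¹ * (4 / M) ≤ 4 / A * rho m p c w x ^ α := by
      rw [abs_neg, abs_of_pos hF]
      have h6 : (FJ m p c J x)⁻¹ * (4 / M) = 4 / (FJ m p c J x * M) := by field_simp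
      rw [h6, div_le_iff₀ (by positivity)]
      have h7 : 4 / A * rho m p c w x ^ α * (FJ m p c J x * M) =
          4 * ((FJ m p c J x * M * rho m p c w x ^ α) / A) := by ring
      rw [h7]
      have h8 : 1 ≤ (FJ m p c J x * M * rho m p c w x ^ α) / A := by
        rw [le_div_iff₀ hA, one_mul]
        exact h2
      linarith
    calc ‖gg m p c w x‖ ≤ |-FJ m p c J x|⁻¹ * ‖(Sw (w J) ((x : ℂ) - c J))⁻¹‖ * Real.exp (B / 2) :=
          hL3
      _ ≤ |-FJ m p c J x|⁻¹ * (4 / M) * Real.exp (B / 2) := by gcongr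
      _ ≤ 4 / A * rho m p c w x ^ α * Real.exp (B / 2) := by gcongr
      _ = _ := by ring

/-- Estimates outside. -/
lemma out_est (S : Sys m p c w) (E : Est α A B m p c w) (hA : 0 < A)
    {x : ℝ} (hx : x < p 0 ∨ p m < x) :
    ∃ L : ℂ, HasDerivAt (fun y : ℝ => gg m p c w y) (gg m p c w x * L) x ∧
      ‖L‖ ≤ (3 + 2 * B) / rho m p c w x ∧
      ‖gg m p c w x‖ ≤ (4 * Real.exp (B / 2) / A) * (rho m p c w x ^ α + rho m p c w x) ∧
      0 < rho m p c w x := by
  have hB := E.B_nonneg
  -- distance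
  obtain ⟨d, hd0, hdp, hdc, hA2, hrho, hopen⟩ : ∃ d : ℝ, 0 < d ∧ (∀ i ≤ m, d ≤ |x - p i|) ∧
      (∀ j < m, d ≤ |x - c j| ∧ w j ≤ |x - c j| ∧ (x ≤ p j ∨ p (j + 1) ≤ x)) ∧
      A ≤ |NN m p x| * (d ^ α + d) ∧ rho m p c w x ≤ d ∧
      (∃ σ : ℝ, (σ = 1 ∨ σ = -1) ∧ (∀ i ≤ m, 0 < σ * (x - p i)) ∧
        ∀ᶠ y in 𝓝 x, ∀ i ≤ m, 0 < σ * (y - p i)) := by
    rcases hx with hx | hx
    · refine ⟨p 0 - x, by linarith, ?_, ?_, E.H2l x hx, ?_, -1, Or.inr rfl, ?_, ?_⟩
      · intro i hi
        have := S.le (Nat.zero_le i) hi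
        rw [abs_of_neg (by linarith)]
        linarith
      · intro j hj
        have h1 := S.h1 j hj
        have h2 := S.hw j hj
        have h3 := S.le (Nat.zero_le j) hj.le
        rw [abs_of_neg (by linarith)]
        exact ⟨by linarith, by linarith, Or.inl (by linarith)⟩
      · have := rho_le_p (p := p) (c := c) (w := w) (Nat.zero_le m) x
        rw [abs_of_neg (by linarith)] at this
        linarith
      · intro i hi
        have := S.le (Nat.zero_le i) hi
        linarith
      · filter_upwards [Iio_mem_nhds hx] with y hy i hi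
        have := S.le (Nat.zero_le i) hi
        have hy' : y < p 0 := hy
        linarith
    · refine ⟨x - p m, by linarith, ?_, ?_, E.H2r x hx, ?_, 1, Or.inl rfl, ?_, ?_⟩
      · intro i hi
        have := S.le hi le_rfl
        rw [abs_of_pos (by linarith)]
        linarith
      · intro j hj
        have h1 := S.h2 j hj
        have h2 := S.hw j hj
        have h3 := S.le (i := j + 1) hj le_rfl
        rw [abs_of_pos (by linarith)]
        exact ⟨by linarith, by linarith, Or.inr (by linarith)⟩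
      · have := rho_le_p (p := p) (c := c) (w := w) (le_refl m) x
        rw [abs_of_pos (by linarith)] at this
        linarith
      · intro i hi
        have := S.le hi le_rfl
        linarith
      · filter_upwards [Ioi_mem_nhds hx] with y hy i hi
        have := S.le hi le_rfl
        have hy' : p m < y := hy
        linarith
  have hrho' : rho m p c w x = d := by
    apply le_antisymm hrho
    apply le_rho hdp
    intro j hj
    exact le_max_of_le_left (hdc j hj).1
  obtain ⟨σ, hσ, hσ1, hσ2⟩ := hopen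
  have hσsq : σ * σ = 1 := by rcases hσ with h | h <;> rw [h] <;> norm_num
  have hσabs : |σ| = 1 := by rcases hσ with h | h <;> rw [h] <;> norm_num
  have hpos : ∀ y : ℝ, (∀ i ≤ m, 0 < σ * (y - p i)) → 0 < σ * NN m p y ∧ ∀ i ≤ m, y - p i ≠ 0 := by
    intro y hy
    constructor
    · unfold NN
      rw [← mul_assoc, mul_comm σ, mul_assoc, Finset.mul_sum]
      apply mul_pos (by positivity)
      apply Finset.sum_pos
      · intro i hi
        have h1 := hy i (by have := Finset.mem_range.1 hi; omega)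
        have h2 : y - p i ≠ 0 := fun h => by rw [h, mul_zero] at h1; exact lt_irrefl _ h1
        have h3 : σ * (1 / (y - p i)) = (σ * (y - p i)) * (1 / (y - p i)) ^ 2 := by
          field_simp
        rw [h3]
        positivity
      · exact ⟨0, by simp⟩
    · intro i hi h
      have h1 := hy i hi
      rw [h, mul_zero] at h1
      exact lt_irrefl _ h1
  have hNne : ∀ y : ℝ, (∀ i ≤ m, 0 < σ * (y - p i)) → NN m p y ≠ 0 := by
    intro y hy h
    have := (hpos y hy).1
    rw [h, mul_zero] at this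
    exact lt_irrefl _ this
  have hNx := hNne x hσ1
  have hloc := local_bound (m := m) (p := p) (c := c) (w := w) (x := x) (d := d) (B := B)
    (K := NN m p)
    (K' := ((1 / (m + 1 : ℝ)) * ∑ i ∈ Finset.range (m + 1),
      (-(1 / (x - p i) * (1 / (x - p i))))))
    (T := fun _ : ℝ => 1) (τ := 0)
    (s := Finset.range m) hd0
    (by
      filter_upwards [hσ2] with y hy
      exact gg_out S (hpos y hy).2 (hNne y hy))
    (NN_hasDerivAt (hpos x hσ1).2) hNx
    (by
      have h1 : ∀ i ∈ Finset.range (m + 1), 0 ≤ σ * (1 / (x - p i)) := by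
        intro i hi
        have h1 := hσ1 i (by have := Finset.mem_range.1 hi; omega)
        have h2 : x - p i ≠ 0 := fun h => by rw [h, mul_zero] at h1; exact lt_irrefl _ h1
        have h3 : σ * (1 / (x - p i)) = (σ * (x - p i)) * (1 / (x - p i)) ^ 2 := by
          field_simp
        rw [h3]
        positivity
      have h2 := abs_sum_same_le (Finset.range (m + 1)) (fun i => σ * (1 / (x - p i)))
        (fun i => 1 / (x - p i)) (d := d) h1 (by
          intro i hi
          have := hdp i (by have := Finset.mem_range.1 hi; omega)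
          rw [abs_div, abs_one]
          exact one_div_le_one_div_of_le hd0 this)
      have h3 : ∑ i ∈ Finset.range (m + 1), σ * (1 / (x - p i)) * (1 / (x - p i)) =
          σ * ∑ i ∈ Finset.range (m + 1), 1 / (x - p i) * (1 / (x - p i)) := by
        rw [Finset.mul_sum]
        exact Finset.sum_congr rfl fun i _ => by ring
      rw [h3, ← Finset.mul_sum, abs_mul, abs_mul, hσabs, one_mul, one_mul] at h2
      rw [abs_mul, Finset.sum_neg_distrib, abs_neg]
      unfold NN
      rw [abs_mul, mul_div_assoc]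
      exact mul_le_mul_of_nonneg_left h2 (abs_nonneg _))
    (by
      have := hasDerivAt_const x (1 : ℂ)
      simpa using this)
    (fun j hj => S.hw j (Finset.mem_range.1 hj))
    (fun j hj => (hdc j (Finset.mem_range.1 hj)).2.1)
    (fun j hj => (hdc j (Finset.mem_range.1 hj)).1)
    (E.H3 x _ (Finset.Subset.refl _) fun j hj => (hdc j (Finset.mem_range.1 hj)).2.2)
  obtain ⟨L, hL1, hL2, hL3⟩ := hloc
  refine ⟨L, hL1, ?_, ?_, by rw [hrho']; exact hd0⟩
  · rw [hrho']
    calc ‖L‖ ≤ 1 / d + ‖(0 : ℂ)‖ + 2 * B / d := hL2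
      _ = (1 + 2 * B) / d := by rw [norm_zero]; ring
      _ ≤ (3 + 2 * B) / d := by gcongr; norm_num
  · rw [hrho']
    have hNpos : 0 < |NN m p x| := abs_pos.2 hNx
    have hdα : 0 < d ^ α := Real.rpow_pos_of_pos hd0 _
    calc ‖gg m p c w x‖ ≤ |NN m p x|⁻¹ * ‖(1 : ℂ)‖ * Real.exp (B / 2) := hL3
      _ = |NN m p x|⁻¹ * Real.exp (B / 2) := by simp
      _ ≤ ((d ^ α + d) / A) * Real.exp (B / 2) := by
          apply mul_le_mul_of_nonneg_right _ (Real.exp_pos _).le
          rw [inv_le_iff_one_le_mul₀ hNpos, div_mul_eq_mul_div, le_div_iff₀ hA, one_mul]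
          linarith
      _ ≤ (4 * Real.exp (B / 2) / A) * (d ^ α + d) := by
          have h1 : 0 ≤ (d ^ α + d) / A * Real.exp (B / 2) := by positivity
          have h2 : (4 * Real.exp (B / 2) / A) * (d ^ α + d) =
            4 * ((d ^ α + d) / A * Real.exp (B / 2)) := by ring
          rw [h2]
          linarith

/-- The Hölder estimate on the real line. -/
theorem holder_line (S : Sys m p c w) (E : Est α A B m p c w) (hA : 0 < A)
    (hα0 : 0 < α) (hα1 : α < 1) (x y : ℝ) :
    ‖gg m p c w x - gg m p c w y‖ ≤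
      5 * ((4 * Real.exp (B / 2) / A) * (3 + 2 * B)) * (|x - y| ^ α + |x - y|) := by
  have hB := E.B_nonneg
  have key : ∀ x : ℝ, 0 < rho m p c w x → ∃ L : ℂ,
      HasDerivAt (fun y : ℝ => gg m p c w y) (gg m p c w x * L) x ∧
      ‖L‖ ≤ (3 + 2 * B) / rho m p c w x ∧
      ‖gg m p c w x‖ ≤ (4 * Real.exp (B / 2) / A) * (rho m p c w x ^ α + rho m p c w x) := by
    intro x hx
    have hne : ∀ i ≤ m, x ≠ p i := by
      intro i hi h
      have := rho_le_p (p := p) (c := c) (w := w) hi x
      rw [h, sub_self, abs_zero] at this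
      rw [h] at hx
      linarith
    rcases S.cases hne with h | h | ⟨J, hJ, h1, h2⟩
    · obtain ⟨L, a1, a2, a3, _⟩ := out_est S E hA (Or.inl h)
      exact ⟨L, a1, a2, a3⟩
    · obtain ⟨L, a1, a2, a3, _⟩ := out_est S E hA (Or.inr h)
      exact ⟨L, a1, a2, a3⟩
    · obtain ⟨L, a1, a2, a3, _⟩ := gap_est S E hA hJ h1 h2
      refine ⟨L, a1, a2, a3.trans ?_⟩
      apply mul_le_mul_of_nonneg_left _ (by positivity)
      linarith
  choose L hL using key
  classical
  apply holder_of_rho hα0 hα1 (C := (4 * Real.exp (B / 2) / A) * (3 + 2 * B)) (by positivity)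
    (G := fun x : ℝ => gg m p c w x)
    (G' := fun x => if h : 0 < rho m p c w x then gg m p c w x * L x h else 0)
    (ρ := rho m p c w) rho_nonneg rho_lip
  · intro x hx
    obtain ⟨i, hi, h⟩ := rho_zero S hx
    show gg m p c w x = 0
    unfold gg
    rw [Finset.prod_eq_zero (i := i) (Finset.mem_range.2 (Nat.lt_succ_of_le hi)), zero_mul]
    rw [h, sub_self]
  · intro x hx
    refine (hL x hx).2.2.trans ?_
    have h1 : 0 ≤ (4 * Real.exp (B / 2) / A) * (rho m p c w x ^ α + rho m p c w x) := by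
      have := Real.rpow_nonneg hx.le α
      positivity
    nlinarith
  · intro x hx
    rw [dif_pos hx]
    exact (hL x hx).1
  · intro x hx
    rw [dif_pos hx, norm_mul]
    calc ‖gg m p c w x‖ * ‖L x hx‖ ≤ ((4 * Real.exp (B / 2) / A) *
        (rho m p c w x ^ α + rho m p c w x)) * ((3 + 2 * B) / rho m p c w x) := by
          apply mul_le_mul (hL x hx).2.2 (hL x hx).2.1 (norm_nonneg _)
          have := Real.rpow_nonneg hx.le α
          positivity
      _ = (4 * Real.exp (B / 2) / A) * (3 + 2 * B) * (rho m p c w x ^ (α - 1) + 1) := by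
          rw [Real.rpow_sub_one hx.ne']
          field_simp

end

end Pool.Agent.W2helper20.PK
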