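import Pool.Agent.W2helper20.PK.Cantor3
import Pool.Agent.W2helper20.PK.Line4

set_option autoImplicit false

open Set Filter Topology

namespace Pool.Agent.W2helper20.PK

lemma summable_Z : Summable (fun k : ℤ => 1 / (1 + (k : ℝ) ^ 2)) := by
  have h : Summable (fun n : ℕ => 1 / (1 + (n : ℝ) ^ 2)) := by
    have h1 : Summable (fun n : ℕ => 2 * (1 / ((n + 1 : ℕ) : ℝ) ^ 2)) := by
      apply Summable.mul_left
      exact (summable_nat_add_iff 1).2 (Real.summable_one_div_nat_pow.2 (by norm_num))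
    apply Summable.of_nonneg_of_le (fun n => by positivity) _ h1
    intro n
    have : (0 : ℝ) < ((n + 1 : ℕ) : ℝ) ^ 2 := by positivity
    rw [← mul_div_assoc, mul_one, div_le_div_iff₀ (by positivity) this]
    push_cast
    nlinarith [sq_nonneg ((n : ℝ) - 1)]
  apply Summable.of_nat_of_neg
  · simpa using h
  · simpa using h

noncomputable def ZZ : ℝ := ∑' k : ℤ, 1 / (1 + (k : ℝ) ^ 2)

lemma ZZ_nonneg : 0 ≤ ZZ := tsum_nonneg fun _ => by positivity

lemma sep_sum {S : Finset ℕ} {y : ℕ → ℝ} {X δ ε : ℝ} (hδ : 0 < δ) (hε : 0 < ε) (hε1 : ε ≤ 1)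
    (hsep : ∀ i ∈ S, ∀ j ∈ S, i < j → δ ≤ y j - y i) (hX : ∀ i ∈ S, ε * δ ≤ |X - y i|) :
    ∑ i ∈ S, 1 / (X - y i) ^ 2 ≤ 5 / ε ^ 2 * ZZ / δ ^ 2 := by
  classical
  set φ : ℕ → ℤ := fun i => ⌊(y i - X) / δ⌋ with hφ
  have hinj : Set.InjOn φ S := by
    intro i hi j hj hij
    by_contra hne
    rcases lt_or_gt_of_ne hne with h | h
    · have h1 := hsep i hi j hj h
      have h2 : (y i - X) / δ + 1 ≤ (y j - X) / δ := by
        rw [div_add_one hδ.ne']
        gcongr
        linarith
      have h3 : φ i + 1 ≤ φ j := by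
        have := Int.floor_le_floor h2
        rwa [Int.floor_add_one] at this
      omega
    · have h1 := hsep j hj i hi h
      have h2 : (y j - X) / δ + 1 ≤ (y i - X) / δ := by
        rw [div_add_one hδ.ne']
        gcongr
        linarith
      have h3 : φ j + 1 ≤ φ i := by
        have := Int.floor_le_floor h2
        rwa [Int.floor_add_one] at this
      omega
  have hterm : ∀ i ∈ S, 1 / (X - y i) ^ 2 ≤ 5 / ε ^ 2 / δ ^ 2 * (1 / (1 + (φ i : ℝ) ^ 2)) := by
    intro i hi
    set t := (y i - X) / δ with ht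
    have h1 : (X - y i) ^ 2 = t ^ 2 * δ ^ 2 := by rw [ht]; field_simp; ring
    have h2 : ε ≤ |t| := by
      rw [ht, abs_div, abs_of_pos hδ, le_div_iff₀ hδ, abs_sub_comm]
      exact hX i hi
    have h3 : (φ i : ℝ) ≤ t := Int.floor_le _
    have h4 : t < φ i + 1 := Int.lt_floor_add_one _
    have h5 : |(φ i : ℝ)| ≤ |t| + 1 := by
      rw [abs_le]
      constructor
      · have := neg_abs_le t
        linarith
      · have := le_abs_self t
        linarith
    have h6 : (φ i : ℝ) ^ 2 ≤ (|t| + 1) ^ 2 := by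
      rw [← sq_abs]
      gcongr
    have h7 : |t| ^ 2 = t ^ 2 := sq_abs t
    have h8 : ε ^ 2 ≤ t ^ 2 := by rw [← h7]; gcongr
    have h9 : 1 + (φ i : ℝ) ^ 2 ≤ 3 + 2 * t ^ 2 := by nlinarith [sq_nonneg (|t| - 1)]
    have h10 : ε ^ 2 * (3 + 2 * t ^ 2) ≤ 5 * t ^ 2 := by
      have : ε ^ 2 ≤ 1 := by nlinarith
      nlinarith [sq_nonneg t]
    have ht2 : 0 < t ^ 2 := lt_of_lt_of_le (by positivity) h8
    rw [h1]
    have h11 : 5 / ε ^ 2 / δ ^ 2 * (1 / (1 + (φ i : ℝ) ^ 2)) =
        5 / (ε ^ 2 * (1 + (φ i : ℝ) ^ 2) * δ ^ 2) := by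
      have : (0 : ℝ) < 1 + (φ i : ℝ) ^ 2 := by positivity
      field_simp
    rw [h11, div_le_div_iff₀ (by positivity) (by positivity), one_mul, ← mul_assoc]
    apply mul_le_mul_of_nonneg_right _ (by positivity)
    refine le_trans ?_ h10
    apply mul_le_mul_of_nonneg_left h9 (by positivity)
  calc ∑ i ∈ S, 1 / (X - y i) ^ 2 ≤ ∑ i ∈ S, 5 / ε ^ 2 / δ ^ 2 * (1 / (1 + (φ i : ℝ) ^ 2)) :=
        Finset.sum_le_sum hterm
    _ = 5 / ε ^ 2 / δ ^ 2 * ∑ i ∈ S, (1 / (1 + (φ i : ℝ) ^ 2)) := by rw [Finset.mul_sum]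
    _ = 5 / ε ^ 2 / δ ^ 2 * ∑ k ∈ S.image φ, (1 / (1 + (k : ℝ) ^ 2)) := by
        rw [Finset.sum_image hinj]
    _ ≤ 5 / ε ^ 2 / δ ^ 2 * ZZ := by
        apply mul_le_mul_of_nonneg_left _ (by positivity)
        exact summable_Z.sum_le_tsum _ (fun _ _ => by positivity)
    _ = _ := by ring

/-- The zeros. -/
noncomputable def cc (s : ℕ → ℝ) (n j : ℕ) : ℝ :=
  open Classical in
  if h : ∃ c, pp s n j < c ∧ c < pp s n (j + 1) ∧
      ∑ i ∈ Finset.range (2 ^ n), 1 / (c - pp s n i) = 0 then Classical.choose h else 0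

/-- The half-widths. -/
noncomputable def ww (α l : ℝ) (s : ℕ → ℝ) (n j : ℕ) : ℝ :=
  eps α l / 2 * s (gen n j) * ((gen n j : ℝ) + 1) ^ (-(1 / (1 + α)))

/-- The constant `B`. -/
noncomputable def BB (α : ℝ) : ℝ := 5 / 4 * ZZ * ∑' g : ℕ, 1 / ((g : ℝ) + 1) ^ (2 / (1 + α))

/-- The constant `A`. -/
noncomputable def AA (α l : ℝ) : ℝ := min (eps α l / 16) ((eps α l / 2) ^ (1 + α) / 8)

section
variable {α l : ℝ} {s : ℕ → ℝ}

lemma cc_spec (L : Len l s) {n j : ℕ} (hj : j + 1 < 2 ^ n) :
    pp s n j < cc s n j ∧ cc s n j < pp s n (j + 1) ∧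
      ∑ i ∈ Finset.range (2 ^ n), 1 / (cc s n j - pp s n i) = 0 := by
  classical
  have h := exists_zero L hj
  unfold cc
  rw [dif_pos h]
  exact Classical.choose_spec h

lemma AA_pos (P : Par α l s) : 0 < AA α l := by
  have := eps_pos P
  have h := P.α0
  unfold AA
  apply lt_min
  · positivity
  · exact div_pos (Real.rpow_pos_of_pos (by positivity) _) (by norm_num)

lemma ww_pos (P : Par α l s) (n j : ℕ) : 0 < ww α l s n j := by
  have := eps_pos P
  have := P.pos (gen n j)
  have := Real.rpow_pos_of_pos (show (0 : ℝ) < (gen n j : ℝ) + 1 by positivity) (-(1 / (1 + α)))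
  unfold ww
  positivity

lemma ww_le (P : Par α l s) (n j : ℕ) : ww α l s n j ≤ eps α l / 2 * s (gen n j) := by
  have h1 := eps_pos P
  have h2 := P.pos (gen n j)
  have h3 := P.α0
  have h4 : ((gen n j : ℝ) + 1) ^ (-(1 / (1 + α))) ≤ 1 := by
    apply Real.rpow_le_one_of_one_le_of_nonpos
    · have : (0 : ℝ) ≤ gen n j := Nat.cast_nonneg _
      linarith
    · have : 0 < 1 / (1 + α) := by positivity
      linarith
  unfold ww
  have h5 : 0 ≤ eps α l / 2 * s (gen n j) := by positivity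
  nlinarith

lemma sys_cantor (P : Par α l s) (n : ℕ) :
    Sys (2 ^ n - 1) (pp s n) (cc s n) (ww α l s n) := by
  have hm : 2 ^ n - 1 + 1 = 2 ^ n := Nat.sub_add_cancel (Nat.one_le_two_pow)
  have hεp := eps_pos P
  refine ⟨fun j _ => ww_pos P n j, ?_, ?_, ?_⟩
  · intro j hj
    have hj' : j + 1 < 2 ^ n := by omega
    obtain ⟨h1, h2, h3⟩ := cc_spec P.toLen hj'
    have h4 := zero_left P hj' h1 h2 h3
    have h5 := ww_le P n j
    have h6 := P.pos (gen n j)
    nlinarith [mul_pos hεp h6]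
  · intro j hj
    have hj' : j + 1 < 2 ^ n := by omega
    obtain ⟨h1, h2, h3⟩ := cc_spec P.toLen hj'
    have h4 := zero_right P hj' h1 h2 h3
    have h5 := ww_le P n j
    have h6 := P.pos (gen n j)
    nlinarith [mul_pos hεp h6]
  · intro j hj
    have hj' : j + 1 < 2 ^ n := by omega
    obtain ⟨h1, h2, h3⟩ := cc_spec P.toLen hj'
    rw [hm]
    exact h3

lemma FJ_lower (P : Par α l s) {n J : ℕ} (hJ : J + 1 < 2 ^ n) {x : ℝ}
    (hx1 : pp s n J < x) (hx2 : x < pp s n (J + 1)) :
    ((gen n J : ℝ) + 1) / 8 * (min (x - pp s n J) (pp s n (J + 1) - x)) ^ (-α) / s (gen n J) ≤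
      FJ (2 ^ n - 1) (pp s n) (cc s n) J x := by
  have S := sys_cantor P n
  have L := P.toLen
  have hm : 2 ^ n - 1 + 1 = 2 ^ n := Nat.sub_add_cancel (Nat.one_le_two_pow)
  have hm' : (((2 ^ n - 1 : ℕ) : ℝ) + 1) = 2 ^ n := by
    rw [← Nat.cast_add_one, hm]; push_cast; rfl
  obtain ⟨hc1, hc2, hc3⟩ := cc_spec L hJ
  have hlen := gap_len L n hJ
  obtain ⟨g, t, a, h1, h2, h3, h4, h5, h6, h7⟩ := gap_spec L n hJ
  set d := min (x - pp s n J) (pp s n (J + 1) - x) with hd
  have hd0 : 0 < d := lt_min (by linarith) (by linarith)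
  rw [h1] at hlen ⊢
  have hs := L.pos (g + 1)
  have hds : d ≤ s (g + 1) := by
    have := min_le_left (x - pp s n J) (pp s n (J + 1) - x)
    linarith [hlen.2]
  have hpos : ∀ i < 2 ^ n, 0 < (x - pp s n i) * (cc s n J - pp s n i) := fun i hi =>
    (S.gap_pos (J := J) (by omega) hx1 hx2 (i := i) (by omega)).1
  have hfinal : ((g + 1 : ℕ) + 1 : ℝ) / 8 * d ^ (-α) / s (g + 1) =
      1 / 2 * ((g + 1 : ℕ) + 1) * d ^ (1 - α) * (1 / (2 * d * (2 * s (g + 1)))) := by
    have : d ^ (1 - α) = d * d ^ (-α) := by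
      rw [sub_eq_add_neg, Real.rpow_add hd0, Real.rpow_one]
    rw [this]
    field_simp
    ring
  rw [hfinal]
  unfold FJ
  rw [hm, hm']
  rcases min_choice (x - pp s n J) (pp s n (J + 1) - x) with hmin | hmin
  · rw [← hd] at hmin
    apply sum_ge_left P h2 (j := J) (by omega) ⟨_, h3⟩
      (f := fun i => 1 / ((x - pp s n i) * (cc s n J - pp s n i)))
      (fun i hi => (one_div_pos.2 (hpos i hi)).le) hd0 hds (by positivity)
    intro i hi1 hi2
    have hi3 := pp_mono L n hi1 (by omega)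
    apply one_div_le_one_div_of_le (hpos i (by omega))
    apply mul_le_mul (by linarith) _ (by linarith) (by positivity)
    linarith [hlen.2]
  · rw [← hd] at hmin
    apply sum_ge_right P h2 (j := J + 1) hJ ⟨_, h3⟩
      (f := fun i => 1 / ((x - pp s n i) * (cc s n J - pp s n i)))
      (fun i hi => (one_div_pos.2 (hpos i hi)).le) hd0 hds (by positivity)
    intro i hi0 hi1 hi2
    have hi3 := pp_mono L n hi1 hi0
    apply one_div_le_one_div_of_le (hpos i hi0)
    rw [← neg_mul_neg]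
    apply mul_le_mul (by linarith) _ (by linarith) (by positivity)
    linarith [hlen.2]

lemma est_H1 (P : Par α l s) {n J : ℕ} (hJ : J + 1 < 2 ^ n) {x : ℝ}
    (hx1 : pp s n J < x) (hx2 : x < pp s n (J + 1)) :
    AA α l ≤ FJ (2 ^ n - 1) (pp s n) (cc s n) J x * max |x - cc s n J| (ww α l s n J) *
      (min (min (x - pp s n J) (pp s n (J + 1) - x)) (max |x - cc s n J| (ww α l s n J))) ^ α := by
  have L := P.toLen
  have hα0 := P.α0
  have hα1 := P.α1
  have hε := eps_pos P
  obtain ⟨hc1, hc2, hc3⟩ := cc_spec L hJ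
  have hF := FJ_lower P hJ hx1 hx2
  have hzl := zero_left P hJ hc1 hc2 hc3
  have hzr := zero_right P hJ hc1 hc2 hc3
  have hlen := gap_len L n hJ
  have hw := ww_pos P n J
  have hs := L.pos (gen n J)
  set c := cc s n J with hc
  set w := ww α l s n J with hwdef
  set σ := s (gen n J) with hσ
  set d := min (x - pp s n J) (pp s n (J + 1) - x) with hd
  set M := max |x - c| w with hM
  set F := FJ (2 ^ n - 1) (pp s n) (cc s n) J x with hFdef
  set G := (gen n J : ℝ) + 1 with hG
  have hG1 : 1 ≤ G := by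
    have : (0 : ℝ) ≤ gen n J := Nat.cast_nonneg _
    linarith
  have hd0 : 0 < d := lt_min (by linarith) (by linarith)
  have hM0 : 0 < M := lt_max_of_lt_right hw
  have hdσ : d ≤ σ := by
    have := min_le_left (x - pp s n J) (pp s n (J + 1) - x)
    linarith [hlen.2]
  have hdα : 0 < d ^ (-α) := Real.rpow_pos_of_pos hd0 _
  have hF0 : 0 < F := lt_of_lt_of_le (by positivity) hF
  rcases le_or_gt d M with h | h
  · rw [min_eq_left h]
    have hMε : eps α l * σ / 2 ≤ M := by
      have h1 : eps α l * σ - d ≤ |x - c| := by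
        rcases min_choice (x - pp s n J) (pp s n (J + 1) - x) with hmin | hmin
        · rw [← hd] at hmin
          have := neg_abs_le (x - c)
          linarith
        · rw [← hd] at hmin
          have := le_abs_self (x - c)
          linarith
      have h2 : |x - c| ≤ M := le_max_left _ _
      linarith
    calc AA α l ≤ eps α l / 16 := min_le_left _ _
      _ ≤ G * (eps α l / 16) := by nlinarith
      _ = G / 8 * d ^ (-α) / σ * (eps α l * σ / 2) * d ^ α := by
          have : d ^ (-α) * d ^ α = 1 := by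
            rw [← Real.rpow_add hd0]; simp
          calc G * (eps α l / 16) = G * (eps α l / 16) * (d ^ (-α) * d ^ α) := by rw [this, mul_one]
            _ = _ := by field_simp; ring
      _ ≤ F * M * d ^ α := by
          have : 0 < d ^ α := Real.rpow_pos_of_pos hd0 _
          gcongr
  · rw [min_eq_right h.le]
    have hMw : w ≤ M := le_max_right _ _
    have hwe : w ^ (1 + α) = (eps α l / 2) ^ (1 + α) * σ ^ (1 + α) * G⁻¹ := by
      rw [hwdef]
      unfold ww
      rw [← hσ, ← hG, Real.mul_rpow (by positivity) (Real.rpow_nonneg (by linarith) _),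
        Real.mul_rpow (by positivity) hs.le, ← Real.rpow_mul (by linarith)]
      have : -(1 / (1 + α)) * (1 + α) = -1 := by field_simp
      rw [this, Real.rpow_neg_one]
    have hM1 : w ^ (1 + α) ≤ M * M ^ α := by
      rw [← Real.rpow_one_add' hM0.le (by linarith)]
      exact Real.rpow_le_rpow hw.le hMw (by linarith)
    have hdσα : σ ^ (-α) ≤ d ^ (-α) := Real.rpow_le_rpow_of_nonpos hd0 hdσ (by linarith)
    have hσα : 0 < σ ^ (-α) := Real.rpow_pos_of_pos hs _
    have hMα : 0 < M ^ α := Real.rpow_pos_of_pos hM0 _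
    calc AA α l ≤ (eps α l / 2) ^ (1 + α) / 8 := min_le_right _ _
      _ = G / 8 * σ ^ (-α) / σ * w ^ (1 + α) := by
          rw [hwe]
          have e1 : σ ^ (1 + α) = σ * σ ^ α := by rw [Real.rpow_add hs, Real.rpow_one]
          have e2 : σ ^ (-α) * σ ^ α = 1 := by rw [← Real.rpow_add hs]; simp
          rw [e1]
          calc (eps α l / 2) ^ (1 + α) / 8 = (eps α l / 2) ^ (1 + α) / 8 * (σ ^ (-α) * σ ^ α) := by
                rw [e2, mul_one]
            _ = _ := by field_simp
      _ ≤ F * (M * M ^ α) := by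
          have hwpos : 0 < w ^ (1 + α) := Real.rpow_pos_of_pos hw _
          have hF' : G / 8 * σ ^ (-α) / σ ≤ F := le_trans (by gcongr) hF
          gcongr
      _ = F * M * M ^ α := by ring

lemma est_H3 (P : Par α l s) (n : ℕ) (x : ℝ) (S : Finset ℕ) (hS : S ⊆ Finset.range (2 ^ n - 1))
    (hx : ∀ j ∈ S, x ≤ pp s n j ∨ pp s n (j + 1) ≤ x) :
    ∑ j ∈ S, (ww α l s n j) ^ 2 / (x - cc s n j) ^ 2 ≤ BB α := by
  classical
  have L := P.toLen
  have hα0 := P.α0
  have hα1 := P.α1
  have hε := eps_pos P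
  have hε2 := eps_le_half P
  have hmaps : ∀ j ∈ S, gen n j ∈ Finset.range (n + 1) := by
    intro j hj
    have hj' : j + 1 < 2 ^ n := by have := Finset.mem_range.1 (hS hj); omega
    obtain ⟨t, a, h1, h2, h3⟩ := gen_spec n hj'
    rw [Finset.mem_range]; omega
  rw [← Finset.sum_fiberwise_of_maps_to hmaps]
  have hinner : ∀ g ∈ Finset.range (n + 1),
      ∑ j ∈ S with gen n j = g, (ww α l s n j) ^ 2 / (x - cc s n j) ^ 2 ≤
        5 / 4 * ZZ * (1 / ((g : ℝ) + 1) ^ (2 / (1 + α))) := by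
    intro g _
    have hs := L.pos g
    have h1 : ∑ j ∈ S with gen n j = g, (ww α l s n j) ^ 2 / (x - cc s n j) ^ 2 =
        (eps α l / 2) ^ 2 * s g ^ 2 * (1 / ((g : ℝ) + 1) ^ (2 / (1 + α))) *
          ∑ j ∈ S with gen n j = g, 1 / (x - cc s n j) ^ 2 := by
      rw [Finset.mul_sum]
      apply Finset.sum_congr rfl
      intro j hj
      rw [Finset.mem_filter] at hj
      unfold ww
      rw [hj.2, mul_pow, mul_pow]
      have h2 : (((g : ℝ) + 1) ^ (-(1 / (1 + α)))) ^ 2 = 1 / ((g : ℝ) + 1) ^ (2 / (1 + α)) := by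
        rw [← Real.rpow_natCast, ← Real.rpow_mul (by positivity),
          one_div (((g : ℝ) + 1) ^ (2 / (1 + α))), ← Real.rpow_neg (by positivity)]
        congr 1
        push_cast
        ring
      rw [h2]
      ring
    have h2 : ∑ j ∈ S with gen n j = g, 1 / (x - cc s n j) ^ 2 ≤
        5 / (eps α l) ^ 2 * ZZ / s g ^ 2 := by
      apply sep_sum hs hε (by linarith)
      · intro i hi j hj hij
        rw [Finset.mem_filter] at hi hj
        have hi' : i + 1 < 2 ^ n := by have := Finset.mem_range.1 (hS hi.1); omega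
        have hj' : j + 1 < 2 ^ n := by have := Finset.mem_range.1 (hS hj.1); omega
        obtain ⟨gi, ti, ai, a1, a2, a3, a4, a5, a6, a7⟩ := gap_spec L n hi'
        obtain ⟨gj, tj, aj, b1, b2, b3, b4, b5, b6, b7⟩ := gap_spec L n hj'
        have hg1 : gi = gj := by omega
        subst hg1
        have ht1 : ti = tj := by omega
        subst ht1
        have haa : ai < aj := by
          by_contra hcon
          push Not at hcon
          have : 2 ^ ti * (2 * aj + 1) ≤ 2 ^ ti * (2 * ai + 1) := Nat.mul_le_mul_left _ (by omega)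
          omega
        have hsep := pp_sep L gi haa b4
        have hh := L.half gi
        have hci := (cc_spec L hi').2.1
        have hcj := (cc_spec L hj').1
        have hgg : g = gi + 1 := by omega
        rw [hgg]
        linarith
      · intro j hj
        rw [Finset.mem_filter] at hj
        have hj' : j + 1 < 2 ^ n := by have := Finset.mem_range.1 (hS hj.1); omega
        obtain ⟨hc1, hc2, hc3⟩ := cc_spec L hj'
        have hzl := zero_left P hj' hc1 hc2 hc3
        have hzr := zero_right P hj' hc1 hc2 hc3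
        rw [hj.2] at hzl hzr
        rcases hx j hj.1 with h | h
        · have := neg_abs_le (x - cc s n j)
          linarith
        · have := le_abs_self (x - cc s n j)
          linarith
    rw [h1]
    have h3 : (0 : ℝ) < 1 / ((g : ℝ) + 1) ^ (2 / (1 + α)) := by positivity
    calc _ ≤ (eps α l / 2) ^ 2 * s g ^ 2 * (1 / ((g : ℝ) + 1) ^ (2 / (1 + α))) *
          (5 / (eps α l) ^ 2 * ZZ / s g ^ 2) := by gcongr
      _ = _ := by field_simp; ring
  calc _ ≤ ∑ g ∈ Finset.range (n + 1), 5 / 4 * ZZ * (1 / ((g : ℝ) + 1) ^ (2 / (1 + α))) :=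
        Finset.sum_le_sum hinner
    _ = 5 / 4 * ZZ * ∑ g ∈ Finset.range (n + 1), (1 / ((g : ℝ) + 1) ^ (2 / (1 + α))) := by
        rw [Finset.mul_sum]
    _ ≤ BB α := by
        unfold BB
        apply mul_le_mul_of_nonneg_left _ (by have := ZZ_nonneg; positivity)
        apply Summable.sum_le_tsum _ (fun _ _ => by positivity)
        have h4 : Summable (fun g : ℕ => 1 / ((g : ℝ)) ^ (2 / (1 + α))) := by
          apply Real.summable_one_div_nat_rpow.2
          rw [lt_div_iff₀ (by linarith)]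
          linarith
        have h5 := (summable_nat_add_iff 1).2 h4
        simpa using h5

lemma est_H2l (P : Par α l s) (n : ℕ) (x : ℝ) (hx : x < pp s n 0) :
    1 / 4 ≤ |NN (2 ^ n - 1) (pp s n) x| * ((pp s n 0 - x) ^ α + (pp s n 0 - x)) := by
  have L := P.toLen
  have hα0 := P.α0
  have hm : 2 ^ n - 1 + 1 = 2 ^ n := Nat.sub_add_cancel (Nat.one_le_two_pow)
  have hm' : (((2 ^ n - 1 : ℕ) : ℝ) + 1) = 2 ^ n := by
    rw [← Nat.cast_add_one, hm]; push_cast; rfl
  have hN : |NN (2 ^ n - 1) (pp s n) x| = 1 / 2 ^ n * ∑ i ∈ Finset.range (2 ^ n), 1 / (pp s n i - x) := by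
    have h1 : NN (2 ^ n - 1) (pp s n) x = -(1 / 2 ^ n * ∑ i ∈ Finset.range (2 ^ n), 1 / (pp s n i - x)) := by
      unfold NN
      rw [hm, hm', ← mul_neg, ← Finset.sum_neg_distrib]
      congr 1
      apply Finset.sum_congr rfl
      intro i _
      rw [← neg_sub, one_div, one_div, inv_neg]
    rw [h1, abs_neg]
    apply abs_of_nonneg
    apply mul_nonneg (by positivity)
    apply Finset.sum_nonneg
    intro i hi
    have := pp_mono L n (Nat.zero_le i) (Finset.mem_range.1 hi)
    exact one_div_nonneg.2 (by linarith)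
  rw [hN]
  rw [pp_zero_idx] at hx ⊢
  rw [zero_sub]
  set d := -x with hd
  have hd0 : 0 < d := by linarith
  have hpos : ∀ i, 0 < pp s n i - x := fun i => by
    have := pp_nonneg L n i
    linarith
  have hdα : 0 < d ^ α := Real.rpow_pos_of_pos hd0 _
  rcases le_or_gt 1 d with h1 | h1
  · have h2 : 1 / (2 * d) ≤ 1 / 2 ^ n * ∑ i ∈ Finset.range (2 ^ n), 1 / (pp s n i - x) := by
      calc 1 / (2 * d) = 1 / 2 ^ n * ∑ i ∈ Finset.range (2 ^ n), 1 / (2 * d) := by
            rw [Finset.sum_const, Finset.card_range, nsmul_eq_mul]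
            push_cast
            field_simp
        _ ≤ _ := by
            apply mul_le_mul_of_nonneg_left _ (by positivity)
            apply Finset.sum_le_sum
            intro i _
            apply one_div_le_one_div_of_le (hpos i)
            have := pp_le_one L n i
            linarith
    calc (1 : ℝ) / 4 ≤ 1 / (2 * d) * d := by
          have : 1 / (2 * d) * d = 1 / 2 := by field_simp
          rw [this]; norm_num
      _ ≤ 1 / (2 * d) * (d ^ α + d) := by gcongr; linarith
      _ ≤ _ := by gcongr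
  · have h3 := sum_ge_right P (n := n) (g := 0) (t := n) (by omega) (j := 0) (by positivity)
      (dvd_zero _) (f := fun i => 1 / (pp s n i - x))
      (fun i _ => (one_div_pos.2 (hpos i)).le) (r := d) (y := 1 / (2 * d)) hd0
      (by rw [L.s0]; exact h1.le) (by positivity)
      (by
        intro i _ _ h
        rw [pp_zero_idx] at h
        exact one_div_le_one_div_of_le (hpos i) (by linarith))
    have h4 : 1 / 2 * (((0 : ℕ) : ℝ) + 1) * d ^ (1 - α) * (1 / (2 * d)) = d ^ (-α) / 4 := by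
      have : d ^ (1 - α) = d * d ^ (-α) := by
        rw [sub_eq_add_neg, Real.rpow_add hd0, Real.rpow_one]
      rw [this]
      field_simp
      norm_num
    rw [h4] at h3
    have h5 : d ^ (-α) * d ^ α = 1 := by rw [← Real.rpow_add hd0]; simp
    have h6 : 0 < d ^ (-α) := Real.rpow_pos_of_pos hd0 _
    calc (1 : ℝ) / 4 = d ^ (-α) / 4 * d ^ α := by rw [div_mul_eq_mul_div, h5]
      _ ≤ d ^ (-α) / 4 * (d ^ α + d) := by gcongr; linarith
      _ ≤ _ := by gcongr

lemma est_H2r (P : Par α l s) (n : ℕ) (x : ℝ) (hx : pp s n (2 ^ n - 1) < x) :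
    1 / 4 ≤ |NN (2 ^ n - 1) (pp s n) x| *
      ((x - pp s n (2 ^ n - 1)) ^ α + (x - pp s n (2 ^ n - 1))) := by
  have hm : 2 ^ n - 1 + 1 = 2 ^ n := Nat.sub_add_cancel (Nat.one_le_two_pow)
  have h1 : pp s n (2 ^ n - 1) = tl s 0 n := by
    have := pp_refl (s := s) n (i := 0) (by positivity)
    rwa [pp_zero_idx, Nat.sub_zero, sub_zero] at this
  have h2 := est_H2l P n (tl s 0 n - x) (by rw [pp_zero_idx]; linarith)
  have h3 : NN (2 ^ n - 1) (pp s n) (tl s 0 n - x) = -NN (2 ^ n - 1) (pp s n) x := by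
    unfold NN
    rw [hm, ← mul_neg, ← Finset.sum_neg_distrib, ← Finset.sum_range_reflect]
    congr 1
    apply Finset.sum_congr rfl
    intro i hi
    rw [pp_refl n (Finset.mem_range.1 hi), ← one_div_neg_eq_neg_one_div]
    congr 1
    ring
  rw [h3, abs_neg, pp_zero_idx] at h2
  rw [h1]
  have h4 : 0 - (tl s 0 n - x) = x - tl s 0 n := by ring
  rwa [h4] at h2

lemma est_cantor (P : Par α l s) (n : ℕ) :
    Est α (min (AA α l) (1 / 4)) (BB α) (2 ^ n - 1) (pp s n) (cc s n) (ww α l s n) := by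
  refine ⟨?_, ?_, ?_, ?_⟩
  · intro J hJ x hx1 hx2
    exact (min_le_left _ _).trans (est_H1 P (by omega) hx1 hx2)
  · intro x hx
    exact (min_le_right _ _).trans (est_H2l P n x hx)
  · intro x hx
    exact (min_le_right _ _).trans (est_H2r P n x hx)
  · intro x S hS hx
    exact est_H3 P n x S hS hx

/-- The lengths. -/
noncomputable def ss (α : ℝ) (k : ℕ) : ℝ := (1 / (2 ^ k * ((k : ℝ) + 1))) ^ (1 / (1 - α))

lemma par_ss (hα0 : 0 < α) (hα1 : α < 1) : Par α ((1 / 2) ^ (1 / (1 - α))) (ss α) := by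
  have hβ : 0 < 1 - α := by linarith
  have hb : 1 < 1 / (1 - α) := by rw [lt_div_iff₀ hβ]; linarith
  refine ⟨⟨by positivity, ?_, ?_, ?_, ?_⟩, hα0, hα1, ?_⟩
  · calc ((1 / 2 : ℝ)) ^ (1 / (1 - α)) < (1 / 2) ^ (1 : ℝ) :=
        Real.rpow_lt_rpow_of_exponent_gt (by norm_num) (by norm_num) hb
      _ = 1 / 2 := Real.rpow_one _
  · simp [ss]
  · intro k
    unfold ss
    positivity
  · intro k
    unfold ss
    rw [← Real.mul_rpow (by norm_num) (by positivity)]
    apply Real.rpow_le_rpow (by positivity) _ (by positivity)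
    rw [div_mul_div_comm, one_mul, div_le_div_iff₀ (by positivity) (by positivity)]
    push_cast
    rw [pow_succ]
    have : (0 : ℝ) < 2 ^ k := by positivity
    nlinarith
  · intro k
    unfold ss
    rw [← Real.rpow_mul (by positivity)]
    have : 1 / (1 - α) * (1 - α) = 1 := by field_simp
    rw [this, Real.rpow_one]

/-- The Hölder constant. -/
noncomputable def HC (α : ℝ) : ℝ :=
  5 * ((4 * Real.exp (BB α / 2) / min (AA α ((1 / 2) ^ (1 / (1 - α)))) (1 / 4)) * (3 + 2 * BB α))

/-- Uniform Hölder estimate for the functions of the Cantor construction. -/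
theorem holder_cantor (hα0 : 0 < α) (hα1 : α < 1) (n : ℕ) (x y : ℝ) :
    ‖gg (2 ^ n - 1) (pp (ss α) n) (cc (ss α) n) (ww α ((1 / 2) ^ (1 / (1 - α))) (ss α) n) x -
      gg (2 ^ n - 1) (pp (ss α) n) (cc (ss α) n) (ww α ((1 / 2) ^ (1 / (1 - α))) (ss α) n) y‖ ≤
      HC α * (|x - y| ^ α + |x - y|) := by
  have P := par_ss hα0 hα1
  exact holder_line (sys_cantor P n) (est_cantor P n) (lt_min (AA_pos P) (by norm_num)) hα0 hα1 x y

end

end Pool.Agent.W2helper20.PK
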