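import Mathlib

set_option autoImplicit false

open Complex Set Filter Topology Metric

namespace Pool.Agent.W2helper20.PK

/-- Normal families with uniform Hölder bounds on the circle. -/
theorem compact_limit {α C : ℝ} (hα0 : 0 < α) (F : ℕ → ℂ → ℂ)
    (hc : ∀ n, ContinuousOn (F n) (closedBall 0 1))
    (hd : ∀ n, DifferentiableOn ℂ (F n) (ball 0 1))
    (hb : ∀ n, ∀ z : ℂ, ‖z‖ ≤ 1 → ‖F n z‖ ≤ 1)
    (hH : ∀ n, ∀ z w : ℂ, ‖z‖ = 1 → ‖w‖ = 1 → ‖F n z - F n w‖ ≤ C * ‖z - w‖ ^ α) :
    ∃ φ : ℕ → ℕ, StrictMono φ ∧ ∃ f : ℂ → ℂ, ContinuousOn f (closedBall 0 1) ∧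
      DifferentiableOn ℂ f (ball 0 1) ∧
      ∀ z : ℂ, ‖z‖ ≤ 1 → Tendsto (fun n => F (φ n) z) atTop (𝓝 (f z)) := by
  classical
  -- the restrictions to the circle
  have hsub : sphere (0 : ℂ) 1 ⊆ closedBall 0 1 := sphere_subset_closedBall
  have hnorm : ∀ x : sphere (0 : ℂ) 1, ‖(x : ℂ)‖ = 1 := fun x => by simp
  let G : ℕ → BoundedContinuousFunction (sphere (0 : ℂ) 1) ℂ := fun n =>
    BoundedContinuousFunction.mkOfCompact
      ⟨fun x => F n x, ((hc n).mono hsub).comp_continuous continuous_subtype_val fun x => x.2⟩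
  have hG : ∀ n (x : sphere (0 : ℂ) 1), G n x = F n x := fun n x => rfl
  have hcpt : IsCompact (closure (Set.range G)) := by
    apply BoundedContinuousFunction.arzela_ascoli (closedBall (0 : ℂ) 1) (isCompact_closedBall _ _)
    · rintro f x ⟨n, rfl⟩
      rw [hG, mem_closedBall_zero_iff]
      exact hb n x (hnorm x).le
    · apply Metric.equicontinuous_of_continuity_modulus (fun t => C * t ^ α)
      · have h1 : Tendsto (fun t : ℝ => t ^ α) (𝓝 0) (𝓝 0) := by
          have := (Real.continuousAt_rpow_const 0 α (Or.inr hα0.le)).tendsto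
          rwa [Real.zero_rpow hα0.ne'] at this
        have := h1.const_mul C
        rwa [mul_zero] at this
      · rintro x y ⟨f, ⟨n, rfl⟩⟩
        show dist (G n x) (G n y) ≤ _
        rw [hG, hG, dist_eq_norm, Subtype.dist_eq, dist_eq_norm]
        exact hH n x y (hnorm x) (hnorm y)
  obtain ⟨g, -, φ, hφ, hlim⟩ := hcpt.tendsto_subseq (fun n => subset_closure (Set.mem_range_self n))
  refine ⟨φ, hφ, fun z => limUnder atTop (fun n => F (φ n) z), ?_⟩
  -- uniform Cauchy on the closed disc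
  have hcauchy := hlim.cauchySeq
  have hUC : UniformCauchySeqOn (fun n => F (φ n)) atTop (closedBall (0 : ℂ) 1) := by
    rw [Metric.uniformCauchySeqOn_iff]
    intro ε hε
    obtain ⟨N, hN⟩ := Metric.cauchySeq_iff.1 hcauchy (ε / 2) (by positivity)
    refine ⟨N, fun a ha b hb' z hz => ?_⟩
    have h1 := hN a ha b hb'
    have hDC : DiffContOnCl ℂ (fun z => F (φ a) z - F (φ b) z) (ball (0 : ℂ) 1) := by
      refine ⟨(hd _).sub (hd _), ?_⟩
      rw [closure_ball _ one_ne_zero]
      exact (hc _).sub (hc _)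
    have h2 := Complex.norm_le_of_forall_mem_frontier_norm_le (C := ε / 2) isBounded_ball hDC
      (by
        intro w hw
        rw [frontier_ball _ one_ne_zero] at hw
        have h3 : dist (G (φ a) ⟨w, hw⟩) (G (φ b) ⟨w, hw⟩) ≤ dist (G (φ a)) (G (φ b)) :=
          BoundedContinuousFunction.dist_coe_le_dist _
        rw [hG, hG, dist_eq_norm] at h3
        exact h3.trans h1.le) (z := z) (by rw [closure_ball _ one_ne_zero]; exact hz)
    rw [dist_eq_norm]
    linarith
  have hpt : ∀ z : ℂ, ‖z‖ ≤ 1 → Tendsto (fun n => F (φ n) z) atTop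
      (𝓝 (limUnder atTop (fun n => F (φ n) z))) := by
    intro z hz
    apply CauchySeq.tendsto_limUnder
    exact hUC.cauchySeq (mem_closedBall_zero_iff.2 hz)
  have hU := hUC.tendstoUniformlyOn_of_tendsto (f := fun z => limUnder atTop (fun n => F (φ n) z))
    (fun z hz => hpt z (mem_closedBall_zero_iff.1 hz))
  refine ⟨?_, ?_, hpt⟩
  · exact hU.continuousOn (Frequently.of_forall fun n => hc _)
  · exact (hU.mono ball_subset_closedBall).tendstoLocallyUniformlyOn.differentiableOn
      (Eventually.of_forall fun n => hd _) isOpen_ball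

end Pool.Agent.W2helper20.PK
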