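import Pool.Agent.W2helper20.PK.Line3

set_option autoImplicit false

open Complex Set Filter Topology

namespace Pool.Agent.W2helper20.PK

lemma Sw_norm_le {w : ℝ} (hw : 0 < w) {z : ℂ} (hz : 0 ≤ z.im) : ‖Sw w z‖ ≤ 2 * ‖z‖ + w := by
  have h1 := aw_norm_le hw hz
  have h2 := aw_eq hw hz
  have h3 : 0 < ‖aw w z‖ := norm_pos_iff.2 (aw_ne hw hz)
  have h4 := (exp_sq_re_bounds h1).2
  have h5 := exp_half_le
  have h6 : ‖(w : ℂ)‖ = w := by rw [Complex.norm_real, Real.norm_of_nonneg hw.le]
  have h7 : w / 2 * (1 / ‖aw w z‖ - ‖aw w z‖) ≤ ‖z‖ := by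
    have h8 : ‖1 / aw w z‖ - ‖-(aw w z)‖ ≤ ‖aw w z + 1 / aw w z‖ := by
      have := norm_sub_norm_le (1 / aw w z) (-(aw w z))
      rw [sub_neg_eq_add, add_comm (1 / aw w z)] at this
      exact this
    rw [norm_neg, norm_div, norm_one] at h8
    have h9 : ‖z‖ = w / 2 * ‖aw w z + 1 / aw w z‖ := by
      conv_lhs => rw [h2]
      rw [norm_mul, norm_div, h6]
      simp
    rw [h9]
    gcongr
  have h10 : ‖Sw w z‖ ≤ w / ‖aw w z‖ := by
    unfold Sw
    rw [norm_mul, norm_div, norm_mul, h6]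
    have : ‖(2 : ℂ)‖ = 2 := by simp
    rw [this]
    calc w / (2 * ‖aw w z‖) * ‖Complex.exp (aw w z ^ 2 / 2)‖ ≤ w / (2 * ‖aw w z‖) * 2 := by
          gcongr
          linarith
      _ = w / ‖aw w z‖ := by field_simp
  have h11 : w / ‖aw w z‖ = 2 * (w / 2 * (1 / ‖aw w z‖ - ‖aw w z‖)) + w * ‖aw w z‖ := by
    field_simp
    ring
  nlinarith

section
variable {m : ℕ} {p c w : ℕ → ℝ}

lemma gg_continuousOn (S : Sys m p c w) : ContinuousOn (gg m p c w) {z : ℂ | 0 ≤ z.im} := by
  unfold gg
  apply ContinuousOn.mul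
  · exact (continuous_finsetProd _ fun i _ => by fun_prop).continuousOn
  · apply continuousOn_finsetProd
    intro j hj
    have hj' := Finset.mem_range.1 hj
    apply ContinuousOn.inv₀
    · apply (continuousOn_Sw (S.hw j hj')).comp (by fun_prop)
      intro z hz
      simpa using hz
    · intro z hz
      exact Sw_ne (S.hw j hj') (by simpa using hz)

lemma gg_differentiableAt (S : Sys m p c w) {z : ℂ} (hz : 0 < z.im) :
    DifferentiableAt ℂ (gg m p c w) z := by
  unfold gg
  apply DifferentiableAt.mul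
  · apply DifferentiableAt.fun_finsetProd
    intro i _
    fun_prop
  · apply DifferentiableAt.fun_finsetProd
    intro j hj
    have hj' := Finset.mem_range.1 hj
    apply DifferentiableAt.inv
    · have h1 : DifferentiableAt ℂ (fun x : ℂ => x - c j) z := by fun_prop
      exact (Sw_differentiableAt (S.hw j hj') (z := z - c j) (by simpa using hz)).comp z h1
    · exact Sw_ne (S.hw j hj') (by simpa using hz.le)

lemma gg_im_nonneg (S : Sys m p c w) {z : ℂ} (hz : 0 ≤ z.im) : 0 ≤ (gg m p c w z).im := by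
  -- in the open half plane
  have key : ∀ z : ℂ, 0 < z.im → 0 < (gg m p c w z).im := by
    intro z hz
    have h1 := QQ_im_neg m p c w S.hw (fun j hj => (S.h1 j hj).le) (fun j hj => (S.h2 j hj).le) hz
    have h2 : gg m p c w z = (QQ m p c w z)⁻¹ := by
      unfold gg QQ
      rw [inv_div, Finset.prod_inv_distrib, div_eq_mul_inv]
    rw [h2, Complex.inv_im]
    apply div_pos (by linarith)
    apply Complex.normSq_pos.2
    intro h
    rw [h] at h1
    simp at h1
  have hcl : ContinuousOn (fun z => (gg m p c w z).im) {z : ℂ | 0 ≤ z.im} :=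
    Complex.continuous_im.comp_continuousOn (gg_continuousOn S)
  have h1 : Tendsto (fun ε : ℝ => z + ε * I) (𝓝[>] 0) (𝓝[{z : ℂ | 0 ≤ z.im}] z) := by
    apply tendsto_nhdsWithin_iff.2
    constructor
    · have : Continuous (fun ε : ℝ => z + ε * I) := by fun_prop
      have h2 := this.tendsto 0
      simp only [Complex.ofReal_zero, zero_mul, add_zero] at h2
      exact h2.mono_left nhdsWithin_le_nhds
    · filter_upwards [self_mem_nhdsWithin] with ε hε
      have hε' : (0 : ℝ) < ε := hε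
      simp
      linarith
  have h2 := (hcl z hz).tendsto.comp h1
  apply ge_of_tendsto h2
  filter_upwards [self_mem_nhdsWithin] with ε hε
  have hε' : (0 : ℝ) < ε := hε
  apply (key _ _).le
  simp
  linarith

lemma gg_ge (S : Sys m p c w) (hp : ∀ i ≤ m, |p i| ≤ 1) (hc : ∀ j < m, |c j| ≤ 1)
    (hw : ∀ j < m, w j ≤ 1) {z : ℂ} (hz : 0 ≤ z.im) (hz4 : 4 ≤ ‖z‖) :
    (‖z‖ - 1) / 4 ^ m ≤ ‖gg m p c w z‖ := by
  have hp' : ∀ i ≤ m, ‖z‖ - 1 ≤ ‖z - p i‖ := by
    intro i hi
    have h1 := norm_sub_norm_le z (p i)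
    rw [Complex.norm_real, Real.norm_eq_abs] at h1
    have := hp i hi
    linarith
  unfold gg
  rw [norm_mul, norm_prod, norm_prod, Finset.prod_range_succ', mul_right_comm,
    ← Finset.prod_mul_distrib]
  have h2 : ∏ j ∈ Finset.range m, (1 / 4 : ℝ) ≤
      ∏ j ∈ Finset.range m, (‖z - p (j + 1)‖ * ‖(Sw (w j) (z - c j))⁻¹‖) := by
    apply Finset.prod_le_prod (fun _ _ => by norm_num)
    intro j hj
    have hj' := Finset.mem_range.1 hj
    have h3 := hp' (j + 1) hj'
    have h4 := Sw_norm_le (S.hw j hj') (z := z - c j) (by simpa using hz)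
    have h5 : ‖z - c j‖ ≤ ‖z‖ + 1 := by
      have := norm_sub_le z (c j : ℂ)
      rw [Complex.norm_real, Real.norm_eq_abs] at this
      have := hc j hj'
      linarith
    have h6 := hw j hj'
    have h7 : 0 < ‖Sw (w j) (z - c j)‖ := norm_pos_iff.2 (Sw_ne (S.hw j hj') (by simpa using hz))
    rw [norm_inv, ← div_eq_mul_inv, le_div_iff₀ h7]
    linarith
  rw [Finset.prod_const, Finset.card_range] at h2
  have h3 := hp' 0 (Nat.zero_le _)
  calc (‖z‖ - 1) / 4 ^ m = (1 / 4) ^ m * (‖z‖ - 1) := by rw [one_div_pow]; ring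
    _ ≤ _ := by
      apply mul_le_mul h2 h3 (by linarith)
      exact Finset.prod_nonneg fun _ _ => by positivity

lemma gg_real_ge (S : Sys m p c w) (hp0 : p 0 = 0) (hpm : p m ≤ 1) {x : ℝ} :
    |x| - 1 ≤ ‖gg m p c w x‖ := by
  rcases le_or_gt |x| 1 with h | h
  · exact le_trans (by linarith) (norm_nonneg _)
  have h1 : ∀ y : ℝ, ‖(x : ℂ) - y‖ = |x - y| := by
    intro y
    rw [← Complex.ofReal_sub, Complex.norm_real, Real.norm_eq_abs]
  have hSle : ∀ j < m, w j ≤ |x - c j| → ‖Sw (w j) ((x : ℂ) - c j)‖ ≤ |x - c j| := by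
    intro j hj h2
    have := (Sw_div_bounds (S.hw j hj) h2).1
    rwa [Complex.ofReal_sub] at this
  rcases le_or_gt 0 x with hx | hx
  · rw [abs_of_nonneg hx] at h ⊢
    have hfar : ∀ j < m, w j ≤ x - c j ∧ c j < x := by
      intro j hj
      have h2 := S.h2 j hj
      have h3 := S.le (i := j + 1) (j := m) hj le_rfl
      have := S.hw j hj
      constructor <;> linarith
    unfold gg
    rw [norm_mul, norm_prod, norm_prod, Finset.prod_range_succ, mul_right_comm,
      ← Finset.prod_mul_distrib]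
    have h2 : 1 ≤ ∏ j ∈ Finset.range m, (‖(x : ℂ) - p j‖ * ‖(Sw (w j) ((x : ℂ) - c j))⁻¹‖) := by
      calc (1 : ℝ) = ∏ j ∈ Finset.range m, (1 : ℝ) := by simp
        _ ≤ _ := by
          apply Finset.prod_le_prod (fun _ _ => by norm_num)
          intro j hj
          have hj' := Finset.mem_range.1 hj
          obtain ⟨h3, h4⟩ := hfar j hj'
          have h5 : |x - c j| = x - c j := abs_of_pos (by linarith)
          have h6 := hSle j hj' (by rw [h5]; exact h3)
          have h7 : 0 < ‖Sw (w j) ((x : ℂ) - c j)‖ := norm_pos_iff.2 (Sw_ne (S.hw j hj') (by simp))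
          rw [norm_inv, ← div_eq_mul_inv, le_div_iff₀ h7, one_mul, h1]
          have h8 := S.h1 j hj'
          have h9 := S.hw j hj'
          rw [abs_of_pos (by linarith : 0 < x - p j)]
          linarith
    have h3 : x - 1 ≤ ‖(x : ℂ) - p m‖ := by
      rw [h1]
      have := le_abs_self (x - p m)
      linarith
    calc x - 1 ≤ 1 * ‖(x : ℂ) - p m‖ := by linarith
      _ ≤ _ := by gcongr
  · rw [abs_of_neg hx] at h ⊢
    have hfar : ∀ j < m, w j ≤ c j - x ∧ x < c j := by
      intro j hj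
      have h2 := S.h1 j hj
      have h3 := S.le (i := 0) (j := j) (Nat.zero_le _) hj.le
      have := S.hw j hj
      constructor <;> linarith
    unfold gg
    rw [norm_mul, norm_prod, norm_prod, Finset.prod_range_succ', mul_right_comm,
      ← Finset.prod_mul_distrib]
    have h2 : 1 ≤ ∏ j ∈ Finset.range m, (‖(x : ℂ) - p (j + 1)‖ * ‖(Sw (w j) ((x : ℂ) - c j))⁻¹‖) := by
      calc (1 : ℝ) = ∏ j ∈ Finset.range m, (1 : ℝ) := by simp
        _ ≤ _ := by
          apply Finset.prod_le_prod (fun _ _ => by norm_num)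
          intro j hj
          have hj' := Finset.mem_range.1 hj
          obtain ⟨h3, h4⟩ := hfar j hj'
          have h5 : |x - c j| = -(x - c j) := abs_of_neg (by linarith)
          have h6 := hSle j hj' (by rw [h5]; linarith)
          have h7 : 0 < ‖Sw (w j) ((x : ℂ) - c j)‖ := norm_pos_iff.2 (Sw_ne (S.hw j hj') (by simp))
          rw [norm_inv, ← div_eq_mul_inv, le_div_iff₀ h7, one_mul, h1]
          have h8 := S.h2 j hj'
          have h9 := S.hw j hj'
          rw [abs_of_neg (by linarith : x - p (j + 1) < 0)]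
          linarith
    have h3 : -x - 1 ≤ ‖(x : ℂ) - p 0‖ := by
      rw [h1, hp0, sub_zero, abs_of_neg hx]
      linarith
    calc -x - 1 ≤ 1 * ‖(x : ℂ) - p 0‖ := by linarith
      _ ≤ _ := by gcongr

end

end Pool.Agent.W2helper20.PK
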