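import Pool.Agent.W2helper20.PK.Disc1

set_option autoImplicit false

open Complex Set Filter Topology Metric

namespace Pool.Agent.W2helper20.PK

lemma le_of_sq_le_sq' {a b : ℝ} (h : a ^ 2 ≤ b ^ 2) (hb : 0 ≤ b) : a ≤ b := by
  by_contra hcon
  push Not at hcon
  nlinarith

/-- The Cayley transform from the disc to the upper half plane. -/
noncomputable def xi (ζ : ℂ) : ℂ := I * (1 - ζ) / (1 + ζ)

/-- The inverse on the real line. -/
noncomputable def zt (x : ℝ) : ℂ := (I - x) / (I + x)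

/-- The function on the disc. -/
noncomputable def FF (m : ℕ) (p c w : ℕ → ℝ) (ζ : ℂ) : ℂ :=
  open Classical in if ζ = -1 then 0 else (1 - 2 * I * gg m p c w (xi ζ))⁻¹

lemma one_add_ne {ζ : ℂ} (h : ζ ≠ -1) : 1 + ζ ≠ 0 := by
  intro h1
  exact h (by linear_combination h1)

lemma xi_im {ζ : ℂ} (h : ζ ≠ -1) : (xi ζ).im = (1 - ‖ζ‖ ^ 2) / ‖1 + ζ‖ ^ 2 := by
  unfold xi
  have h1 := one_add_ne h
  have h2 : Complex.normSq (1 + ζ) ≠ 0 := by
    rw [Ne, Complex.normSq_eq_zero]; exact h1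
  rw [← Complex.normSq_eq_norm_sq, ← Complex.normSq_eq_norm_sq, Complex.div_im]
  simp only [Complex.mul_re, Complex.mul_im, Complex.I_re, Complex.I_im, Complex.sub_re,
    Complex.sub_im, Complex.one_re, Complex.one_im, Complex.add_re, Complex.add_im]
  field_simp
  simp only [Complex.normSq_apply]
  ring

lemma xi_im_nonneg {ζ : ℂ} (h : ζ ≠ -1) (h1 : ‖ζ‖ ≤ 1) : 0 ≤ (xi ζ).im := by
  rw [xi_im h]
  have : ‖ζ‖ ^ 2 ≤ 1 := by have := norm_nonneg ζ; nlinarith
  exact div_nonneg (by linarith) (by positivity)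

lemma xi_im_pos {ζ : ℂ} (h1 : ‖ζ‖ < 1) : 0 < (xi ζ).im := by
  have h : ζ ≠ -1 := by
    intro h
    rw [h] at h1
    simp at h1
  rw [xi_im h]
  have h2 : ‖ζ‖ ^ 2 < 1 := by have := norm_nonneg ζ; nlinarith
  have h3 : 0 < ‖1 + ζ‖ := norm_pos_iff.2 (one_add_ne h)
  exact div_pos (by linarith) (by positivity)

lemma I_add_ne (x : ℝ) : I + (x : ℂ) ≠ 0 := by
  intro h
  have := congrArg Complex.im h
  simp at this

lemma norm_I_add_sq (x : ℝ) : ‖I + (x : ℂ)‖ ^ 2 = 1 + x ^ 2 := by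
  rw [← Complex.normSq_eq_norm_sq, Complex.normSq_apply]
  simp
  ring

lemma norm_I_add_ge (x : ℝ) : 1 ≤ ‖I + (x : ℂ)‖ := by
  have h := norm_I_add_sq x
  have h1 := norm_nonneg (I + (x : ℂ))
  nlinarith [sq_nonneg x]

lemma zt_norm (x : ℝ) : ‖zt x‖ = 1 := by
  unfold zt
  have h : ‖I - (x : ℂ)‖ = ‖I + (x : ℂ)‖ := by
    have h1 := norm_I_add_sq x
    have h2 := norm_I_add_sq (-x)
    rw [neg_sq, ← h1, Complex.ofReal_neg, ← sub_eq_add_neg] at h2
    exact (sq_eq_sq₀ (norm_nonneg _) (norm_nonneg _)).1 h2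
  rw [norm_div, h, div_self (norm_ne_zero_iff.2 (I_add_ne x))]

lemma zt_add_one (x : ℝ) : zt x + 1 = 2 * I / (I + x) := by
  unfold zt
  have := I_add_ne x
  field_simp
  ring

lemma zt_ne (x : ℝ) : zt x ≠ -1 := by
  intro h
  have h1 := zt_add_one x
  rw [h, neg_add_cancel] at h1
  have h2 := I_add_ne x
  have h3 : 2 * I / (I + (x : ℂ)) ≠ 0 := div_ne_zero (by simp) h2
  exact h3 h1.symm

lemma xi_zt (x : ℝ) : xi (zt x) = x := by
  have h1 := I_add_ne x
  unfold xi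
  rw [div_eq_iff (one_add_ne (zt_ne x))]
  unfold zt
  field_simp
  linear_combination (-2 * (x : ℂ)) * Complex.I_sq + (2 * x) * Complex.I_sq

lemma exists_zt {ζ : ℂ} (h : ζ ≠ -1) (h1 : ‖ζ‖ = 1) : ∃ x : ℝ, ζ = zt x := by
  have h2 : (xi ζ).im = 0 := by rw [xi_im h, h1]; simp
  refine ⟨(xi ζ).re, ?_⟩
  have h3 : xi ζ = ((xi ζ).re : ℂ) := by
    apply Complex.ext <;> simp [h2]
  have h4 := one_add_ne h
  have h5 : I * (1 - ζ) = ((xi ζ).re : ℂ) * (1 + ζ) := by
    rw [← h3]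
    unfold xi
    field_simp
  unfold zt
  rw [eq_div_iff (I_add_ne _)]
  linear_combination -h5

lemma zt_sub (x y : ℝ) : zt x - zt y = 2 * I * (y - x) / ((I + x) * (I + y)) := by
  unfold zt
  have := I_add_ne x
  have := I_add_ne y
  field_simp
  ring

lemma norm_zt_sub (x y : ℝ) : ‖zt x - zt y‖ = 2 * |x - y| / (‖I + (x : ℂ)‖ * ‖I + (y : ℂ)‖) := by
  rw [zt_sub, norm_div, norm_mul, norm_mul, norm_mul, Complex.norm_I, ← Complex.ofReal_sub,
    Complex.norm_real, Real.norm_eq_abs, abs_sub_comm]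
  simp

lemma norm_zt_add_one (x : ℝ) : ‖zt x + 1‖ = 2 / ‖I + (x : ℂ)‖ := by
  rw [zt_add_one, norm_div, norm_mul, Complex.norm_I]
  simp

section
variable {m : ℕ} {p c w : ℕ → ℝ}

lemma uu_re (S : Sys m p c w) {z : ℂ} (hz : 0 ≤ z.im) : 1 ≤ (1 - 2 * I * gg m p c w z).re := by
  have h := gg_im_nonneg S hz
  simp
  linarith

lemma uu_ne (S : Sys m p c w) {z : ℂ} (hz : 0 ≤ z.im) : 1 - 2 * I * gg m p c w z ≠ 0 := by
  intro h
  have := uu_re S hz
  rw [h] at this
  simp at this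
  linarith

lemma uu_norm_sq (S : Sys m p c w) {z : ℂ} (hz : 0 ≤ z.im) :
    1 + 4 * ‖gg m p c w z‖ ^ 2 ≤ ‖1 - 2 * I * gg m p c w z‖ ^ 2 := by
  have h := gg_im_nonneg S hz
  rw [← Complex.normSq_eq_norm_sq, ← Complex.normSq_eq_norm_sq, Complex.normSq_apply,
    Complex.normSq_apply]
  simp
  nlinarith

lemma FF_neg_one : FF m p c w (-1) = 0 := by simp [FF]

lemma FF_of_ne {ζ : ℂ} (h : ζ ≠ -1) : FF m p c w ζ = (1 - 2 * I * gg m p c w (xi ζ))⁻¹ := by
  simp [FF, h]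

lemma FF_differentiableOn (S : Sys m p c w) : DifferentiableOn ℂ (FF m p c w) (ball 0 1) := by
  intro ζ hζ
  have hζ1 : ‖ζ‖ < 1 := by simpa using hζ
  have hζ2 : ζ ≠ -1 := by
    intro h
    rw [h] at hζ1
    simp at hζ1
  have h1 : DifferentiableAt ℂ xi ζ := by
    unfold xi
    exact DifferentiableAt.div (by fun_prop) (by fun_prop) (one_add_ne hζ2)
  have h2 := (gg_differentiableAt S (xi_im_pos hζ1)).comp ζ h1
  have h3 : DifferentiableAt ℂ (fun ζ => (1 - 2 * I * gg m p c w (xi ζ))⁻¹) ζ := by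
    apply DifferentiableAt.fun_inv
    · exact (h2.const_mul (2 * I)).const_sub 1
    · exact uu_ne S (xi_im_pos hζ1).le
  apply DifferentiableAt.differentiableWithinAt
  refine h3.congr_of_eventuallyEq ?_
  filter_upwards [isOpen_ne.mem_nhds hζ2] with z hz
  exact FF_of_ne hz

lemma FF_continuousOn (S : Sys m p c w) (hp : ∀ i ≤ m, |p i| ≤ 1) (hc : ∀ j < m, |c j| ≤ 1)
    (hw : ∀ j < m, w j ≤ 1) : ContinuousOn (FF m p c w) (closedBall 0 1) := by
  intro ζ hζ
  have hζ1 : ‖ζ‖ ≤ 1 := by simpa using hζ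
  rcases eq_or_ne ζ (-1) with h | h
  · subst h
    unfold ContinuousWithinAt
    rw [FF_neg_one, tendsto_zero_iff_norm_tendsto_zero]
    -- bound
    have hev : ∀ᶠ z in 𝓝[closedBall (0 : ℂ) 1] (-1),
        ‖FF m p c w z‖ ≤ 4 ^ m * (2 * ‖1 + z‖) := by
      have h1 : ∀ᶠ z in 𝓝[closedBall (0 : ℂ) 1] (-1), ‖1 + z‖ < 1 / 5 := by
        apply nhdsWithin_le_nhds
        have : Continuous (fun z : ℂ => ‖1 + z‖) := by fun_prop
        have h2 := this.tendsto (-1)
        simp only [add_neg_cancel, norm_zero] at h2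
        exact h2.eventually (gt_mem_nhds (by norm_num))
      filter_upwards [h1, self_mem_nhdsWithin] with z hz1 hz2
      have hz3 : ‖z‖ ≤ 1 := by simpa using hz2
      rcases eq_or_ne z (-1) with h2 | h2
      · rw [h2, FF_neg_one, norm_zero]
        positivity
      · rw [FF_of_ne h2, norm_inv]
        have h3 : 0 < ‖1 + z‖ := norm_pos_iff.2 (one_add_ne h2)
        have h4 : ‖xi z‖ = ‖1 - z‖ / ‖1 + z‖ := by
          unfold xi
          rw [norm_div, norm_mul, Complex.norm_I, one_mul]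
        have h5 : 2 - ‖1 + z‖ ≤ ‖1 - z‖ := by
          have := norm_add_le (1 - z) (1 + z)
          have h6 : (1 - z) + (1 + z) = 2 := by ring
          rw [h6] at this
          have h7 : ‖(2 : ℂ)‖ = 2 := by simp
          linarith
        have h6 : 1 / ‖1 + z‖ + 4 ≤ ‖xi z‖ := by
          rw [h4, le_div_iff₀ h3]
          have : (1 / ‖1 + z‖ + 4) * ‖1 + z‖ = 1 + 4 * ‖1 + z‖ := by field_simp
          rw [this]
          linarith
        have h60 : 0 < 1 / ‖1 + z‖ := by positivity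
        have h7 := gg_ge S hp hc hw (xi_im_nonneg h2 hz3) (by linarith)
        have h8 := uu_norm_sq S (xi_im_nonneg h2 hz3)
        have h9 : 2 * ‖gg m p c w (xi z)‖ ≤ ‖1 - 2 * I * gg m p c w (xi z)‖ := by
          apply le_of_sq_le_sq' _ (norm_nonneg _)
          nlinarith
        have h4m : (0 : ℝ) < 4 ^ m := by positivity
        have h10 : (1 / ‖1 + z‖) / 4 ^ m ≤ ‖gg m p c w (xi z)‖ := by
          refine le_trans ?_ h7
          gcongr
          linarith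
        have h11 : (1 / ‖1 + z‖) / 4 ^ m ≤ ‖1 - 2 * I * gg m p c w (xi z)‖ := by
          have := norm_nonneg (gg m p c w (xi z))
          linarith
        calc ‖1 - 2 * I * gg m p c w (xi z)‖⁻¹ ≤ ((1 / ‖1 + z‖) / 4 ^ m)⁻¹ :=
              inv_anti₀ (by positivity) h11
          _ = 4 ^ m * ‖1 + z‖ := by field_simp
          _ ≤ 4 ^ m * (2 * ‖1 + z‖) := by gcongr; linarith
    have hlim : Tendsto (fun z : ℂ => (4 : ℝ) ^ m * (2 * ‖1 + z‖)) (𝓝[closedBall (0 : ℂ) 1] (-1))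
        (𝓝 0) := by
      have : Continuous (fun z : ℂ => (4 : ℝ) ^ m * (2 * ‖1 + z‖)) := by fun_prop
      have h2 := this.tendsto (-1)
      simp only [add_neg_cancel, norm_zero, mul_zero] at h2
      exact h2.mono_left nhdsWithin_le_nhds
    exact squeeze_zero' (Eventually.of_forall fun _ => norm_nonneg _) hev hlim
  · have h1 : ContinuousAt xi ζ := by
      unfold xi
      exact ContinuousAt.div (by fun_prop) (by fun_prop) (one_add_ne h)
    have hne : ∀ᶠ z in 𝓝[closedBall (0 : ℂ) 1] ζ, z ≠ -1 :=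
      nhdsWithin_le_nhds (isOpen_ne.mem_nhds h)
    have h2 : Tendsto xi (𝓝[closedBall (0 : ℂ) 1] ζ) (𝓝[{z : ℂ | 0 ≤ z.im}] (xi ζ)) := by
      apply tendsto_nhdsWithin_iff.2
      refine ⟨h1.tendsto.mono_left nhdsWithin_le_nhds, ?_⟩
      filter_upwards [hne, self_mem_nhdsWithin] with z hz1 hz2
      exact xi_im_nonneg hz1 (by simpa using hz2)
    have h3 : Tendsto (fun z => gg m p c w (xi z)) (𝓝[closedBall (0 : ℂ) 1] ζ)
        (𝓝 (gg m p c w (xi ζ))) :=
      ((gg_continuousOn S) (xi ζ) (xi_im_nonneg h hζ1)).tendsto.comp h2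
    have h4 : Tendsto (fun z => (1 - 2 * I * gg m p c w (xi z))⁻¹) (𝓝[closedBall (0 : ℂ) 1] ζ)
        (𝓝 (1 - 2 * I * gg m p c w (xi ζ))⁻¹) :=
      ((h3.const_mul (2 * I)).const_sub 1).inv₀ (uu_ne S (xi_im_nonneg h hζ1))
    unfold ContinuousWithinAt
    rw [FF_of_ne h]
    refine h4.congr' ?_
    filter_upwards [hne] with z hz
    exact (FF_of_ne hz).symm

lemma FF_re (S : Sys m p c w) {ζ : ℂ} (hζ : ‖ζ‖ ≤ 1) :
    ‖FF m p c w ζ‖ ^ 2 ≤ (FF m p c w ζ).re := by
  rcases eq_or_ne ζ (-1) with h | h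
  · rw [h, FF_neg_one]; simp
  · rw [FF_of_ne h]
    have h1 := uu_re S (xi_im_nonneg h hζ)
    have h2 := uu_ne S (xi_im_nonneg h hζ)
    rw [Complex.inv_re, norm_inv, inv_pow, ← Complex.normSq_eq_norm_sq, inv_eq_one_div]
    have h3 : 0 < Complex.normSq (1 - 2 * I * gg m p c w (xi ζ)) := Complex.normSq_pos.2 h2
    gcongr

lemma FF_pole {i : ℕ} (hi : i ≤ m) : FF m p c w (zt (p i)) = 1 := by
  rw [FF_of_ne (zt_ne _), xi_zt]
  have h : gg m p c w (p i) = 0 := by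
    unfold gg
    rw [Finset.prod_eq_zero (i := i) (Finset.mem_range.2 (Nat.lt_succ_of_le hi)) (sub_self _),
      zero_mul]
  rw [h]
  simp

lemma uu_lower (S : Sys m p c w) (hp0 : p 0 = 0) (hpm : p m ≤ 1) (x : ℝ) :
    ‖I + (x : ℂ)‖ / 3 ≤ ‖1 - 2 * I * gg m p c w x‖ := by
  have h1 := uu_norm_sq S (z := (x : ℂ)) (by simp)
  have h2 := gg_real_ge S hp0 hpm (x := x)
  have h3 := norm_I_add_sq x
  have h4 : x ^ 2 = |x| ^ 2 := (sq_abs x).symm
  apply le_of_sq_le_sq' _ (norm_nonneg _)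
  refine le_trans ?_ h1
  rw [div_pow, h3, h4]
  have h5 := norm_nonneg (gg m p c w x)
  have h6 := abs_nonneg x
  rcases le_or_gt |x| 1 with h | h
  · have : |x| ^ 2 ≤ 1 := by nlinarith
    have : 0 ≤ ‖gg m p c w x‖ ^ 2 := by positivity
    linarith
  · have : (|x| - 1) ^ 2 ≤ ‖gg m p c w x‖ ^ 2 := by
      apply pow_le_pow_left₀ (by linarith) h2
    nlinarith [sq_nonneg (35 * |x| - 36)]

lemma FF_holder (S : Sys m p c w) (hp0 : p 0 = 0) (hpm : p m ≤ 1) {α H : ℝ} (hα0 : 0 < α)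
    (hα1 : α ≤ 1) (hH : 0 ≤ H)
    (hg : ∀ x y : ℝ, ‖gg m p c w x - gg m p c w y‖ ≤ H * (|x - y| ^ α + |x - y|))
    {ζ ζ' : ℂ} (hζ : ‖ζ‖ = 1) (hζ' : ‖ζ'‖ = 1) :
    ‖FF m p c w ζ - FF m p c w ζ'‖ ≤ (36 * H + 3) * ‖ζ - ζ'‖ ^ α := by
  have hsm : ∀ D : ℝ, 0 ≤ D → D ≤ 2 → D / 2 ≤ D ^ α := by
    intro D hD0 hD2
    rcases hD0.eq_or_lt with h | h
    · rw [← h, Real.zero_rpow hα0.ne']; simp
    · calc D / 2 = (D / 2) ^ (1 : ℝ) := (Real.rpow_one _).symm
        _ ≤ (D / 2) ^ α := Real.rpow_le_rpow_of_exponent_ge (by positivity) (by linarith) hα1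
        _ ≤ D ^ α := Real.rpow_le_rpow (by positivity) (by linarith) hα0.le
  have hone : ∀ x : ℝ, ‖FF m p c w (zt x)‖ ≤ (36 * H + 3) * ‖zt x + 1‖ ^ α := by
    intro x
    rw [FF_of_ne (zt_ne x), xi_zt, norm_inv]
    have h1 := uu_lower S hp0 hpm x
    have h2 := norm_I_add_ge x
    have h3 : ‖1 - 2 * I * gg m p c w x‖⁻¹ ≤ (‖I + (x : ℂ)‖ / 3)⁻¹ :=
      inv_anti₀ (by positivity) h1
    have h4 : (‖I + (x : ℂ)‖ / 3)⁻¹ = 3 * (‖zt x + 1‖ / 2) := by
      rw [norm_zt_add_one]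
      field_simp
    have h5 := hsm ‖zt x + 1‖ (norm_nonneg _) (by
      have := norm_add_le (zt x) 1
      rw [zt_norm, norm_one] at this
      linarith)
    have h6 : 0 ≤ ‖zt x + 1‖ ^ α := by positivity
    rw [h4] at h3
    nlinarith
  rcases eq_or_ne ζ (-1) with h | h
  · rcases eq_or_ne ζ' (-1) with h' | h'
    · rw [h, h', sub_self, norm_zero]
      positivity
    · obtain ⟨y, rfl⟩ := exists_zt h' hζ'
      have := hone y
      rw [h, FF_neg_one, zero_sub, norm_neg]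
      rwa [show (-1 : ℂ) - zt y = -(zt y + 1) by ring, norm_neg]
  · obtain ⟨x, rfl⟩ := exists_zt h hζ
    rcases eq_or_ne ζ' (-1) with h' | h'
    · have := hone x
      rw [h', FF_neg_one, sub_zero]
      rwa [show zt x - (-1 : ℂ) = zt x + 1 by ring]
    · obtain ⟨y, rfl⟩ := exists_zt h' hζ'
      rw [FF_of_ne h, FF_of_ne h', xi_zt, xi_zt]
      set ux := 1 - 2 * I * gg m p c w x with hux
      set uy := 1 - 2 * I * gg m p c w y with huy
      have h1 := uu_lower S hp0 hpm x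
      have h2 := uu_lower S hp0 hpm y
      rw [← hux] at h1
      rw [← huy] at h2
      have nx := norm_I_add_ge x
      have ny := norm_I_add_ge y
      set Nx := ‖I + (x : ℂ)‖ with hNx
      set Ny := ‖I + (y : ℂ)‖ with hNy
      have hux0 : ux ≠ 0 := uu_ne S (by simp)
      have huy0 : uy ≠ 0 := uu_ne S (by simp)
      have h3 : ux⁻¹ - uy⁻¹ = 2 * I * (gg m p c w x - gg m p c w y) / (ux * uy) := by
        rw [inv_sub_inv hux0 huy0]
        congr 1
        rw [hux, huy]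
        ring
      have h4 : ‖ux⁻¹ - uy⁻¹‖ = 2 * ‖gg m p c w x - gg m p c w y‖ / (‖ux‖ * ‖uy‖) := by
        rw [h3, norm_div, norm_mul, norm_mul, norm_mul, Complex.norm_I]
        simp
      have h5 : Nx / 3 * (Ny / 3) ≤ ‖ux‖ * ‖uy‖ := by gcongr
      have hD := norm_zt_sub x y
      rw [← hNx, ← hNy] at hD
      have hD2 : ‖zt x - zt y‖ ≤ 2 := by
        have := norm_sub_le (zt x) (zt y)
        rw [zt_norm, zt_norm] at this
        linarith
      set D := ‖zt x - zt y‖ with hDdef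
      have hD0 : 0 ≤ D := norm_nonneg _
      have e1 : |x - y| / (Nx * Ny) = D / 2 := by rw [hD]; field_simp
      have e2 : |x - y| ^ α / (Nx * Ny) ≤ D ^ α := by
        have hNN : 1 ≤ Nx * Ny := by nlinarith
        have e3 : (Nx * Ny) ^ α ≤ Nx * Ny := by
          conv_rhs => rw [← Real.rpow_one (Nx * Ny)]
          exact Real.rpow_le_rpow_of_exponent_le hNN hα1
        have e4 : (|x - y| / (Nx * Ny)) ^ α ≤ D ^ α := by
          apply Real.rpow_le_rpow (by positivity) _ hα0.le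
          rw [e1]; linarith
        refine le_trans ?_ e4
        rw [Real.div_rpow (abs_nonneg _) (by positivity)]
        apply div_le_div_of_nonneg_left (by positivity) (Real.rpow_pos_of_pos (by positivity) _) e3
      have e5 := hsm D hD0 hD2
      have e6 : 0 ≤ D ^ α := by positivity
      rw [h4]
      calc 2 * ‖gg m p c w x - gg m p c w y‖ / (‖ux‖ * ‖uy‖)
          ≤ 2 * (H * (|x - y| ^ α + |x - y|)) / (Nx / 3 * (Ny / 3)) := by
            gcongr
            exact hg x y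
        _ = 18 * H * (|x - y| ^ α / (Nx * Ny) + |x - y| / (Nx * Ny)) := by
            field_simp
            ring
        _ ≤ 18 * H * (D ^ α + D ^ α) := by
            rw [e1]
            gcongr
        _ ≤ (36 * H + 3) * D ^ α := by nlinarith

end

end Pool.Agent.W2helper20.PK
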