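import Pool.Agent.W2helper20.PK.Gevrey

set_option autoImplicit false

open Complex Set Filter Topology Metric MeasureTheory

namespace Pool.Agent.W2helper20.PK

/-- Zero sets satisfy a summability condition. -/
theorem zero_bound {α : ℝ} (hα0 : 0 < α) {f : ℂ → ℂ} (hf : DifferentiableOn ℂ f (ball 0 1))
    {C : ℝ} (hG : ∀ n : ℕ, ∀ z : ℂ, ‖z‖ < 1 →
      ‖iteratedDeriv n f z‖ ≤ C ^ (n + 1) * (n.factorial : ℝ) ^ (1 + 1 / α))
    (hne : ∃ z : ℂ, ‖z‖ < 1 ∧ f z ≠ 0) {E : Set ℂ} (hE : ∀ ζ ∈ E, ‖ζ‖ = 1)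
    (hflat : ∀ n, ∀ ζ ∈ E, Tendsto (iteratedDeriv n f) (𝓝[ball 0 1] ζ) (𝓝 0)) :
    ∃ K : ℝ, ∀ (m : ℕ) (θ L : ℕ → ℝ) (ζ : ℕ → ℂ), θ 0 = 0 → (∀ j < m, θ j ≤ θ (j + 1)) →
      θ m ≤ 2 * Real.pi → (∀ j < m, 0 < L j) → (∀ j < m, ζ j ∈ E) →
      (∀ j < m, ∀ t ∈ Icc (θ j) (θ (j + 1)), ‖Complex.exp (t * I) - ζ j‖ ≤ L j) →
      ∑ j ∈ Finset.range m, (θ (j + 1) - θ j) * (L j) ^ (-α) ≤ K := by
  obtain ⟨KJ, hKJ⟩ := jensen_lower hf
  set C1 := max C 1 with hC1
  have hC1' : 1 ≤ C1 := le_max_right _ _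
  have hC10 : 0 < C1 := by linarith
  have hC0 : 0 ≤ C := by
    have h1 := hG 0 0 (by simp)
    simp only [zero_add, pow_one, Nat.factorial_zero, Nat.cast_one, Real.one_rpow, mul_one] at h1
    exact (norm_nonneg _).trans h1
  have hG1 : ∀ n : ℕ, ∀ z : ℂ, ‖z‖ < 1 →
      ‖iteratedDeriv n f z‖ ≤ C1 ^ (n + 1) * (n.factorial : ℝ) ^ (1 + 1 / α) := by
    intro n z hz
    refine (hG n z hz).trans ?_
    have : C ≤ C1 := le_max_left _ _
    gcongr
  set K0 := Real.log C1 + 1 with hK0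
  set c := (1 / (Real.exp 1 * C1 * 2)) ^ α with hc
  have hc0 : 0 < c := by positivity
  have hana : AnalyticOnNhd ℂ f (ball 0 1) := hf.analyticOnNhd isOpen_ball
  refine ⟨2 * Real.pi * (K0 + KJ) / c, fun m θ L ζ h0 hmono hm hL hζ hdist => ?_⟩
  -- choose the radius
  obtain ⟨δ, hδ0, hδ⟩ : ∃ δ : ℝ, 0 < δ ∧ ∀ j < m, δ ≤ L j := by
    rcases Nat.eq_zero_or_pos m with h | h
    · exact ⟨1, one_pos, fun j hj => by omega⟩
    · obtain ⟨j0, hj0, hmin⟩ := Finset.exists_min_image (Finset.range m) L ⟨0, Finset.mem_range.2 h⟩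
      exact ⟨L j0, hL j0 (Finset.mem_range.1 hj0), fun j hj => hmin j (Finset.mem_range.2 hj)⟩
  set r := max (1 / 2) (1 - δ) with hr
  have hr1 : 1 / 2 ≤ r := le_max_left _ _
  have hr2 : r < 1 := max_lt (by norm_num) (by linarith)
  have hr0 : 0 < r := by linarith
  have hrδ : 1 - r ≤ δ := by have := le_max_right (1 / 2) (1 - δ); linarith
  have havg := hKJ r hr1 hr2
  set F : ℝ → ℝ := fun t => Real.log ‖f (circleMap 0 r t)‖ with hF
  have hint : IntervalIntegrable F volume 0 (2 * Real.pi) := by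
    have h1 : MeromorphicOn f (sphere (0 : ℂ) r) :=
      (hana.mono (sphere_subset_ball hr2)).meromorphicOn
    exact h1.circleIntegrable_log_norm_of_nonneg hr0.le
  have hnorm : ∀ t : ℝ, ‖circleMap 0 r t‖ < 1 := by
    intro t
    rw [norm_circleMap_zero, abs_of_pos hr0]
    exact hr2
  have hae := ae_ne hf hne hr0 hr2
  have hpi := Real.pi_pos
  -- monotonicity of θ
  have hθle : ∀ i j, i ≤ j → j ≤ m → θ i ≤ θ j := by
    intro i j hij
    induction j, hij using Nat.le_induction with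
    | base => intro _; exact le_rfl
    | succ j hj ih => intro h; exact (ih (by omega)).trans (hmono j (by omega))
  have hθ0 : ∀ j ≤ m, 0 ≤ θ j := fun j hj => by rw [← h0]; exact hθle 0 j (Nat.zero_le _) hj
  have hθ2 : ∀ j ≤ m, θ j ≤ 2 * Real.pi := fun j hj => (hθle j m hj le_rfl).trans hm
  have hintsub : ∀ a b : ℝ, 0 ≤ a → a ≤ b → b ≤ 2 * Real.pi → IntervalIntegrable F volume a b := by
    intro a b ha hab hb
    apply hint.mono_set
    rw [uIcc_of_le hab, uIcc_of_le (by positivity)]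
    exact Icc_subset_Icc ha hb
  -- the pieces
  have hpiece : ∀ j < m, ∫ t in (θ j)..(θ (j + 1)), F t ≤
      (K0 - c * (L j) ^ (-α)) * (θ (j + 1) - θ j) := by
    intro j hj
    have h1 : ∫ t in (θ j)..(θ (j + 1)), F t ≤
        ∫ t in (θ j)..(θ (j + 1)), (K0 - c * (L j) ^ (-α)) := by
      apply intervalIntegral.integral_mono_ae_restrict (hmono j hj)
        (hintsub _ _ (hθ0 j hj.le) (hmono j hj) (hθ2 (j + 1) hj)) (by simp)
      rw [EventuallyLE, ae_restrict_iff' measurableSet_Icc]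
      filter_upwards [hae] with t ht1 ht2
      have hd : ‖circleMap 0 r t - ζ j‖ ≤ 2 * L j := by
        have e1 : circleMap 0 r t - ζ j = -((1 - r : ℝ) : ℂ) * Complex.exp (t * I) +
            (Complex.exp (t * I) - ζ j) := by
          simp only [circleMap]
          push_cast
          ring
        rw [e1]
        calc ‖-((1 - r : ℝ) : ℂ) * Complex.exp (t * I) + (Complex.exp (t * I) - ζ j)‖
            ≤ ‖-((1 - r : ℝ) : ℂ) * Complex.exp (t * I)‖ + ‖Complex.exp (t * I) - ζ j‖ :=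
              norm_add_le _ _
          _ = (1 - r) + ‖Complex.exp (t * I) - ζ j‖ := by
              rw [norm_mul, norm_neg, Complex.norm_real, Real.norm_of_nonneg (by linarith),
                Complex.norm_exp_ofReal_mul_I, mul_one]
          _ ≤ 2 * L j := by
              have := hdist j hj t ht2
              have := hδ j hj
              linarith
      have hLj := hL j hj
      have h2 := flat_bound hα0 hf hC1' hG1 (hE _ (hζ j hj)) (fun n => hflat n _ (hζ j hj))
        (hnorm t) (d := 2 * L j) (by positivity) hd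
      have h3 : (1 / (Real.exp 1 * C1 * (2 * L j))) ^ α = c * (L j) ^ (-α) := by
        rw [hc, Real.rpow_neg hLj.le, ← Real.inv_rpow hLj.le, ← Real.mul_rpow (by positivity) (by positivity)]
        congr 1
        field_simp
      rw [h3] at h2
      have h4 : 0 < ‖f (circleMap 0 r t)‖ := norm_pos_iff.2 ht1
      calc F t = Real.log ‖f (circleMap 0 r t)‖ := rfl
        _ ≤ Real.log (Real.exp (Real.log C1 + 1 - c * (L j) ^ (-α))) := Real.log_le_log h4 h2
        _ = K0 - c * (L j) ^ (-α) := by rw [Real.log_exp]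
    rw [intervalIntegral.integral_const, smul_eq_mul, mul_comm] at h1
    exact h1
  have hlast : ∫ t in (θ m)..(2 * Real.pi), F t ≤ K0 * (2 * Real.pi - θ m) := by
    have h1 : ∫ t in (θ m)..(2 * Real.pi), F t ≤ ∫ t in (θ m)..(2 * Real.pi), K0 := by
      apply intervalIntegral.integral_mono_ae hm
        (hintsub _ _ (hθ0 m le_rfl) hm le_rfl) (by simp)
      filter_upwards [hae] with t ht1
      have h4 : 0 < ‖f (circleMap 0 r t)‖ := norm_pos_iff.2 ht1
      have h5 := hG1 0 _ (hnorm t)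
      simp only [zero_add, pow_one, Nat.factorial_zero, Nat.cast_one, Real.one_rpow, mul_one,
        iteratedDeriv_zero] at h5
      calc F t = Real.log ‖f (circleMap 0 r t)‖ := rfl
        _ ≤ Real.log C1 := Real.log_le_log h4 h5
        _ ≤ K0 := by linarith
    rw [intervalIntegral.integral_const, smul_eq_mul, mul_comm _ K0] at h1
    exact h1
  have htot : ∫ t in (0 : ℝ)..(2 * Real.pi), F t ≤
      2 * Real.pi * K0 - c * ∑ j ∈ Finset.range m, (θ (j + 1) - θ j) * (L j) ^ (-α) := by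
    have h1 := intervalIntegral.sum_integral_adjacent_intervals (f := F) (μ := volume) (a := θ)
      (n := m) fun k hk => hintsub _ _ (hθ0 k hk.le) (hmono k hk) (hθ2 (k + 1) hk)
    have h2 := intervalIntegral.integral_add_adjacent_intervals
      (hintsub (θ 0) (θ m) (hθ0 0 (Nat.zero_le _)) (hθle 0 m (Nat.zero_le _) le_rfl)
        (hθ2 m le_rfl)) (hintsub (θ m) (2 * Real.pi) (hθ0 m le_rfl) hm le_rfl)
    rw [h0] at h1 h2
    rw [← h2, ← h1]
    have h3 : ∑ k ∈ Finset.range m, ∫ t in (θ k)..(θ (k + 1)), F t ≤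
        ∑ k ∈ Finset.range m, (K0 - c * (L k) ^ (-α)) * (θ (k + 1) - θ k) :=
      Finset.sum_le_sum fun k hk => hpiece k (Finset.mem_range.1 hk)
    have h4 : ∑ k ∈ Finset.range m, (K0 - c * (L k) ^ (-α)) * (θ (k + 1) - θ k) =
        K0 * (θ m - θ 0) - c * ∑ j ∈ Finset.range m, (θ (j + 1) - θ j) * (L j) ^ (-α) := by
      rw [← Finset.sum_range_sub θ m, Finset.mul_sum, Finset.mul_sum, ← Finset.sum_sub_distrib]
      apply Finset.sum_congr rfl
      intro k _
      ring
    rw [h4, h0] at h3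
    linarith
  have hfin : -KJ ≤ (2 * Real.pi)⁻¹ * ∫ t in (0 : ℝ)..(2 * Real.pi), F t := by
    have h1 : Real.circleAverage (fun z => Real.log ‖f z‖) 0 r =
        (2 * Real.pi)⁻¹ • ∫ t in (0 : ℝ)..(2 * Real.pi), F t := rfl
    rw [h1, smul_eq_mul] at havg
    exact havg
  rw [le_div_iff₀ hc0]
  have h5 : -KJ * (2 * Real.pi) ≤ ∫ t in (0 : ℝ)..(2 * Real.pi), F t := by
    have : (2 * Real.pi)⁻¹ * (∫ t in (0 : ℝ)..(2 * Real.pi), F t) =
        (∫ t in (0 : ℝ)..(2 * Real.pi), F t) / (2 * Real.pi) := by rw [div_eq_inv_mul]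
    rw [this, le_div_iff₀ (by positivity)] at hfin
    exact hfin
  linarith

end Pool.Agent.W2helper20.PK
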