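import Pool.Agent.W2helper20.PK.Cantor4
import Pool.Agent.W2helper20.PK.Disc2
import Pool.Agent.W2helper20.PK.Compact
import Pool.Agent.W2helper20.PK.Gevrey2

set_option autoImplicit false

open Complex Set Filter Topology Metric MeasureTheory

namespace Pool.Agent.W2helper20.PK

lemma pp_stable (s : ℕ → ℝ) (n k i : ℕ) (hi : i < 2 ^ n) :
    ∃ i' < 2 ^ (n + k), pp s (n + k) i' = pp s n i := by
  refine ⟨2 ^ k * i, ?_, pp_block_left n k i⟩
  rw [pow_add, mul_comm]
  exact Nat.mul_lt_mul_of_pos_right hi (by positivity)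

/-- The limit function of the Cantor construction. -/
theorem exists_limit {α : ℝ} (hα0 : 0 < α) (hα1 : α < 1) :
    ∃ f : ℂ → ℂ, ContinuousOn f (closedBall 0 1) ∧ DifferentiableOn ℂ f (ball 0 1) ∧
      (∃ C : ℝ, ∀ z w : ℂ, ‖z‖ = 1 → ‖w‖ = 1 → ‖f z - f w‖ ≤ C * ‖z - w‖ ^ α) ∧
      (∀ z : ℂ, ‖z‖ ≤ 1 → ‖f z‖ ^ 2 ≤ (f z).re) ∧ f (-1) = 0 ∧
      ∀ n i, i < 2 ^ n → f (zt (pp (ss α) n i)) = 1 := by
  have P := par_ss hα0 hα1
  have L := P.toLen
  set l : ℝ := (1 / 2) ^ (1 / (1 - α)) with hl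
  set s := ss α with hs
  set F : ℕ → ℂ → ℂ := fun n => FF (2 ^ n - 1) (pp s n) (cc s n) (ww α l s n) with hF
  have hS : ∀ n, Sys (2 ^ n - 1) (pp s n) (cc s n) (ww α l s n) := sys_cantor P
  have hH0 : 0 ≤ HC α := by
    have h1 := (est_cantor P 0).B_nonneg
    have h2 : 0 < min (AA α l) (1 / 4) := lt_min (AA_pos P) (by norm_num)
    unfold HC
    rw [← hl]
    positivity
  have hp1 : ∀ n i, |pp s n i| ≤ 1 := by
    intro n i
    rw [abs_of_nonneg (pp_nonneg L n i)]
    exact pp_le_one L n i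
  have hsle : ∀ k, s k ≤ 1 := by
    intro k
    induction k with
    | zero => rw [L.s0]
    | succ k ih => have := L.half k; have := L.pos k; linarith
  have hc : ∀ n, ContinuousOn (F n) (closedBall 0 1) := by
    intro n
    apply FF_continuousOn (hS n) (fun i _ => hp1 n i)
    · intro j hj
      obtain ⟨h1, h2, _⟩ := cc_spec L (show j + 1 < 2 ^ n by omega)
      have h3 := pp_nonneg L n j
      have h4 := pp_le_one L n (j + 1)
      rw [abs_of_nonneg (by linarith)]
      linarith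
    · intro j _
      have h1 := ww_le P n j
      have h2 := eps_le_half P
      have h3 := hsle (gen n j)
      have h4 := eps_pos P
      have h5 := L.pos (gen n j)
      nlinarith
  have hd : ∀ n, DifferentiableOn ℂ (F n) (ball 0 1) := fun n => FF_differentiableOn (hS n)
  have hre : ∀ n, ∀ z : ℂ, ‖z‖ ≤ 1 → ‖F n z‖ ^ 2 ≤ (F n z).re := fun n z hz => FF_re (hS n) hz
  have hb : ∀ n, ∀ z : ℂ, ‖z‖ ≤ 1 → ‖F n z‖ ≤ 1 := by
    intro n z hz
    have h1 := hre n z hz
    have h2 := Complex.re_le_norm (F n z)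
    have h3 := norm_nonneg (F n z)
    by_contra hcon
    push Not at hcon
    nlinarith
  have hHo : ∀ n, ∀ z w : ℂ, ‖z‖ = 1 → ‖w‖ = 1 →
      ‖F n z - F n w‖ ≤ (36 * HC α + 3) * ‖z - w‖ ^ α := by
    intro n z w hz hw
    apply FF_holder (hS n) (pp_zero_idx n) (pp_le_one L n _) hα0 hα1.le hH0 _ hz hw
    exact holder_cantor hα0 hα1 n
  obtain ⟨φ, hφ, f, hf1, hf2, hf3⟩ := compact_limit hα0 F hc hd hb hHo
  refine ⟨f, hf1, hf2, ⟨36 * HC α + 3, ?_⟩, ?_, ?_, ?_⟩
  · intro z w hz hw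
    have h1 := ((hf3 z hz.le).sub (hf3 w hw.le)).norm
    exact le_of_tendsto h1 (Eventually.of_forall fun n => hHo _ z w hz hw)
  · intro z hz
    have h1 := (hf3 z hz).norm.pow 2
    have h2 := (Complex.continuous_re.tendsto _).comp (hf3 z hz)
    exact le_of_tendsto_of_tendsto' h1 h2 fun n => hre _ z hz
  · have h1 := hf3 (-1) (by simp)
    have h2 : ∀ n, F (φ n) (-1) = 0 := fun n => FF_neg_one
    simp only [h2] at h1
    exact (tendsto_nhds_unique h1 tendsto_const_nhds)
  · intro n i hi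
    have h1 := hf3 (zt (pp s n i)) (zt_norm _).le
    have h2 : ∀ᶠ k in atTop, F (φ k) (zt (pp s n i)) = 1 := by
      filter_upwards [hφ.tendsto_atTop.eventually (eventually_ge_atTop n)] with k hk
      obtain ⟨q, hq⟩ : ∃ q, φ k = n + q := ⟨φ k - n, by omega⟩
      obtain ⟨i', hi', he⟩ := pp_stable s n q i hi
      rw [← he, hq]
      exact FF_pole (by omega)
    exact tendsto_nhds_unique h1 (tendsto_const_nhds.congr' (h2.mono fun k hk => hk.symm))

lemma sum_even_odd (f : ℕ → ℝ) (k : ℕ) : ∑ j ∈ Finset.range (2 * k + 1), f j =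
    ∑ j ∈ Finset.range (k + 1), f (2 * j) + ∑ j ∈ Finset.range k, f (2 * j + 1) := by
  induction k with
  | zero => simp
  | succ k ih =>
    have h1 : 2 * (k + 1) + 1 = 2 * k + 1 + 1 + 1 := by ring
    have h2 : 2 * (k + 1) = 2 * k + 1 + 1 := by ring
    rw [h1, Finset.sum_range_succ, Finset.sum_range_succ, ih,
      Finset.sum_range_succ (fun j => f (2 * j)) (k + 1),
      Finset.sum_range_succ (fun j => f (2 * j + 1)) k, h2]
    ring

lemma gen_sum (n : ℕ) : ∑ j ∈ Finset.range (2 ^ n - 1), 1 / (2 ^ (gen n j) * ((gen n j : ℝ) + 1)) =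
    1 / 2 * ∑ g ∈ Finset.range n, 1 / ((g : ℝ) + 2) := by
  induction n with
  | zero => simp
  | succ n ih =>
    have h2n : 1 ≤ 2 ^ n := Nat.one_le_two_pow
    have h1 : 2 ^ (n + 1) - 1 = 2 * (2 ^ n - 1) + 1 := by
      have : 2 ^ (n + 1) = 2 * 2 ^ n := by ring
      omega
    have h2 : 2 ^ n - 1 + 1 = 2 ^ n := by omega
    rw [h1, sum_even_odd, h2]
    have h3 : ∀ j, gen (n + 1) (2 * j) = n + 1 := by
      intro j
      have : 2 * j % 2 = 0 := by omega
      simp [gen, this]
    have h4 : ∀ j, gen (n + 1) (2 * j + 1) = gen n j := by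
      intro j
      have h5 : ¬ (2 * j + 1) % 2 = 0 := by omega
      have h6 : (2 * j + 1) / 2 = j := by omega
      simp only [gen, if_neg h5, h6]
    simp only [h3, h4]
    rw [ih, Finset.sum_const, Finset.card_range, Finset.sum_range_succ, nsmul_eq_mul, mul_add]
    push_cast
    rw [pow_succ]
    field_simp
    ring

lemma zt_exp (x : ℝ) : zt x = Complex.exp ((2 * Real.arctan x : ℝ) * I) := by
  have h1 : ((2 * Real.arctan x : ℝ) : ℂ) * I = (Real.arctan x : ℂ) * I + (Real.arctan x : ℂ) * I := by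
    push_cast; ring
  have hpos : 0 < Real.sqrt (1 + x ^ 2) := by positivity
  have hsq : Real.sqrt (1 + x ^ 2) * Real.sqrt (1 + x ^ 2) = 1 + x ^ 2 :=
    Real.mul_self_sqrt (by positivity)
  have hcne : (Real.sqrt (1 + x ^ 2) : ℂ) ≠ 0 := by exact_mod_cast hpos.ne'
  have h2 : Complex.exp ((Real.arctan x : ℂ) * I) = (1 + x * I) / (Real.sqrt (1 + x ^ 2) : ℂ) := by
    rw [Complex.exp_mul_I, ← Complex.ofReal_cos, ← Complex.ofReal_sin, Real.cos_arctan,
      Real.sin_arctan]
    push_cast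
    field_simp
  rw [h1, Complex.exp_add, h2]
  have hsq' : (Real.sqrt (1 + x ^ 2) : ℂ) * (Real.sqrt (1 + x ^ 2) : ℂ) = 1 + (x : ℂ) ^ 2 := by
    exact_mod_cast hsq
  have h3 : (1 + (x : ℂ) * I) / (Real.sqrt (1 + x ^ 2) : ℂ) *
      ((1 + (x : ℂ) * I) / (Real.sqrt (1 + x ^ 2) : ℂ)) = (1 + x * I) ^ 2 / (1 + (x : ℂ) ^ 2) := by
    rw [div_mul_div_comm, hsq']
    ring
  rw [h3]
  unfold zt
  have h4 := I_add_ne x
  have h5 : (1 + (x : ℂ) ^ 2) ≠ 0 := by
    have : (1 + x ^ 2 : ℝ) ≠ 0 := by positivity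
    exact_mod_cast this
  rw [div_eq_div_iff h4 h5]
  ring_nf
  simp only [Complex.I_sq, show (I : ℂ) ^ 3 = -I by rw [pow_succ, Complex.I_sq]; ring]
  ring

lemma exp_I_sub_le (a b : ℝ) : ‖Complex.exp (a * I) - Complex.exp (b * I)‖ ≤ |a - b| := by
  have h1 : Complex.exp (a * I) - Complex.exp (b * I) =
      Complex.exp (b * I) * (Complex.exp (I * ((a - b : ℝ) : ℂ)) - 1) := by
    rw [mul_sub, ← Complex.exp_add, mul_one]
    congr 2
    push_cast
    ring
  rw [h1, norm_mul, Complex.norm_exp_ofReal_mul_I, one_mul]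
  exact Real.norm_exp_I_mul_ofReal_sub_one_le

lemma arctan_diff {x y : ℝ} (hx : 0 ≤ x) (hxy : x ≤ y) (hy : y ≤ 1) :
    y - x ≤ 2 * (Real.arctan y - Real.arctan x) ∧ Real.arctan y - Real.arctan x ≤ y - x := by
  have hd : ∀ t : ℝ, deriv Real.arctan t = 1 / (1 + t ^ 2) := fun t => by rw [Real.deriv_arctan]
  constructor
  · have h1 := (convex_Icc (0 : ℝ) 1).mul_sub_le_image_sub_of_le_deriv (f := Real.arctan)
      (C := 1 / 2) Real.continuous_arctan.continuousOn
      Real.differentiable_arctan.differentiableOn (by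
        intro t ht
        rw [interior_Icc] at ht
        rw [hd]
        apply one_div_le_one_div_of_le (by positivity)
        nlinarith [ht.1, ht.2]) x ⟨hx, hxy.trans hy⟩ y ⟨hx.trans hxy, hy⟩ hxy
    linarith
  · have h1 := (convex_Icc (0 : ℝ) 1).image_sub_le_mul_sub_of_deriv_le (f := Real.arctan)
      (C := 1) Real.continuous_arctan.continuousOn
      Real.differentiable_arctan.differentiableOn (by
        intro t ht
        rw [hd, div_le_one (by positivity)]
        nlinarith [sq_nonneg t]) x ⟨hx, hxy.trans hy⟩ y ⟨hx.trans hxy, hy⟩ hxy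
    linarith

/-- A set containing the Cantor points is not a zero set. -/
theorem cantor_not_zero {α : ℝ} (hα0 : 0 < α) (hα1 : α < 1) {E : Set ℂ} (hE : ∀ ζ ∈ E, ‖ζ‖ = 1)
    (hEp : ∀ n i, i < 2 ^ n → zt (pp (ss α) n i) ∈ E)
    {f : ℂ → ℂ} (hf : DifferentiableOn ℂ f (ball 0 1))
    {C : ℝ} (hG : ∀ n : ℕ, ∀ z : ℂ, ‖z‖ < 1 →
      ‖iteratedDeriv n f z‖ ≤ C ^ (n + 1) * (n.factorial : ℝ) ^ (1 + 1 / α))
    (hne : ∃ z : ℂ, ‖z‖ < 1 ∧ f z ≠ 0)
    (hflat : ∀ n, ∀ ζ ∈ E, Tendsto (iteratedDeriv n f) (𝓝[ball 0 1] ζ) (𝓝 0)) : False := by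
  have P := par_ss hα0 hα1
  have L := P.toLen
  set l : ℝ := (1 / 2) ^ (1 / (1 - α)) with hl
  set s := ss α with hs
  obtain ⟨K, hK⟩ := zero_bound hα0 hf hG hne hE hflat
  set κ : ℝ := 1 - l / (1 - l) with hκ
  have hκ0 : 0 < κ := by have := L.tau_lt; linarith
  have hκ1 : κ ≤ 1 := by have := L.tau_pos; linarith
  have hbound : ∀ n : ℕ, κ / 4 * ∑ g ∈ Finset.range n, 1 / ((g : ℝ) + 2) ≤ K := by
    intro n
    have h1 := hK (2 ^ n - 1) (fun j => 2 * Real.arctan (pp s n j))
      (fun j => 2 * (pp s n (j + 1) - pp s n j)) (fun j => zt (pp s n j))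
      (by simp [pp_zero_idx])
      (by
        intro j hj
        have := pp_mono L n (Nat.le_succ j) (by omega)
        have := Real.arctan_strictMono.monotone this
        rw [Nat.succ_eq_add_one] at this
        simpa using this)
      (by
        have h2 := Real.arctan_lt_pi_div_two (pp s n (2 ^ n - 1))
        have := Real.pi_pos
        show 2 * Real.arctan (pp s n (2 ^ n - 1)) ≤ 2 * Real.pi
        linarith)
      (by
        intro j hj
        have h2 := pp_sep L n (Nat.lt_succ_self j) (by omega)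
        have h3 := L.pos n
        rw [Nat.succ_eq_add_one] at h2
        show 0 < 2 * (pp s n (j + 1) - pp s n j)
        linarith)
      (by
        intro j hj
        exact hEp n j (by omega))
      (by
        intro j hj t ht
        show ‖Complex.exp (t * I) - zt (pp s n j)‖ ≤ 2 * (pp s n (j + 1) - pp s n j)
        rw [zt_exp]
        refine (exp_I_sub_le _ _).trans ?_
        have h2 := pp_mono L n (Nat.le_succ j) (by omega)
        have h3 := (arctan_diff (pp_nonneg L n j) h2 (pp_le_one L n _)).2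
        rw [Nat.succ_eq_add_one] at h3
        have ht1 : 2 * Real.arctan (pp s n j) ≤ t := ht.1
        have ht2 : t ≤ 2 * Real.arctan (pp s n (j + 1)) := ht.2
        rw [abs_of_nonneg (by linarith)]
        linarith)
    refine le_trans ?_ h1
    have h2 : κ / 4 * ∑ g ∈ Finset.range n, 1 / ((g : ℝ) + 2) =
        ∑ j ∈ Finset.range (2 ^ n - 1), κ / 2 * (1 / (2 ^ (gen n j) * ((gen n j : ℝ) + 1))) := by
      rw [← Finset.mul_sum, gen_sum]
      ring
    rw [h2]
    apply Finset.sum_le_sum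
    intro j hj
    have hj' : j + 1 < 2 ^ n := by have := Finset.mem_range.1 hj; omega
    have h3 := gap_len L n hj'
    rw [← hκ] at h3
    set ℓ := pp s n (j + 1) - pp s n j with hℓ
    have hsg := L.pos (gen n j)
    have hℓ0 : 0 < ℓ := lt_of_lt_of_le (by positivity) h3.1
    have h4 := (arctan_diff (pp_nonneg L n j) (by linarith : pp s n j ≤ pp s n (j + 1))
      (pp_le_one L n _)).1
    rw [← P.eq (gen n j)]
    have h5 : κ * s (gen n j) ^ (1 - α) ≤ ℓ ^ (1 - α) := by
      calc κ * s (gen n j) ^ (1 - α) ≤ κ ^ (1 - α) * s (gen n j) ^ (1 - α) := by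
            apply mul_le_mul_of_nonneg_right _ (Real.rpow_nonneg hsg.le _)
            conv_lhs => rw [← Real.rpow_one κ]
            exact Real.rpow_le_rpow_of_exponent_ge hκ0 hκ1 (by linarith)
        _ = (κ * s (gen n j)) ^ (1 - α) := (Real.mul_rpow hκ0.le hsg.le).symm
        _ ≤ ℓ ^ (1 - α) := Real.rpow_le_rpow (by positivity) h3.1 (by linarith)
    have h6 : ℓ * (2 * ℓ) ^ (-α) = 2 ^ (-α) * ℓ ^ (1 - α) := by
      rw [Real.mul_rpow (by norm_num) hℓ0.le, sub_eq_add_neg, Real.rpow_add hℓ0, Real.rpow_one]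
      ring
    have h7 : (1 / 2 : ℝ) ≤ 2 ^ (-α) := by
      calc (1 / 2 : ℝ) = 2 ^ (-1 : ℝ) := by rw [Real.rpow_neg_one]; norm_num
        _ ≤ 2 ^ (-α) := Real.rpow_le_rpow_of_exponent_le (by norm_num) (by linarith)
    have h8 : 0 ≤ ℓ ^ (1 - α) := Real.rpow_nonneg hℓ0.le _
    calc κ / 2 * s (gen n j) ^ (1 - α) = 1 / 2 * (κ * s (gen n j) ^ (1 - α)) := by ring
      _ ≤ 1 / 2 * ℓ ^ (1 - α) := by gcongr
      _ ≤ 2 ^ (-α) * ℓ ^ (1 - α) := by gcongr
      _ = ℓ * (2 * ℓ) ^ (-α) := h6.symm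
      _ ≤ (2 * Real.arctan (pp s n (j + 1)) - 2 * Real.arctan (pp s n j)) * (2 * ℓ) ^ (-α) := by
          apply mul_le_mul_of_nonneg_right _ (Real.rpow_nonneg (by positivity) _)
          linarith
  have hdiv := Real.tendsto_sum_range_one_div_nat_succ_atTop
  obtain ⟨n, hn⟩ := (hdiv.eventually (eventually_gt_atTop (4 * K / κ + 1))).exists
  have h1 := hbound n
  have h2 : ∑ i ∈ Finset.range n, (1 : ℝ) / ((i : ℝ) + 1) ≤
      1 + ∑ g ∈ Finset.range n, 1 / ((g : ℝ) + 2) := by
    rcases n with _ | n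
    · simp
    · rw [Finset.sum_range_succ']
      have h3 : ∑ k ∈ Finset.range n, (1 : ℝ) / (((k + 1 : ℕ) : ℝ) + 1) ≤
          ∑ g ∈ Finset.range (n + 1), 1 / ((g : ℝ) + 2) := by
        rw [Finset.sum_range_succ]
        have h4 : ∑ k ∈ Finset.range n, (1 : ℝ) / (((k + 1 : ℕ) : ℝ) + 1) =
            ∑ g ∈ Finset.range n, 1 / ((g : ℝ) + 2) := by
          apply Finset.sum_congr rfl
          intro k _
          push_cast
          ring_nf
        rw [h4]
        have : (0 : ℝ) ≤ 1 / ((n : ℝ) + 2) := by positivity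
        linarith
      simp only [Nat.cast_zero, zero_add, div_one]
      linarith
  have h3 : 4 * K / κ < ∑ g ∈ Finset.range n, 1 / ((g : ℝ) + 2) := by linarith
  rw [div_lt_iff₀ hκ0] at h3
  linarith

/-- A point is not a zero set when `α = 1`. -/
theorem point_not_zero {E : Set ℂ} (hE : ∀ ζ ∈ E, ‖ζ‖ = 1) (hE1 : (1 : ℂ) ∈ E)
    {f : ℂ → ℂ} (hf : DifferentiableOn ℂ f (ball 0 1))
    {C : ℝ} (hG : ∀ n : ℕ, ∀ z : ℂ, ‖z‖ < 1 →
      ‖iteratedDeriv n f z‖ ≤ C ^ (n + 1) * (n.factorial : ℝ) ^ (1 + 1 / (1 : ℝ)))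
    (hne : ∃ z : ℂ, ‖z‖ < 1 ∧ f z ≠ 0)
    (hflat : ∀ n, ∀ ζ ∈ E, Tendsto (iteratedDeriv n f) (𝓝[ball 0 1] ζ) (𝓝 0)) : False := by
  obtain ⟨K, hK⟩ := zero_bound one_pos hf hG hne hE hflat
  have hbound : ∀ m : ℕ, (m : ℝ) / 2 ≤ K := by
    intro m
    have h2m : (0 : ℝ) < 2 ^ m := by positivity
    have h1 := hK m (fun j => if j = 0 then 0 else 2 ^ j / 2 ^ m) (fun j => 2 ^ (j + 1) / 2 ^ m)
      (fun _ => 1) (by simp)
      (by
        intro j _
        rcases Nat.eq_zero_or_pos j with h | h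
        · subst h; simp only [if_true]; positivity
        · simp only [if_neg h.ne', Nat.succ_ne_zero, if_false]
          gcongr
          · norm_num
          · omega)
      (by
        have hpi := Real.pi_gt_three
        rcases Nat.eq_zero_or_pos m with h | h
        · subst h; simp only [if_true]; positivity
        · simp only [if_neg h.ne', div_self h2m.ne']
          linarith)
      (by intro j _; positivity) (by intro j _; exact hE1)
      (by
        intro j _ t ht
        have h2 := exp_I_sub_le t 0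
        simp only [Complex.ofReal_zero, zero_mul, Complex.exp_zero, sub_zero] at h2
        refine h2.trans ?_
        have ht1 := ht.1
        have ht2 := ht.2
        simp only [Nat.succ_ne_zero, if_false] at ht2
        have ht0 : 0 ≤ t := by
          refine le_trans ?_ ht1
          split_ifs
          · exact le_rfl
          · positivity
        rw [abs_of_nonneg ht0]
        exact ht2)
    refine le_trans ?_ h1
    calc (m : ℝ) / 2 = ∑ j ∈ Finset.range m, (1 / 2 : ℝ) := by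
          rw [Finset.sum_const, Finset.card_range, nsmul_eq_mul]; ring
      _ ≤ _ := by
          apply Finset.sum_le_sum
          intro j _
          simp only [Nat.succ_ne_zero, if_false]
          rw [Real.rpow_neg_one]
          have h2j : (0 : ℝ) < 2 ^ j := by positivity
          split_ifs with h
          · rw [sub_zero, mul_inv_cancel₀ (by positivity)]
            norm_num
          · have : ((2 : ℝ) ^ (j + 1) / 2 ^ m - 2 ^ j / 2 ^ m) * (2 ^ (j + 1) / 2 ^ m)⁻¹ = 1 / 2 := by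
              rw [pow_succ]
              field_simp
              ring
            rw [this]
  obtain ⟨m, hm⟩ := exists_nat_gt (2 * K)
  have := hbound m
  linarith

end Pool.Agent.W2helper20.PK
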