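import Mathlib

set_option autoImplicit false

open Complex Set Filter Topology Metric MeasureTheory

namespace Pool.Agent.W2helper20.PK

/-- One integration step. -/
lemma flat_step {g h : ℂ → ℂ} {ζ : ℂ} (hζ : ‖ζ‖ = 1) {M : ℝ} {k : ℕ}
    (hg : ∀ z : ℂ, ‖z‖ < 1 → HasDerivAt g (h z) z)
    (hgζ : Tendsto g (𝓝[ball 0 1] ζ) (𝓝 0))
    (hh : ∀ z : ℂ, ‖z‖ < 1 → ‖h z‖ ≤ M * ‖z - ζ‖ ^ k / k.factorial) {z : ℂ} (hz : ‖z‖ < 1) :
    ‖g z‖ ≤ M * ‖z - ζ‖ ^ (k + 1) / (k + 1).factorial := by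
  set γ : ℝ → ℂ := fun t => ζ + t * (z - ζ) with hγ
  have hγball : ∀ t : ℝ, 0 < t → t ≤ 1 → ‖γ t‖ < 1 := by
    intro t ht0 ht1
    have h1 : γ t = ((1 - t : ℝ) : ℂ) * ζ + (t : ℂ) * z := by
      simp only [hγ]; push_cast; ring
    rw [h1]
    calc ‖((1 - t : ℝ) : ℂ) * ζ + (t : ℂ) * z‖ ≤ ‖((1 - t : ℝ) : ℂ) * ζ‖ + ‖(t : ℂ) * z‖ :=
          norm_add_le _ _
      _ = (1 - t) + t * ‖z‖ := by
          rw [norm_mul, norm_mul, Complex.norm_real, Complex.norm_real, hζ,
            Real.norm_of_nonneg (by linarith), Real.norm_of_nonneg ht0.le, mul_one]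
      _ < 1 := by nlinarith
  have hγz : γ 1 = z := by simp [hγ]
  have hγdist : ∀ t : ℝ, 0 < t → ‖γ t - ζ‖ = t * ‖z - ζ‖ := by
    intro t ht
    have : γ t - ζ = (t : ℂ) * (z - ζ) := by simp only [hγ]; ring
    rw [this, norm_mul, Complex.norm_real, Real.norm_of_nonneg ht.le]
  have hγd : ∀ t : ℝ, HasDerivAt γ (z - ζ) t := by
    intro t
    have h1 : HasDerivAt (fun t : ℝ => (t : ℂ)) 1 t := Complex.ofRealCLM.hasDerivAt
    have h2 := (h1.mul_const (z - ζ)).const_add ζ
    rwa [one_mul] at h2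
  have hcomp : ∀ t : ℝ, 0 < t → t ≤ 1 → HasDerivAt (fun t => g (γ t)) (h (γ t) * (z - ζ)) t := by
    intro t ht0 ht1
    exact (hg _ (hγball t ht0 ht1)).comp t (hγd t)
  set D := ‖z - ζ‖ with hD
  have hM : 0 ≤ M := by
    have h1 := hh z hz
    have h2 : 0 < ‖z - ζ‖ := by
      apply norm_pos_iff.2
      intro h3
      have : z = ζ := by linear_combination h3
      rw [this, hζ] at hz
      exact lt_irrefl _ hz
    by_contra hcon
    push Not at hcon
    have h3 : M * ‖z - ζ‖ ^ k / k.factorial < 0 := by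
      apply div_neg_of_neg_of_pos
      · exact mul_neg_of_neg_of_pos hcon (by positivity)
      · exact_mod_cast Nat.factorial_pos k
    have := norm_nonneg (h z)
    linarith
  have key : ∀ ε : ℝ, 0 < ε → ε < 1 → ‖g z - g (γ ε)‖ ≤ M * D ^ (k + 1) / (k + 1).factorial := by
    intro ε hε0 hε1
    have h1 := image_norm_le_of_norm_deriv_right_le_deriv_boundary
      (f := fun t : ℝ => g (γ t) - g (γ ε)) (f' := fun t => h (γ t) * (z - ζ)) (a := ε) (b := 1)
      (B := fun t => M * D ^ (k + 1) * t ^ (k + 1) / (k + 1).factorial)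
      (B' := fun t => M * D ^ (k + 1) * (((k + 1 : ℕ) : ℝ) * t ^ k) / (k + 1).factorial)
      (by
        intro t ht
        have := (hcomp t (by linarith [ht.1]) ht.2).continuousAt
        exact (this.sub continuousAt_const).continuousWithinAt)
      (by
        intro t ht
        have := hcomp t (by linarith [ht.1]) ht.2.le
        exact (this.sub_const _).hasDerivWithinAt)
      (by
        simp only [sub_self, norm_zero]
        positivity)
      (by
        intro t
        have h2 := hasDerivAt_pow (k + 1) t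
        simp only [Nat.add_sub_cancel] at h2
        exact (h2.const_mul _).div_const _)
      (by
        intro t ht
        have ht0 : 0 < t := by linarith [ht.1]
        have h3 := hh (γ t) (hγball t ht0 ht.2.le)
        rw [hγdist t ht0] at h3
        rw [norm_mul]
        calc ‖h (γ t)‖ * ‖z - ζ‖ ≤ M * (t * ‖z - ζ‖) ^ k / k.factorial * ‖z - ζ‖ := by gcongr
          _ = M * D ^ (k + 1) * (((k + 1 : ℕ) : ℝ) * t ^ k) / (k + 1).factorial := by
              rw [Nat.factorial_succ, ← hD]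
              push_cast
              have h4 : (0 : ℝ) < k.factorial := by exact_mod_cast Nat.factorial_pos k
              have h5 : (0 : ℝ) < (k : ℝ) + 1 := by positivity
              field_simp
              ring) (x := 1) ⟨hε1.le, le_rfl⟩
    simp only [hγz, one_pow, mul_one] at h1
    exact h1
  have hlim : Tendsto (fun ε : ℝ => g (γ ε)) (𝓝[>] 0) (𝓝 0) := by
    apply hgζ.comp
    apply tendsto_nhdsWithin_iff.2
    constructor
    · have h1 : Continuous γ := by simp only [hγ]; fun_prop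
      have h2 := h1.tendsto 0
      simp only [hγ, Complex.ofReal_zero, zero_mul, add_zero] at h2
      exact h2.mono_left nhdsWithin_le_nhds
    · filter_upwards [Ioo_mem_nhdsGT (show (0 : ℝ) < 1 by norm_num)] with ε hε
      rw [mem_ball_zero_iff]
      exact hγball ε hε.1 hε.2.le
  have hlim2 : Tendsto (fun ε : ℝ => ‖g z - g (γ ε)‖) (𝓝[>] 0) (𝓝 ‖g z - 0‖) :=
    (hlim.const_sub (g z)).norm
  rw [sub_zero] at hlim2
  apply le_of_tendsto hlim2
  filter_upwards [Ioo_mem_nhdsGT (show (0 : ℝ) < 1 by norm_num)] with ε hε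
  exact key ε hε.1 hε.2

/-- Taylor estimate at a flat boundary point. -/
lemma flat_taylor {f : ℂ → ℂ} (hf : DifferentiableOn ℂ f (ball 0 1)) {ζ : ℂ} (hζ : ‖ζ‖ = 1)
    (hflat : ∀ n, Tendsto (iteratedDeriv n f) (𝓝[ball 0 1] ζ) (𝓝 0)) {M : ℝ} {n : ℕ}
    (hM : ∀ z : ℂ, ‖z‖ < 1 → ‖iteratedDeriv n f z‖ ≤ M) {z : ℂ} (hz : ‖z‖ < 1) :
    ‖f z‖ ≤ M * ‖z - ζ‖ ^ n / n.factorial := by
  have hana : AnalyticOnNhd ℂ f (ball 0 1) := hf.analyticOnNhd isOpen_ball
  have key : ∀ k ≤ n, ∀ z : ℂ, ‖z‖ < 1 →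
      ‖iteratedDeriv (n - k) f z‖ ≤ M * ‖z - ζ‖ ^ k / k.factorial := by
    intro k
    induction k with
    | zero =>
      intro _ z hz
      simpa using hM z hz
    | succ k ih =>
      intro hk z hz
      have e1 : n - k = n - (k + 1) + 1 := by omega
      apply flat_step (g := iteratedDeriv (n - (k + 1)) f) (h := iteratedDeriv (n - k) f) hζ _
        (hflat _) (ih (by omega)) hz
      intro y hy
      have hy' : y ∈ ball (0 : ℂ) 1 := by simpa using hy
      have h1 : AnalyticAt ℂ (iteratedDeriv (n - (k + 1)) f) y := by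
        rw [iteratedDeriv_eq_iterate]
        exact (hana y hy').iterated_deriv _
      rw [e1, iteratedDeriv_succ]
      exact h1.differentiableAt.hasDerivAt
  have := key n le_rfl z hz
  simpa using this

/-- Optimisation over `n`. -/
lemma flat_bound {α : ℝ} (hα0 : 0 < α) {f : ℂ → ℂ} (hf : DifferentiableOn ℂ f (ball 0 1)) {C : ℝ}
    (hC1 : 1 ≤ C)
    (hG : ∀ n : ℕ, ∀ z : ℂ, ‖z‖ < 1 →
      ‖iteratedDeriv n f z‖ ≤ C ^ (n + 1) * (n.factorial : ℝ) ^ (1 + 1 / α))
    {ζ : ℂ} (hζ : ‖ζ‖ = 1) (hflat : ∀ n, Tendsto (iteratedDeriv n f) (𝓝[ball 0 1] ζ) (𝓝 0))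
    {z : ℂ} (hz : ‖z‖ < 1) {d : ℝ} (hd : 0 < d) (hzd : ‖z - ζ‖ ≤ d) :
    ‖f z‖ ≤ Real.exp (Real.log C + 1 - (1 / (Real.exp 1 * C * d)) ^ α) := by
  have hC0 : 0 < C := by linarith
  set X := (1 / (Real.exp 1 * C * d)) ^ α with hX
  have hX0 : 0 < X := by positivity
  set n := ⌊X⌋₊ with hn
  have hn1 : (n : ℝ) ≤ X := Nat.floor_le hX0.le
  have hn2 : X < n + 1 := Nat.lt_floor_add_one X
  have h1 := flat_taylor hf hζ hflat (hG n) hz
  have hfac : (0 : ℝ) < n.factorial := by exact_mod_cast Nat.factorial_pos n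
  have h2 : (n.factorial : ℝ) ^ (1 + 1 / α) = n.factorial * (n.factorial : ℝ) ^ (1 / α) := by
    rw [Real.rpow_add hfac, Real.rpow_one]
  have h3 : (n.factorial : ℝ) ^ (1 / α) ≤ (1 / (Real.exp 1 * C * d)) ^ n := by
    calc (n.factorial : ℝ) ^ (1 / α) ≤ ((n : ℝ) ^ n) ^ (1 / α) := by
          apply Real.rpow_le_rpow hfac.le _ (by positivity)
          exact_mod_cast Nat.factorial_le_pow n
      _ ≤ (X ^ n) ^ (1 / α) := by gcongr
      _ = (X ^ (1 / α)) ^ n := by
          rw [← Real.rpow_natCast, ← Real.rpow_mul hX0.le, mul_comm, Real.rpow_mul hX0.le,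
            Real.rpow_natCast]
      _ = (1 / (Real.exp 1 * C * d)) ^ n := by
          congr 1
          rw [hX, ← Real.rpow_mul (by positivity)]
          have : α * (1 / α) = 1 := by field_simp
          rw [this, Real.rpow_one]
  calc ‖f z‖ ≤ C ^ (n + 1) * (n.factorial : ℝ) ^ (1 + 1 / α) * ‖z - ζ‖ ^ n / n.factorial := h1
    _ = C ^ (n + 1) * (n.factorial : ℝ) ^ (1 / α) * ‖z - ζ‖ ^ n := by
        rw [h2]; field_simp
    _ ≤ C ^ (n + 1) * (1 / (Real.exp 1 * C * d)) ^ n * d ^ n := by gcongr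
    _ = C * Real.exp (-(n : ℝ)) := by
        rw [Real.exp_neg, ← Real.exp_one_pow]
        rw [pow_succ, div_pow, mul_pow, mul_pow, one_pow]
        field_simp
    _ ≤ C * Real.exp (1 - X) := by
        gcongr
        linarith
    _ = Real.exp (Real.log C + 1 - X) := by
        rw [show Real.log C + 1 - X = Real.log C + (1 - X) by ring, Real.exp_add, Real.exp_log hC0]

/-- Almost everywhere non-vanishing on circles. -/
lemma ae_ne {f : ℂ → ℂ} (hf : DifferentiableOn ℂ f (ball 0 1)) (hne : ∃ z : ℂ, ‖z‖ < 1 ∧ f z ≠ 0)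
    {r : ℝ} (hr0 : 0 < r) (hr1 : r < 1) : ∀ᵐ θ : ℝ, f (circleMap 0 r θ) ≠ 0 := by
  have hana : AnalyticOnNhd ℂ f (ball 0 1) := hf.analyticOnNhd isOpen_ball
  obtain ⟨x, hx1, hx2⟩ := hne
  have h1 : f ⁻¹' {0}ᶜ ∈ codiscreteWithin (ball (0 : ℂ) 1) :=
    hana.preimage_zero_mem_codiscreteWithin hx2 (by simpa using hx1)
      (isConnected_ball (by norm_num))
  have h2 : f ⁻¹' {0}ᶜ ∈ codiscreteWithin (sphere (0 : ℂ) |r|) := by
    apply codiscreteWithin_mono _ h1
    rw [abs_of_pos hr0]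
    exact sphere_subset_ball hr1
  have h3 := circleMap_preimage_codiscrete (c := 0) hr0.ne' h2
  have h4 := ae_restrict_le_codiscreteWithin (μ := (volume : Measure ℝ)) MeasurableSet.univ h3
  rw [Measure.restrict_univ] at h4
  exact h4

/-- Lower bound for circle averages. -/
lemma jensen_lower {f : ℂ → ℂ} (hf : DifferentiableOn ℂ f (ball 0 1)) :
    ∃ K : ℝ, ∀ r : ℝ, 1 / 2 ≤ r → r < 1 →
      -K ≤ Real.circleAverage (fun z => Real.log ‖f z‖) 0 r := by
  have hana : AnalyticOnNhd ℂ f (ball 0 1) := hf.analyticOnNhd isOpen_ball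
  set N : ℤ := ((analyticOrderAt f 0).map (fun n : ℕ => (n : ℤ))).untop₀ with hN
  refine ⟨|(N : ℝ)| * Real.log 2 - Real.log ‖meromorphicTrailingCoeffAt f 0‖, fun r hr1 hr2 => ?_⟩
  have hr0 : 0 < r := by linarith
  have hsub : closedBall (0 : ℂ) |r| ⊆ ball 0 1 := by
    rw [abs_of_pos hr0]
    exact closedBall_subset_ball hr2
  have h1 := MeromorphicOn.circleAverage_log_norm (c := 0) (R := r) (f := f) hr0.ne'
    (hana.mono hsub).meromorphicOn
  rw [h1, MeromorphicOn.AnalyticOnNhd.divisor_apply (hana.mono hsub) (mem_closedBall_self (abs_nonneg _))]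
  have h2 : 0 ≤ ∑ᶠ u, (MeromorphicOn.divisor f (closedBall 0 |r|) u : ℝ) *
      Real.log (r * ‖0 - u‖⁻¹) := by
    apply finsum_nonneg
    intro u
    by_cases hu : u ∈ closedBall (0 : ℂ) |r|
    · apply mul_nonneg
      · have := MeromorphicOn.AnalyticOnNhd.divisor_nonneg (hana.mono hsub)
        exact_mod_cast this u
      · rcases eq_or_ne u 0 with h | h
        · rw [h]; simp
        · apply Real.log_nonneg
          have h3 : 0 < ‖u‖ := norm_pos_iff.2 h
          rw [zero_sub, norm_neg, ← div_eq_mul_inv, le_div_iff₀ h3, one_mul]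
          rw [mem_closedBall_zero_iff, abs_of_pos hr0] at hu
          exact hu
    · rw [Function.locallyFinsuppWithin.apply_eq_zero_of_notMem _ hu]
      simp
  have h3 : -(|(N : ℝ)| * Real.log 2) ≤ (N : ℝ) * Real.log r := by
    have h4 : |Real.log r| ≤ Real.log 2 := by
      rw [abs_of_nonpos (Real.log_nonpos hr0.le hr2.le)]
      have : Real.log (1 / 2) ≤ Real.log r := Real.log_le_log (by norm_num) hr1
      rw [one_div, Real.log_inv] at this
      linarith
    have h5 : |(N : ℝ) * Real.log r| ≤ |(N : ℝ)| * Real.log 2 := by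
      rw [abs_mul]; gcongr
    have := neg_abs_le ((N : ℝ) * Real.log r)
    linarith
  linarith

end Pool.Agent.W2helper20.PK
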