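import Mathlib

set_option autoImplicit false

open Complex Set Filter Topology

namespace Pool.Agent.W2helper20.PK

/-- A Hölder estimate from bounds in terms of a regularised distance. -/
lemma holder_of_rho {α C : ℝ} (hα0 : 0 < α) (hα1 : α < 1) (hC : 0 ≤ C) {G G' : ℝ → ℂ} {ρ : ℝ → ℝ}
    (hρ0 : ∀ x, 0 ≤ ρ x) (hρ : ∀ x y, ρ x ≤ ρ y + |x - y|)
    (hG0 : ∀ x, ρ x = 0 → G x = 0)
    (hG1 : ∀ x, 0 < ρ x → ‖G x‖ ≤ C * (ρ x ^ α + ρ x))
    (hG2 : ∀ x, 0 < ρ x → HasDerivAt G (G' x) x)
    (hG3 : ∀ x, 0 < ρ x → ‖G' x‖ ≤ C * (ρ x ^ (α - 1) + 1)) (x y : ℝ) :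
    ‖G x - G y‖ ≤ 5 * C * (|x - y| ^ α + |x - y|) := by
  have hGall : ∀ x, ‖G x‖ ≤ C * (ρ x ^ α + ρ x) := by
    intro x
    rcases (hρ0 x).eq_or_lt with h | h
    · rw [hG0 x h.symm, norm_zero, ← h, Real.zero_rpow hα0.ne']
      simp
    · exact hG1 x h
  rcases eq_or_ne x y with hxy | hxy
  · rw [hxy, sub_self, norm_zero]
    positivity
  have hd : 0 < |x - y| := abs_pos.2 (sub_ne_zero.2 hxy)
  by_cases hcase : |x - y| ≤ ρ x / 2
  · -- mean value
    have hseg : ∀ t ∈ Icc (min x y) (max x y), ρ x / 2 ≤ ρ t := by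
      intro t ht
      have h1 := hρ x t
      have h2 : |x - t| ≤ |x - y| := by
        rw [abs_le, ]
        rcases le_total x y with h | h
        · rw [min_eq_left h, max_eq_right h] at ht
          rw [abs_of_nonpos (by linarith)]
          constructor <;> linarith [ht.1, ht.2]
        · rw [min_eq_right h, max_eq_left h] at ht
          rw [abs_of_nonneg (by linarith)]
          constructor <;> linarith [ht.1, ht.2]
      linarith
    have hρx : 0 < ρ x := by linarith
    have hbound : ∀ t ∈ Icc (min x y) (max x y), ‖G' t‖ ≤ C * (|x - y| ^ (α - 1) + 1) := by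
      intro t ht
      have h1 := hseg t ht
      have h2 : 0 < ρ t := by linarith
      refine (hG3 t h2).trans ?_
      apply mul_le_mul_of_nonneg_left _ hC
      have h3 : ρ t ^ (α - 1) ≤ |x - y| ^ (α - 1) := by
        apply Real.rpow_le_rpow_of_nonpos hd (by linarith) (by linarith)
      linarith
    have hmv : ‖G x - G y‖ ≤ C * (|x - y| ^ (α - 1) + 1) * ‖x - y‖ := by
      apply Convex.norm_image_sub_le_of_norm_hasDerivWithin_le (s := Icc (min x y) (max x y))
        (f := G) (f' := G') _ hbound (convex_Icc _ _) (by simp) (by simp)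
      intro t ht
      have h1 := hseg t ht
      exact (hG2 t (by linarith)).hasDerivWithinAt
    refine hmv.trans ?_
    rw [Real.norm_eq_abs]
    have h4 : |x - y| ^ (α - 1) * |x - y| = |x - y| ^ α := by
      rw [← Real.rpow_add_one hd.ne']
      congr 1
      ring
    have h5 : C * (|x - y| ^ (α - 1) + 1) * |x - y| = C * (|x - y| ^ α + |x - y|) := by
      rw [← h4]; ring
    rw [h5]
    have h6 : 0 ≤ |x - y| ^ α + |x - y| := by positivity
    nlinarith
  · push Not at hcase
    have h1 : ρ x ≤ 2 * |x - y| := by linarith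
    have h2 : ρ y ≤ 3 * |x - y| := by
      have := hρ y x
      rw [abs_sub_comm] at this
      linarith
    have h3 : ∀ k : ℝ, 1 ≤ k → ∀ r, 0 ≤ r → r ≤ k * |x - y| → r ^ α + r ≤ k * (|x - y| ^ α + |x - y|) := by
      intro k hk r hr hrk
      have h4 : r ^ α ≤ (k * |x - y|) ^ α := Real.rpow_le_rpow hr hrk hα0.le
      rw [Real.mul_rpow (by linarith) hd.le] at h4
      have h5 : k ^ α ≤ k := by
        conv_rhs => rw [← Real.rpow_one k]
        exact Real.rpow_le_rpow_of_exponent_le hk hα1.le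
      have h6 : 0 ≤ |x - y| ^ α := by positivity
      nlinarith
    calc ‖G x - G y‖ ≤ ‖G x‖ + ‖G y‖ := norm_sub_le _ _
      _ ≤ C * (2 * (|x - y| ^ α + |x - y|)) + C * (3 * (|x - y| ^ α + |x - y|)) := by
          apply add_le_add
          · exact (hGall x).trans (mul_le_mul_of_nonneg_left (h3 2 (by norm_num) _ (hρ0 x) h1) hC)
          · exact (hGall y).trans (mul_le_mul_of_nonneg_left (h3 3 (by norm_num) _ (hρ0 y) h2) hC)
      _ = 5 * C * (|x - y| ^ α + |x - y|) := by ring

end Pool.Agent.W2helper20.PK
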