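import Pool.Agent.W2helper20.PK.Bdry

set_option autoImplicit false

open Complex Set Filter Topology

namespace Pool.Agent.W2helper20.PK

/-- Polar form in the right half plane. -/
lemma polar_right {u : ℂ} (hu : 0 < u.re) :
    u = ‖u‖ * Complex.exp ((Real.arctan (u.im / u.re) : ℝ) * I) := by
  have h1 : ‖u‖ = u.re * Real.sqrt (1 + (u.im / u.re) ^ 2) := by
    rw [Complex.norm_def, Complex.normSq_apply]
    rw [show u.re * u.re + u.im * u.im = u.re ^ 2 * (1 + (u.im / u.re) ^ 2) by field_simp]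
    rw [Real.sqrt_mul (by positivity), Real.sqrt_sq hu.le]
  have hs : 0 < Real.sqrt (1 + (u.im / u.re) ^ 2) := by positivity
  apply Complex.ext
  · rw [Complex.re_ofReal_mul, Complex.exp_ofReal_mul_I_re, Real.cos_arctan, h1]
    field_simp
  · rw [Complex.im_ofReal_mul, Complex.exp_ofReal_mul_I_im, Real.sin_arctan, h1]
    field_simp

/-- The argument of a point of the upper half plane. -/
noncomputable def ang (z : ℂ) : ℝ := Real.pi / 2 - Real.arctan (z.re / z.im)

lemma ang_pos (z : ℂ) : 0 < ang z := by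
  have := Real.arctan_lt_pi_div_two (z.re / z.im)
  unfold ang; linarith

lemma ang_lt (z : ℂ) : ang z < Real.pi := by
  have := Real.neg_pi_div_two_lt_arctan (z.re / z.im)
  unfold ang; linarith

lemma polar_up {z : ℂ} (hz : 0 < z.im) : z = ‖z‖ * Complex.exp ((ang z : ℝ) * I) := by
  have h1 : 0 < (-I * z).re := by simpa using hz
  have h2 := polar_right h1
  have h3 : ‖-I * z‖ = ‖z‖ := by simp
  have h4 : (-I * z).im / (-I * z).re = -(z.re / z.im) := by
    simp [neg_div]
  rw [h3, h4, Real.arctan_neg] at h2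
  have h5 : z = I * (-I * z) := by
    rw [← mul_assoc]; simp
  have h6 : ((ang z : ℝ) : ℂ) * I = (Real.pi / 2 : ℂ) * I + ((-Real.arctan (z.re / z.im) : ℝ) : ℂ) * I := by
    unfold ang; push_cast; ring
  rw [h6, Complex.exp_add, Complex.exp_pi_div_two_mul_I]
  calc z = I * (-I * z) := h5
    _ = I * (‖z‖ * Complex.exp (((-Real.arctan (z.re / z.im) : ℝ) : ℂ) * I)) := by rw [← h2]
    _ = _ := by ring

lemma ang_mono {z : ℂ} (hz : 0 < z.im) {p q : ℝ} (h : p ≤ q) : ang (z - p) ≤ ang (z - q) := by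
  unfold ang
  have : Real.arctan ((z - q).re / (z - q).im) ≤ Real.arctan ((z - p).re / (z - p).im) := by
    apply Real.arctan_strictMono.monotone
    simp only [Complex.sub_re, Complex.ofReal_re, Complex.sub_im, Complex.ofReal_im, sub_zero]
    gcongr
  linarith

lemma arctan_ge {u : ℝ} (hu : 0 ≤ u) : u / (1 + u ^ 2) ≤ Real.arctan u := by
  have h0 : 0 ≤ Real.arctan u := Real.arctan_nonneg.2 hu
  have h1 : Real.sin (Real.arctan u) * Real.cos (Real.arctan u) ≤ Real.arctan u * 1 := by
    apply mul_le_mul (Real.sin_le h0) (Real.cos_le_one _) (Real.cos_arctan_pos u).le h0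
  rw [Real.sin_arctan, Real.cos_arctan] at h1
  have h2 : u / Real.sqrt (1 + u ^ 2) * (1 / Real.sqrt (1 + u ^ 2)) = u / (1 + u ^ 2) := by
    rw [div_mul_div_comm, mul_one, Real.mul_self_sqrt (by positivity)]
  rw [h2, mul_one] at h1
  exact h1

lemma norm_exp_I (θ : ℝ) : ‖Complex.exp ((θ : ℂ) * I)‖ = 1 := Complex.norm_exp_ofReal_mul_I θ

/-- The argument of the smoothed factor lies between those of `z + w` and `z - w`. -/
lemma Sw_arg {w : ℝ} (hw : 0 < w) {z : ℂ} (hz : 0 < z.im) :
    ∃ θ : ℝ, Sw w z = ‖Sw w z‖ * Complex.exp ((θ : ℂ) * I) ∧ ang (z + w) ≤ θ ∧ θ ≤ ang (z - w) := by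
  set a := aw w z with ha
  obtain ⟨h1, h2⟩ := aw_im_neg hw hz
  rw [← ha] at h1 h2
  have h0 : a ≠ 0 := aw_ne hw hz.le
  have hza : z = w / 2 * (a + 1 / a) := aw_eq hw hz.le
  have hw' : (w : ℂ) ≠ 0 := by exact_mod_cast hw.ne'
  obtain ⟨x, hx⟩ : ∃ x, x = a.re := ⟨_, rfl⟩
  obtain ⟨t, ht⟩ : ∃ t, t = -a.im := ⟨_, rfl⟩
  have ht0 : 0 < t := by linarith
  have hxt : x ^ 2 + t ^ 2 < 1 := by
    have : ‖a‖ ^ 2 < 1 := by
      have := norm_nonneg a
      nlinarith
    rw [← Complex.normSq_eq_norm_sq, Complex.normSq_apply] at this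
    rw [hx, ht]; nlinarith
  have hx1 : x < 1 := by nlinarith [sq_nonneg t]
  have hx2 : -1 < x := by nlinarith [sq_nonneg t]
  have hre1 : (1 + a).re = 1 + x := by simp [hx]
  have him1 : (1 + a).im = -t := by simp [ht]
  have hre2 : (1 - a).re = 1 - x := by simp [hx]
  have him2 : (1 - a).im = t := by simp [ht]
  obtain ⟨β, hβ⟩ : ∃ β, β = Real.arctan (t / (1 + x)) := ⟨_, rfl⟩
  obtain ⟨β', hβ'⟩ : ∃ β', β' = Real.arctan (t / (1 - x)) := ⟨_, rfl⟩
  have hp1 : (1 + a) = ‖1 + a‖ * Complex.exp (((-β : ℝ) : ℂ) * I) := by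
    have := polar_right (u := 1 + a) (by rw [hre1]; linarith)
    rw [hre1, him1, neg_div, Real.arctan_neg, ← hβ] at this
    exact this
  have hp2 : (1 - a) = ‖1 - a‖ * Complex.exp (((β' : ℝ) : ℂ) * I) := by
    have := polar_right (u := 1 - a) (by rw [hre2]; linarith)
    rw [hre2, him2, ← hβ'] at this
    exact this
  have hβb : t / 2 ≤ β := by
    have h3 := arctan_ge (u := t / (1 + x)) (by apply div_nonneg ht0.le; linarith)
    rw [← hβ] at h3
    refine le_trans ?_ h3
    have h4 : 0 < 1 + x := by linarith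
    have h5 : t / (1 + x) / (1 + (t / (1 + x)) ^ 2) = t * (1 + x) / ((1 + x) ^ 2 + t ^ 2) := by
      field_simp
    rw [h5, div_le_div_iff₀ (by norm_num) (by positivity)]
    nlinarith
  have hβb' : t / 2 ≤ β' := by
    have h3 := arctan_ge (u := t / (1 - x)) (by apply div_nonneg ht0.le; linarith)
    rw [← hβ'] at h3
    refine le_trans ?_ h3
    have h4 : 0 < 1 - x := by linarith
    have h5 : t / (1 - x) / (1 + (t / (1 - x)) ^ 2) = t * (1 - x) / ((1 - x) ^ 2 + t ^ 2) := by
      field_simp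
    rw [h5, div_le_div_iff₀ (by norm_num) (by positivity)]
    nlinarith
  have hβlt : β < Real.pi / 2 := by rw [hβ]; exact Real.arctan_lt_pi_div_two _
  have hβlt' : β' < Real.pi / 2 := by rw [hβ']; exact Real.arctan_lt_pi_div_two _
  have hzp : z + w = w / (2 * a) * (1 + a) ^ 2 := by
    rw [hza]; field_simp; ring
  have hzm : z - w = w / (2 * a) * (1 - a) ^ 2 := by
    rw [hza]; field_simp; ring
  have hup : 0 < (z + w).im := by simpa using hz
  have hum : 0 < (z - w).im := by simpa using hz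
  have hPp := polar_up hup
  have hPm := polar_up hum
  have h1a : (1 + a) ≠ 0 := by
    intro h
    have := congrArg Complex.im h
    rw [him1] at this
    simp at this
    linarith
  have h1a' : (1 - a) ≠ 0 := by
    intro h
    have := congrArg Complex.im h
    rw [him2] at this
    simp at this
    linarith
  -- the relation between the angles
  have hrel : ang (z - w) - ang (z + w) = 2 * β + 2 * β' := by
    have e1 : (z - w) * (1 + a) ^ 2 = (z + w) * (1 - a) ^ 2 := by
      rw [hzp, hzm]; ring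
    have e2 : ‖z - w‖ * ‖1 + a‖ ^ 2 = ‖z + w‖ * ‖1 - a‖ ^ 2 := by
      have := congrArg norm e1
      rwa [norm_mul, norm_pow, norm_mul, norm_pow] at this
    have e3 : Complex.exp (((ang (z - w) - 2 * β : ℝ) : ℂ) * I) =
        Complex.exp (((ang (z + w) + 2 * β' : ℝ) : ℂ) * I) := by
      have e4 : (‖z - w‖ * ‖1 + a‖ ^ 2 : ℂ) * Complex.exp (((ang (z - w) - 2 * β : ℝ) : ℂ) * I) =
          (‖z + w‖ * ‖1 - a‖ ^ 2 : ℂ) * Complex.exp (((ang (z + w) + 2 * β' : ℝ) : ℂ) * I) := by
        have e5 : (‖z - w‖ * ‖1 + a‖ ^ 2 : ℂ) * Complex.exp (((ang (z - w) - 2 * β : ℝ) : ℂ) * I) =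
            (z - w) * (1 + a) ^ 2 := by
          conv_rhs => rw [hPm, hp1]
          rw [mul_pow, ← Complex.exp_nat_mul]
          rw [show (((ang (z - w) - 2 * β : ℝ) : ℂ) * I) =
            ((ang (z - w) : ℝ) : ℂ) * I + ((2 : ℕ) : ℂ) * (((-β : ℝ) : ℂ) * I) by push_cast; ring,
            Complex.exp_add]
          ring
        have e6 : (‖z + w‖ * ‖1 - a‖ ^ 2 : ℂ) * Complex.exp (((ang (z + w) + 2 * β' : ℝ) : ℂ) * I) =
            (z + w) * (1 - a) ^ 2 := by
          conv_rhs => rw [hPp, hp2]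
          rw [mul_pow, ← Complex.exp_nat_mul]
          rw [show (((ang (z + w) + 2 * β' : ℝ) : ℂ) * I) =
            ((ang (z + w) : ℝ) : ℂ) * I + ((2 : ℕ) : ℂ) * (((β' : ℝ) : ℂ) * I) by push_cast; ring,
            Complex.exp_add]
          ring
        rw [e5, e6, e1]
      have e7 : ((‖z - w‖ * ‖1 + a‖ ^ 2 : ℝ) : ℂ) = ((‖z + w‖ * ‖1 - a‖ ^ 2 : ℝ) : ℂ) := by rw [e2]
      push_cast at e7
      rw [e7] at e4
      have e8 : (‖z + w‖ * ‖1 - a‖ ^ 2 : ℂ) ≠ 0 := by
        apply mul_ne_zero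
        · have : z + w ≠ 0 := by intro h; rw [h] at hup; simp at hup
          exact_mod_cast (norm_pos_iff.2 this).ne'
        · apply pow_ne_zero
          exact_mod_cast (norm_pos_iff.2 h1a').ne'
      exact mul_left_cancel₀ e8 e4
    rw [Complex.exp_eq_exp_iff_exists_int] at e3
    obtain ⟨n, hn⟩ := e3
    have e9 : ang (z - w) - 2 * β = ang (z + w) + 2 * β' + n * (2 * Real.pi) := by
      have := congrArg Complex.im hn
      simpa using this
    have m1 : ang (z + w) ≤ ang (z - w) := by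
      have := ang_mono hz (p := -w) (q := w) (by linarith)
      simpa using this
    have m2 := ang_lt (z - w)
    have m3 := ang_pos (z + w)
    have hpi := Real.pi_pos
    have n1 : (n : ℝ) < 1 := by
      by_contra hc
      push Not at hc
      nlinarith
    have n2 : (-1 : ℝ) < n := by
      by_contra hc
      push Not at hc
      nlinarith
    have n3 : n < 1 := by exact_mod_cast n1
    have n4 : -1 < n := by exact_mod_cast n2
    have n5 : n = 0 := by omega
    rw [n5] at e9
    push_cast at e9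
    linarith
  have him : (a ^ 2 / 2).im = -(x * t) := by
    have : (a ^ 2 / 2).im = a.re * a.im := by
      rw [pow_two]
      simp [Complex.mul_im]
      ring
    rw [this, ← hx, show a.im = -t by linarith]
    ring
  refine ⟨ang (z + w) + (a ^ 2 / 2).im + 2 * β, ?_, ?_, ?_⟩
  · have hS : Sw w z = ((‖z + w‖ * Real.exp ((a ^ 2 / 2).re) / ‖1 + a‖ ^ 2 : ℝ) : ℂ) *
        Complex.exp (((ang (z + w) + (a ^ 2 / 2).im + 2 * β : ℝ) : ℂ) * I) := by
      have e1 : Sw w z = (z + w) * Complex.exp (a ^ 2 / 2) / (1 + a) ^ 2 := by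
        unfold Sw
        rw [← ha, hzp]
        field_simp
      rw [e1]
      have e2 : Complex.exp (a ^ 2 / 2) = (Real.exp ((a ^ 2 / 2).re) : ℂ) *
          Complex.exp (((a ^ 2 / 2).im : ℂ) * I) := by
        rw [Complex.ofReal_exp, ← Complex.exp_add, Complex.re_add_im]
      conv_lhs => rw [e2, hPp, hp1]
      clear e1 e2
      generalize a ^ 2 / 2 = q
      rw [mul_pow, ← Complex.exp_nat_mul]
      rw [show (((ang (z + w) + q.im + 2 * β : ℝ) : ℂ) * I) =
        ((ang (z + w) : ℝ) : ℂ) * I + ((q.im : ℂ) * I) + -(((2 : ℕ) : ℂ) * (((-β : ℝ) : ℂ) * I))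
        by push_cast; ring, Complex.exp_add, Complex.exp_add, Complex.exp_neg]
      push_cast
      have e3 : (‖1 + a‖ : ℂ) ≠ 0 := by exact_mod_cast (norm_pos_iff.2 h1a).ne'
      have e4 : Complex.exp (2 * (-(β : ℂ) * I)) ≠ 0 := Complex.exp_ne_zero _
      field_simp
    have hnn : 0 ≤ ‖z + w‖ * Real.exp ((a ^ 2 / 2).re) / ‖1 + a‖ ^ 2 := by positivity
    have hnorm : ‖Sw w z‖ = ‖z + w‖ * Real.exp ((a ^ 2 / 2).re) / ‖1 + a‖ ^ 2 := by
      rw [hS, norm_mul, norm_exp_I, mul_one, Complex.norm_real, Real.norm_of_nonneg hnn]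
    rw [hnorm]
    exact hS
  · rw [him]
    nlinarith
  · have : ang (z + w) = ang (z - w) - 2 * β - 2 * β' := by linarith
    rw [this, him]
    nlinarith

/-- The product of the smoothed factors over the product of the linear factors. -/
noncomputable def QQ (m : ℕ) (p c w : ℕ → ℝ) (z : ℂ) : ℂ :=
  (∏ j ∈ Finset.range m, Sw (w j) (z - c j)) / ∏ i ∈ Finset.range (m + 1), (z - p i)

/-- Positivity from interlacing. -/
lemma QQ_im_neg (m : ℕ) (p c w : ℕ → ℝ) (hw : ∀ j < m, 0 < w j)
    (h1 : ∀ j < m, p j ≤ c j - w j) (h2 : ∀ j < m, c j + w j ≤ p (j + 1)) {z : ℂ} (hz : 0 < z.im) :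
    (QQ m p c w z).im < 0 := by
  -- inductive statement on the angle
  have key : ∀ k ≤ m, ∃ φ : ℝ, QQ k p c w z = ‖QQ k p c w z‖ * Complex.exp ((φ : ℂ) * I) ∧
      -ang (z - p k) ≤ φ ∧ φ ≤ -ang (z - p 0) := by
    intro k
    induction k with
    | zero =>
      intro _
      refine ⟨-ang (z - p 0), ?_, le_rfl, le_rfl⟩
      have h3 : 0 < (z - p 0).im := by simpa using hz
      have h4 := polar_up h3
      have h5 : z - p 0 ≠ 0 := by intro h; rw [h] at h3; simp at h3
      have h6 : (‖z - p 0‖ : ℂ) ≠ 0 := by exact_mod_cast (norm_pos_iff.2 h5).ne'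
      unfold QQ
      simp only [Finset.range_zero, Finset.prod_empty, zero_add, Finset.prod_range_one, norm_div,
        norm_one, Complex.ofReal_neg]
      conv_lhs => rw [h4]
      rw [neg_mul, Complex.exp_neg]
      push_cast
      field_simp
    | succ k ih =>
      intro hk
      obtain ⟨φ, e1, e2, e3⟩ := ih (by omega)
      have hk' : k < m := by omega
      have hzc : 0 < (z - c k).im := by simpa using hz
      obtain ⟨θ, f1, f2, f3⟩ := Sw_arg (hw k hk') hzc
      have h3 : 0 < (z - p (k + 1)).im := by simpa using hz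
      have h4 := polar_up h3
      have h5 : z - p (k + 1) ≠ 0 := by intro h; rw [h] at h3; simp at h3
      have h6 : (‖z - p (k + 1)‖ : ℂ) ≠ 0 := by exact_mod_cast (norm_pos_iff.2 h5).ne'
      have hQ : QQ (k + 1) p c w z = QQ k p c w z * Sw (w k) (z - c k) / (z - p (k + 1)) := by
        unfold QQ
        rw [Finset.prod_range_succ _ k, Finset.prod_range_succ _ (k + 1)]
        rw [div_mul_eq_mul_div, div_div]
      have g1 : ang (z - p k) ≤ θ := by
        refine le_trans ?_ f2
        have := ang_mono hz (p := p k) (q := c k - w k) (h1 k hk')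
        refine this.trans (le_of_eq ?_)
        congr 1
        push_cast; ring
      have g2 : θ ≤ ang (z - p (k + 1)) := by
        refine f3.trans ?_
        have := ang_mono hz (p := c k + w k) (q := p (k + 1)) (h2 k hk')
        refine le_trans (le_of_eq ?_) this
        congr 1
        push_cast; ring
      refine ⟨φ + θ - ang (z - p (k + 1)), ?_, ?_, ?_⟩
      · rw [hQ, norm_div, norm_mul]
        conv_lhs => rw [e1, f1, h4]
        rw [show ((φ + θ - ang (z - p (k + 1)) : ℝ) : ℂ) * I = (φ : ℂ) * I + (θ : ℂ) * I +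
          -(((ang (z - p (k + 1)) : ℝ) : ℂ) * I) by push_cast; ring, Complex.exp_add,
          Complex.exp_add, Complex.exp_neg]
        have h7 := Complex.exp_ne_zero (((ang (z - p (k + 1)) : ℝ) : ℂ) * I)
        push_cast
        field_simp
      · linarith
      · linarith
  obtain ⟨φ, e1, e2, e3⟩ := key m le_rfl
  have hne : QQ m p c w z ≠ 0 := by
    unfold QQ
    apply div_ne_zero
    · apply Finset.prod_ne_zero_iff.2
      intro j hj
      exact Sw_ne (hw j (Finset.mem_range.1 hj)) (by simpa using hz.le)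
    · apply Finset.prod_ne_zero_iff.2
      intro i _ h
      have := congrArg Complex.im h
      simp at this
      exact hz.ne' this
  have hpos : 0 < ‖QQ m p c w z‖ := norm_pos_iff.2 hne
  rw [e1, Complex.im_ofReal_mul, Complex.exp_ofReal_mul_I_im]
  have hs : Real.sin φ < 0 := by
    have m1 := ang_lt (z - p m)
    have m2 := ang_pos (z - p 0)
    apply Real.sin_neg_of_neg_of_neg_pi_lt
    · linarith
    · linarith
  nlinarith

end Pool.Agent.W2helper20.PK
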