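import Pool.Agent.W2helper20.PK.Inter
import Pool.Agent.W2helper20.PK.Holder

set_option autoImplicit false

open Complex Set Filter Topology

namespace Pool.Agent.W2helper20.PK

/-- The data: poles `p 0 < ... < p m`, one critical point `c j` between `p j` and `p (j + 1)`, and
half-widths `w j` of the cuts. -/
structure Sys (m : ℕ) (p c w : ℕ → ℝ) : Prop where
  hw : ∀ j < m, 0 < w j
  h1 : ∀ j < m, p j < c j - w j
  h2 : ∀ j < m, c j + w j < p (j + 1)
  hN : ∀ j < m, ∑ i ∈ Finset.range (m + 1), 1 / (c j - p i) = 0

section
variable {m : ℕ} {p c w : ℕ → ℝ}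

lemma Sys.lt_succ (S : Sys m p c w) {j : ℕ} (hj : j < m) : p j < p (j + 1) := by
  have := S.hw j hj
  have := S.h1 j hj
  have := S.h2 j hj
  linarith

lemma Sys.lt (S : Sys m p c w) {i j : ℕ} (hij : i < j) (hj : j ≤ m) : p i < p j := by
  induction j with
  | zero => omega
  | succ j ih =>
    rcases Nat.lt_succ_iff_lt_or_eq.1 hij with h | h
    · exact (ih h (by omega)).trans (S.lt_succ (by omega))
    · rw [h]; exact S.lt_succ (by omega)

lemma Sys.le (S : Sys m p c w) {i j : ℕ} (hij : i ≤ j) (hj : j ≤ m) : p i ≤ p j := by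
  rcases hij.lt_or_eq with h | h
  · exact (S.lt h hj).le
  · rw [h]

lemma Sys.c_gt (S : Sys m p c w) {i j : ℕ} (hj : j < m) (hij : i ≤ j) : p i < c j := by
  have h1 := S.le hij hj.le
  have h2 := S.h1 j hj
  have h3 := S.hw j hj
  linarith

lemma Sys.c_lt (S : Sys m p c w) {i j : ℕ} (hj : j < m) (hij : j < i) (hi : i ≤ m) : c j < p i := by
  have h1 := S.le (i := j + 1) (j := i) hij hi
  have h2 := S.h2 j hj
  have h3 := S.hw j hj
  linarith

lemma Sys.c_ne (S : Sys m p c w) {i j : ℕ} (hj : j < m) (hi : i ≤ m) : c j - p i ≠ 0 := by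
  rcases le_or_gt i j with h | h
  · have := S.c_gt hj h
    exact (sub_pos.2 this).ne'
  · have := S.c_lt hj h hi
    exact (sub_neg.2 this).ne

/-- The derivative of `∏ (x - p i)` is `(m + 1) ∏ (x - c j)`. -/
lemma Sys.deriv_prod (S : Sys m p c w) (x : ℝ) :
    ∑ i ∈ Finset.range (m + 1), ∏ k ∈ (Finset.range (m + 1)).erase i, (x - p k) =
      (m + 1 : ℝ) * ∏ j ∈ Finset.range m, (x - c j) := by
  classical
  set P : Polynomial ℝ := ∏ i ∈ Finset.range (m + 1), (Polynomial.X - Polynomial.C (p i)) with hP
  have hPmonic : P.Monic := Polynomial.monic_prod_of_monic _ _ fun i _ => Polynomial.monic_X_sub_C _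
  have hPdeg : P.natDegree = m + 1 := by
    rw [hP, Polynomial.natDegree_prod_of_monic _ _ fun i _ => Polynomial.monic_X_sub_C _]
    simp
  have hder : ∀ y : ℝ, P.derivative.eval y =
      ∑ i ∈ Finset.range (m + 1), ∏ k ∈ (Finset.range (m + 1)).erase i, (y - p k) := by
    intro y
    rw [hP, Polynomial.derivative_prod_finset, Polynomial.eval_finsetSum]
    apply Finset.sum_congr rfl
    intro i _
    simp [Polynomial.eval_prod]
  set Q : Polynomial ℝ := P.derivative -
    Polynomial.C (m + 1 : ℝ) * ∏ j ∈ Finset.range m, (Polynomial.X - Polynomial.C (c j)) with hQ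
  have hcinj : Set.InjOn c (Finset.range m : Finset ℕ) := by
    intro i hi j hj hij
    simp only [Finset.coe_range, mem_Iio] at hi hj
    by_contra hne
    rcases lt_or_gt_of_ne hne with h | h
    · have a1 := S.c_lt (i := i + 1) hi (by omega) (by omega)
      have a2 := S.c_gt (i := i + 1) hj (by omega)
      linarith
    · have a1 := S.c_lt (i := j + 1) hj (by omega) (by omega)
      have a2 := S.c_gt (i := j + 1) hi (by omega)
      linarith
  have hroot : ∀ y ∈ (Finset.range m).image c, Q.eval y = 0 := by
    intro y hy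
    obtain ⟨j, hj, rfl⟩ := Finset.mem_image.1 hy
    have hj' := Finset.mem_range.1 hj
    rw [hQ, Polynomial.eval_sub, hder, Polynomial.eval_mul, Polynomial.eval_prod]
    have z1 : ∏ k ∈ Finset.range m, Polynomial.eval (c j) (Polynomial.X - Polynomial.C (c k)) = 0 := by
      apply Finset.prod_eq_zero hj
      simp
    rw [z1, mul_zero, sub_zero]
    have z2 : ∀ i ∈ Finset.range (m + 1), ∏ k ∈ (Finset.range (m + 1)).erase i, (c j - p k) =
        (∏ k ∈ Finset.range (m + 1), (c j - p k)) * (1 / (c j - p i)) := by
      intro i hi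
      have h3 := S.c_ne hj' (i := i) (by have := Finset.mem_range.1 hi; omega)
      rw [← Finset.mul_prod_erase _ _ hi]
      field_simp
    rw [Finset.sum_congr rfl z2, ← Finset.mul_sum, S.hN j hj', mul_zero]
  have hcard : ((Finset.range m).image c).card = m := by
    rw [Finset.card_image_of_injOn hcinj, Finset.card_range]
  have hQ0 : Q = 0 := by
    rcases Nat.eq_zero_or_pos m with hm | hm
    · subst hm
      rw [hQ, hP]
      simp
    by_contra hne
    have hdeg : Q.degree < m := by
      have e1 : P.derivative.degree = m := by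
        have : P.derivative.natDegree = m := by
          rw [Polynomial.natDegree_derivative, hPdeg]; omega
        rw [Polynomial.degree_eq_natDegree, this]
        intro h0
        rw [h0] at this
        simp at this
        omega
      have e2 : (Polynomial.C (m + 1 : ℝ) * ∏ j ∈ Finset.range m,
          (Polynomial.X - Polynomial.C (c j))).degree = m := by
        rw [Polynomial.degree_C_mul (by positivity), Polynomial.degree_prod]
        simp
      have e3 : P.derivative.leadingCoeff = (Polynomial.C (m + 1 : ℝ) * ∏ j ∈ Finset.range m,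
          (Polynomial.X - Polynomial.C (c j))).leadingCoeff := by
        rw [Polynomial.leadingCoeff_mul, Polynomial.leadingCoeff_C, Polynomial.leadingCoeff_prod]
        simp only [Polynomial.leadingCoeff_X_sub_C, Finset.prod_const_one, mul_one]
        have : P.derivative.natDegree = m := by
          rw [Polynomial.natDegree_derivative, hPdeg]; omega
        rw [Polynomial.leadingCoeff, this, Polynomial.coeff_derivative]
        have : P.coeff (m + 1) = 1 := by rw [← hPdeg]; exact hPmonic
        rw [this, one_mul]
      have := Polynomial.degree_sub_lt_left (e1.trans e2.symm) (by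
        intro h0
        rw [h0] at e1
        simp at e1) e3
      rw [e1] at this
      exact this
    have := Polynomial.card_roots' Q
    have h4 : ((Finset.range m).image c).card ≤ Q.natDegree := by
      apply (Finset.card_le_card (t := Q.roots.toFinset) _).trans
      · exact (Multiset.toFinset_card_le _).trans this
      · intro y hy
        rw [Multiset.mem_toFinset, Polynomial.mem_roots hne]
        exact hroot y hy
    rw [hcard] at h4
    have h5 := (Polynomial.natDegree_lt_iff_degree_lt hne).2 hdeg
    omega
  have h6 := congrArg (Polynomial.eval x) hQ0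
  rw [hQ, Polynomial.eval_sub, hder, Polynomial.eval_mul, Polynomial.eval_prod] at h6
  simp at h6
  linarith

/-- The Stieltjes sum as a quotient of products. -/
lemma Sys.stieltjes (S : Sys m p c w) {x : ℝ} (hx : ∀ i ≤ m, x - p i ≠ 0) :
    (∏ j ∈ Finset.range m, (x - c j)) / ∏ i ∈ Finset.range (m + 1), (x - p i) =
      (1 / (m + 1 : ℝ)) * ∑ i ∈ Finset.range (m + 1), 1 / (x - p i) := by
  have h1 := S.deriv_prod x
  have h2 : ∀ i ∈ Finset.range (m + 1), ∏ k ∈ (Finset.range (m + 1)).erase i, (x - p k) =
      (∏ k ∈ Finset.range (m + 1), (x - p k)) * (1 / (x - p i)) := by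
    intro i hi
    have h3 := hx i (by have := Finset.mem_range.1 hi; omega)
    rw [← Finset.mul_prod_erase _ _ hi]
    field_simp
  rw [Finset.sum_congr rfl h2, ← Finset.mul_sum] at h1
  have h3 : ∏ k ∈ Finset.range (m + 1), (x - p k) ≠ 0 :=
    Finset.prod_ne_zero_iff.2 fun i hi => hx i (by have := Finset.mem_range.1 hi; omega)
  have h4 : (m + 1 : ℝ) ≠ 0 := by positivity
  field_simp
  rw [mul_comm (∏ j ∈ Finset.range m, (x - c j))] 
  linarith

end

end Pool.Agent.W2helper20.PK
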