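import Pool.Agent.W2helper20.PK.Line

set_option autoImplicit false

open Complex Set Filter Topology

namespace Pool.Agent.W2helper20.PK

/-- The reciprocal of `QQ`, without singularities. -/
noncomputable def gg (m : ℕ) (p c w : ℕ → ℝ) (z : ℂ) : ℂ :=
  (∏ i ∈ Finset.range (m + 1), (z - p i)) * ∏ j ∈ Finset.range m, (Sw (w j) (z - c j))⁻¹

lemma hasDerivAt_prod_log {ι : Type} (s : Finset ι) (f : ι → ℝ → ℂ) (l : ι → ℂ) (x : ℝ)
    (h : ∀ i ∈ s, HasDerivAt (f i) (f i x * l i) x) :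
    HasDerivAt (fun y => ∏ i ∈ s, f i y) ((∏ i ∈ s, f i x) * ∑ i ∈ s, l i) x := by
  classical
  induction s using Finset.induction_on with
  | empty => simpa using hasDerivAt_const x (1 : ℂ)
  | insert a s ha ih =>
    have h1 := h a (Finset.mem_insert_self _ _)
    have h2 := ih fun i hi => h i (Finset.mem_insert_of_mem hi)
    simp only [Finset.prod_insert ha, Finset.sum_insert ha]
    refine (h1.fun_mul h2).congr_deriv ?_
    ring

lemma sub_real_im {z : ℂ} (hz : 0 ≤ z.im) (c : ℝ) : 0 ≤ (z - c).im := by simpa using hz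

lemma Sw_shift_hasDerivAt {w : ℝ} (hw : 0 < w) (c x : ℝ) :
    HasDerivAt (fun t : ℝ => Sw w ((t : ℂ) - c)) (Sw w ((x : ℂ) - c) * Dw w ((x : ℂ) - c)) x := by
  have h1 := Sw_hasDerivAt_real hw (x - c)
  have h2 : HasDerivAt (fun t : ℝ => t - c) 1 x := (hasDerivAt_id x).sub_const c
  have h3 := h1.scomp x h2
  simp only [one_smul] at h3
  refine (h3.congr_deriv (by push_cast; rfl)).congr_of_eventuallyEq ?_
  filter_upwards with t
  simp

/-- Local estimates for `gg` on the real line. -/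
lemma local_bound {m : ℕ} {p c w : ℕ → ℝ} {x d B : ℝ} {K : ℝ → ℝ} {K' : ℝ} {T : ℝ → ℂ} {τ : ℂ}
    {s : Finset ℕ} (hd : 0 < d)
    (hev : ∀ᶠ y : ℝ in 𝓝 x, gg m p c w y = ((K y : ℝ) : ℂ)⁻¹ * T y *
      ∏ j ∈ s, (((y : ℂ) - c j) * (Sw (w j) ((y : ℂ) - c j))⁻¹))
    (hK : HasDerivAt K K' x) (hK0 : K x ≠ 0) (hKd : |K'| ≤ |K x| / d)
    (hT : HasDerivAt T (T x * (-τ)) x)
    (hw : ∀ j ∈ s, 0 < w j) (hs1 : ∀ j ∈ s, w j ≤ |x - c j|) (hs2 : ∀ j ∈ s, d ≤ |x - c j|)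
    (hB : ∑ j ∈ s, (w j) ^ 2 / (x - c j) ^ 2 ≤ B) :
    ∃ L : ℂ, HasDerivAt (fun y : ℝ => gg m p c w y) (gg m p c w x * L) x ∧
      ‖L‖ ≤ 1 / d + ‖τ‖ + 2 * B / d ∧ ‖gg m p c w x‖ ≤ |K x|⁻¹ * ‖T x‖ * Real.exp (B / 2) := by
  have hxc : ∀ j ∈ s, x - c j ≠ 0 := by
    intro j hj
    have := lt_of_lt_of_le hd (hs2 j hj)
    exact abs_pos.1 this
  have hS0 : ∀ j ∈ s, Sw (w j) ((x : ℂ) - c j) ≠ 0 := fun j hj =>
    Sw_ne (hw j hj) (by simp)
  have hK1 : HasDerivAt (fun y : ℝ => ((K y : ℝ) : ℂ)⁻¹) (((K x : ℝ) : ℂ)⁻¹ * (-(K' / K x : ℝ))) x := by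
    have h1 : HasDerivAt (fun y : ℝ => ((K y : ℝ) : ℂ)) ((K' : ℝ) : ℂ) x := hK.ofReal_comp
    have hKc : ((K x : ℝ) : ℂ) ≠ 0 := by exact_mod_cast hK0
    refine (h1.fun_inv hKc).congr_deriv ?_
    push_cast
    field_simp
  have hP : HasDerivAt (fun y : ℝ => ∏ j ∈ s, (((y : ℂ) - c j) * (Sw (w j) ((y : ℂ) - c j))⁻¹))
      ((∏ j ∈ s, (((x : ℂ) - c j) * (Sw (w j) ((x : ℂ) - c j))⁻¹)) *
        ∑ j ∈ s, (1 / ((x : ℂ) - c j) - Dw (w j) ((x : ℂ) - c j))) x := by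
    apply hasDerivAt_prod_log s (fun j y => ((y : ℂ) - c j) * (Sw (w j) ((y : ℂ) - c j))⁻¹)
    intro j hj
    have h1 : HasDerivAt (fun y : ℝ => (y : ℂ) - c j) 1 x :=
      (Complex.ofRealCLM.hasDerivAt).sub_const _
    have h2 := (Sw_shift_hasDerivAt (hw j hj) (c j) x).fun_inv (hS0 j hj)
    have h4 := hS0 j hj
    have h5 : ((x : ℂ) - c j) ≠ 0 := by
      have := hxc j hj
      exact_mod_cast this
    refine (h1.fun_mul h2).congr_deriv ?_
    field_simp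
    ring
  have hprod := (hK1.fun_mul hT).fun_mul hP
  have hgx := hev.self_of_nhds
  refine ⟨-(K' / K x : ℝ) - τ + ∑ j ∈ s, (1 / ((x : ℂ) - c j) - Dw (w j) ((x : ℂ) - c j)), ?_, ?_, ?_⟩
  · refine (hprod.congr_of_eventuallyEq hev).congr_deriv ?_
    rw [hgx]
    ring
  · have e1 : ‖(-(K' / K x : ℝ) : ℂ)‖ ≤ 1 / d := by
      rw [norm_neg, Complex.norm_real, Real.norm_eq_abs, abs_div, div_le_iff₀ (abs_pos.2 hK0)]
      calc |K'| ≤ |K x| / d := hKd
        _ = 1 / d * |K x| := by ring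
    have e2 : ‖∑ j ∈ s, (1 / ((x : ℂ) - c j) - Dw (w j) ((x : ℂ) - c j))‖ ≤ 2 * B / d := by
      calc ‖∑ j ∈ s, (1 / ((x : ℂ) - c j) - Dw (w j) ((x : ℂ) - c j))‖
          ≤ ∑ j ∈ s, ‖1 / ((x : ℂ) - c j) - Dw (w j) ((x : ℂ) - c j)‖ := norm_sum_le _ _
        _ ≤ ∑ j ∈ s, (2 / d) * ((w j) ^ 2 / (x - c j) ^ 2) := by
            apply Finset.sum_le_sum
            intro j hj
            have h1 := Dw_sub_inv (hw j hj) (hs1 j hj)
            rw [norm_sub_rev]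
            have h2 : ((x : ℂ) - c j) = ((x - c j : ℝ) : ℂ) := by push_cast; ring
            rw [h2]
            refine h1.trans ?_
            have h3 : 2 * (w j) ^ 2 / (x - c j) ^ 2 / |x - c j| = 2 / |x - c j| * ((w j) ^ 2 / (x - c j) ^ 2) := by
              ring
            rw [h3]
            apply mul_le_mul_of_nonneg_right _ (by positivity)
            apply div_le_div_of_nonneg_left (by norm_num) hd (hs2 j hj)
        _ = (2 / d) * ∑ j ∈ s, ((w j) ^ 2 / (x - c j) ^ 2) := by rw [Finset.mul_sum]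
        _ ≤ (2 / d) * B := by gcongr
        _ = 2 * B / d := by ring
    calc ‖-(K' / K x : ℝ) - τ + ∑ j ∈ s, (1 / ((x : ℂ) - c j) - Dw (w j) ((x : ℂ) - c j))‖
        ≤ ‖(-(K' / K x : ℝ) : ℂ) - τ‖ + ‖∑ j ∈ s, (1 / ((x : ℂ) - c j) - Dw (w j) ((x : ℂ) - c j))‖ := norm_add_le _ _
      _ ≤ (‖(-(K' / K x : ℝ) : ℂ)‖ + ‖τ‖) + 2 * B / d := add_le_add (norm_sub_le _ _) e2
      _ ≤ _ := by gcongr
  · rw [hgx, norm_mul, norm_mul, norm_inv, Complex.norm_real, Real.norm_eq_abs]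
    apply mul_le_mul_of_nonneg_left _ (by positivity)
    rw [norm_prod]
    calc ∏ j ∈ s, ‖((x : ℂ) - c j) * (Sw (w j) ((x : ℂ) - c j))⁻¹‖
        ≤ ∏ j ∈ s, Real.exp ((w j) ^ 2 / (x - c j) ^ 2 / 2) := by
          apply Finset.prod_le_prod
          · intro j _; positivity
          · intro j hj
            have h2 : ((x : ℂ) - c j) = ((x - c j : ℝ) : ℂ) := by push_cast; ring
            have h1 := (Sw_div_bounds (hw j hj) (hs1 j hj)).2
            rw [norm_mul, norm_inv, h2, Complex.norm_real, Real.norm_eq_abs]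
            have h3 : 0 < |x - c j| := abs_pos.2 (hxc j hj)
            have h4 : 0 < ‖Sw (w j) ((x - c j : ℝ) : ℂ)‖ := by
              rw [← h2]; exact norm_pos_iff.2 (hS0 j hj)
            rw [← div_eq_mul_inv, div_le_iff₀ h4]
            have h5 : Real.exp ((w j) ^ 2 / (x - c j) ^ 2 / 2) *
                Real.exp (-((w j) ^ 2 / (2 * (x - c j) ^ 2))) = 1 := by
              rw [← Real.exp_add]
              have : (w j) ^ 2 / (x - c j) ^ 2 / 2 = (w j) ^ 2 / (2 * (x - c j) ^ 2) := by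
                rw [div_div, mul_comm 2]
              rw [this, add_neg_cancel, Real.exp_zero]
            calc |x - c j| = Real.exp ((w j) ^ 2 / (x - c j) ^ 2 / 2) *
                (|x - c j| * Real.exp (-((w j) ^ 2 / (2 * (x - c j) ^ 2)))) := by
                  rw [mul_left_comm, h5, mul_one]
              _ ≤ _ := by gcongr
      _ = Real.exp (∑ j ∈ s, (w j) ^ 2 / (x - c j) ^ 2 / 2) := by rw [Real.exp_sum]
      _ ≤ Real.exp (B / 2) := by
          apply Real.exp_le_exp.2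
          rw [← Finset.sum_div]
          linarith

end Pool.Agent.W2helper20.PK
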