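import Pool.Agent.W2helper20.PK.Line2

set_option autoImplicit false

open Complex Set Filter Topology

namespace Pool.Agent.W2helper20.PK

/-- The divided difference of the Stieltjes sum in the gap `J`. -/
noncomputable def FJ (m : ℕ) (p c : ℕ → ℝ) (J : ℕ) (x : ℝ) : ℝ :=
  (1 / (m + 1 : ℝ)) * ∑ i ∈ Finset.range (m + 1), 1 / ((x - p i) * (c J - p i))

/-- The Stieltjes sum. -/
noncomputable def NN (m : ℕ) (p : ℕ → ℝ) (x : ℝ) : ℝ :=
  (1 / (m + 1 : ℝ)) * ∑ i ∈ Finset.range (m + 1), 1 / (x - p i)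

section
variable {m : ℕ} {p c w : ℕ → ℝ}

lemma Sys.gap_pos (S : Sys m p c w) {J : ℕ} (hJ : J < m) {x : ℝ} (hx1 : p J < x)
    (hx2 : x < p (J + 1)) {i : ℕ} (hi : i ≤ m) :
    0 < (x - p i) * (c J - p i) ∧ min (x - p J) (p (J + 1) - x) ≤ |x - p i| := by
  rcases le_or_gt i J with h | h
  · have h1 := S.le h hJ.le
    have h2 := S.c_gt hJ h
    have h3 : 0 < x - p i := by linarith
    refine ⟨mul_pos h3 (by linarith), ?_⟩
    rw [abs_of_pos h3]
    exact (min_le_left _ _).trans (by linarith)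
  · have h1 := S.le (i := J + 1) (j := i) h hi
    have h2 := S.c_lt hJ h hi
    have h3 : x - p i < 0 := by linarith
    refine ⟨mul_pos_of_neg_of_neg h3 (by linarith), ?_⟩
    rw [abs_of_neg h3]
    exact (min_le_right _ _).trans (by linarith)

lemma Sys.FJ_pos (S : Sys m p c w) {J : ℕ} (hJ : J < m) {x : ℝ} (hx1 : p J < x)
    (hx2 : x < p (J + 1)) : 0 < FJ m p c J x := by
  unfold FJ
  apply mul_pos (by positivity)
  apply Finset.sum_pos
  · intro i hi
    have := (S.gap_pos hJ hx1 hx2 (i := i) (by have := Finset.mem_range.1 hi; omega)).1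
    positivity
  · exact ⟨0, by simp⟩

lemma Sys.c_mem_gap (S : Sys m p c w) {J : ℕ} (hJ : J < m) : p J < c J ∧ c J < p (J + 1) :=
  ⟨S.c_gt hJ le_rfl, S.c_lt hJ (Nat.lt_succ_self J) hJ⟩

lemma Sys.FJ_hasDerivAt (S : Sys m p c w) {J : ℕ} (hJ : J < m) {x : ℝ} (hx1 : p J < x)
    (hx2 : x < p (J + 1)) :
    HasDerivAt (FJ m p c J) ((1 / (m + 1 : ℝ)) * ∑ i ∈ Finset.range (m + 1),
      (-(1 / ((x - p i) * (c J - p i)) * (1 / (x - p i))))) x := by
  unfold FJ
  apply HasDerivAt.const_mul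
  apply HasDerivAt.fun_sum
  intro i hi
  have h1 := (S.gap_pos hJ hx1 hx2 (i := i) (by have := Finset.mem_range.1 hi; omega)).1
  have h2 : x - p i ≠ 0 := fun h => by rw [h, zero_mul] at h1; exact lt_irrefl _ h1
  have h3 : c J - p i ≠ 0 := fun h => by rw [h, mul_zero] at h1; exact lt_irrefl _ h1
  have h4 : HasDerivAt (fun y : ℝ => (y - p i) * (c J - p i)) (1 * (c J - p i)) x :=
    ((hasDerivAt_id x).sub_const _).mul_const _
  have h5 := h4.fun_inv (mul_ne_zero h2 h3)
  simp only [one_div]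
  refine h5.congr_deriv ?_
  field_simp

lemma Sys.gap_ident (S : Sys m p c w) {J : ℕ} (hJ : J < m) {x : ℝ} (hx1 : p J < x)
    (hx2 : x < p (J + 1)) :
    (∏ j ∈ (Finset.range m).erase J, (x - c j)) / ∏ i ∈ Finset.range (m + 1), (x - p i) =
      -FJ m p c J x := by
  have hne : ∀ y, p J < y → y < p (J + 1) → ∀ i ≤ m, y - p i ≠ 0 := by
    intro y h1 h2 i hi h
    have := (S.gap_pos hJ h1 h2 hi).1
    rw [h, zero_mul] at this
    exact lt_irrefl _ this
  -- away from the critical point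
  have key : ∀ y, p J < y → y < p (J + 1) → y ≠ c J →
      (∏ j ∈ (Finset.range m).erase J, (y - c j)) / ∏ i ∈ Finset.range (m + 1), (y - p i) =
      -FJ m p c J y := by
    intro y h1 h2 h3
    have h4 := S.stieltjes (hne y h1 h2)
    rw [← Finset.mul_prod_erase _ _ (Finset.mem_range.2 hJ)] at h4
    have h5 : y - c J ≠ 0 := sub_ne_zero.2 h3
    have h6 : (1 / (m + 1 : ℝ)) * ∑ i ∈ Finset.range (m + 1), 1 / (y - p i) =
        (y - c J) * (-FJ m p c J y) := by
      have h7 : ∑ i ∈ Finset.range (m + 1), 1 / (y - p i) =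
          ∑ i ∈ Finset.range (m + 1), (1 / (y - p i) - 1 / (c J - p i)) := by
        rw [Finset.sum_sub_distrib, S.hN J hJ, sub_zero]
      rw [h7]
      unfold FJ
      have h8 : ∀ i ∈ Finset.range (m + 1), 1 / (y - p i) - 1 / (c J - p i) =
          -(y - c J) * (1 / ((y - p i) * (c J - p i))) := by
        intro i hi
        have hi' : i ≤ m := by have := Finset.mem_range.1 hi; omega
        have h9 := hne y h1 h2 i hi'
        have h10 := S.c_ne hJ hi'
        field_simp
        ring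
      rw [Finset.sum_congr rfl h8, ← Finset.mul_sum]
      ring
    rw [h6, mul_div_assoc] at h4
    exact mul_left_cancel₀ h5 h4
  rcases eq_or_ne x (c J) with h | h
  · -- continuity
    have hc1 : ContinuousAt (fun y : ℝ => (∏ j ∈ (Finset.range m).erase J, (y - c j)) /
        ∏ i ∈ Finset.range (m + 1), (y - p i)) x := by
      apply ContinuousAt.div
      · exact (continuous_finsetProd _ fun j _ => by fun_prop).continuousAt
      · exact (continuous_finsetProd _ fun j _ => by fun_prop).continuousAt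
      · apply Finset.prod_ne_zero_iff.2
        intro i hi
        exact hne x hx1 hx2 i (by have := Finset.mem_range.1 hi; omega)
    have hc2 : ContinuousAt (fun y : ℝ => -FJ m p c J y) x :=
      (S.FJ_hasDerivAt hJ hx1 hx2).continuousAt.neg
    have hev : (fun y : ℝ => (∏ j ∈ (Finset.range m).erase J, (y - c j)) /
        ∏ i ∈ Finset.range (m + 1), (y - p i)) =ᶠ[𝓝[≠] x] (fun y : ℝ => -FJ m p c J y) := by
      have h1 : Ioo (p J) (p (J + 1)) ∈ 𝓝 x := Ioo_mem_nhds hx1 hx2
      filter_upwards [nhdsWithin_le_nhds h1, self_mem_nhdsWithin] with y hy1 hy2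
      apply key y hy1.1 hy1.2
      rw [← h]
      exact hy2
    exact tendsto_nhds_unique_of_eventuallyEq (hc1.tendsto.mono_left nhdsWithin_le_nhds)
      (hc2.tendsto.mono_left nhdsWithin_le_nhds) hev
  · exact key x hx1 hx2 h

lemma gg_gap (S : Sys m p c w) {J : ℕ} (hJ : J < m) {x : ℝ} (hx1 : p J < x)
    (hx2 : x < p (J + 1)) :
    gg m p c w x = ((-FJ m p c J x : ℝ) : ℂ)⁻¹ * (Sw (w J) ((x : ℂ) - c J))⁻¹ *
      ∏ j ∈ (Finset.range m).erase J, (((x : ℂ) - c j) * (Sw (w j) ((x : ℂ) - c j))⁻¹) := by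
  have h1 := S.gap_ident hJ hx1 hx2
  have h2 : ∏ i ∈ Finset.range (m + 1), (x - p i) ≠ 0 := by
    apply Finset.prod_ne_zero_iff.2
    intro i hi h
    have := (S.gap_pos hJ hx1 hx2 (i := i) (by have := Finset.mem_range.1 hi; omega)).1
    rw [h, zero_mul] at this
    exact lt_irrefl _ this
  have h3 := S.FJ_pos hJ hx1 hx2
  have h4 : ∏ i ∈ Finset.range (m + 1), (x - p i) =
      (-FJ m p c J x)⁻¹ * ∏ j ∈ (Finset.range m).erase J, (x - c j) := by
    rw [← h1]
    have h5 : ∏ j ∈ (Finset.range m).erase J, (x - c j) ≠ 0 := by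
      intro h
      rw [h, zero_div] at h1
      linarith
    field_simp
  unfold gg
  have h6 : ∏ i ∈ Finset.range (m + 1), ((x : ℂ) - p i) =
      ((∏ i ∈ Finset.range (m + 1), (x - p i) : ℝ) : ℂ) := by
    push_cast; rfl
  rw [h6, h4, ← Finset.mul_prod_erase (Finset.range m) _ (Finset.mem_range.2 hJ),
    Finset.prod_mul_distrib]
  push_cast
  ring

lemma gg_out (S : Sys m p c w) {x : ℝ} (hx : ∀ i ≤ m, x - p i ≠ 0) (hN : NN m p x ≠ 0) :
    gg m p c w x = ((NN m p x : ℝ) : ℂ)⁻¹ * 1 *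
      ∏ j ∈ Finset.range m, (((x : ℂ) - c j) * (Sw (w j) ((x : ℂ) - c j))⁻¹) := by
  have h1 := S.stieltjes hx
  have h2 : ∏ i ∈ Finset.range (m + 1), (x - p i) ≠ 0 := by
    apply Finset.prod_ne_zero_iff.2
    intro i hi
    exact hx i (by have := Finset.mem_range.1 hi; omega)
  have h4 : ∏ i ∈ Finset.range (m + 1), (x - p i) =
      (NN m p x)⁻¹ * ∏ j ∈ Finset.range m, (x - c j) := by
    unfold NN at hN ⊢
    rw [← h1] at hN ⊢
    have h5 : ∏ j ∈ Finset.range m, (x - c j) ≠ 0 := by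
      intro h
      rw [h, zero_div] at hN
      exact hN rfl
    field_simp
  unfold gg
  have h6 : ∏ i ∈ Finset.range (m + 1), ((x : ℂ) - p i) =
      ((∏ i ∈ Finset.range (m + 1), (x - p i) : ℝ) : ℂ) := by
    push_cast; rfl
  rw [h6, h4, Finset.prod_mul_distrib]
  push_cast
  ring

lemma NN_hasDerivAt {x : ℝ} (hx : ∀ i ≤ m, x - p i ≠ 0) :
    HasDerivAt (NN m p) ((1 / (m + 1 : ℝ)) * ∑ i ∈ Finset.range (m + 1),
      (-(1 / (x - p i) * (1 / (x - p i))))) x := by
  unfold NN
  apply HasDerivAt.const_mul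
  apply HasDerivAt.fun_sum
  intro i hi
  have h2 := hx i (by have := Finset.mem_range.1 hi; omega)
  have h4 : HasDerivAt (fun y : ℝ => (y - p i)) 1 x := (hasDerivAt_id x).sub_const _
  have h5 := h4.fun_inv h2
  simp only [one_div]
  refine h5.congr_deriv ?_
  field_simp

/-- The regularised distance. -/
noncomputable def rho (m : ℕ) (p c w : ℕ → ℝ) (x : ℝ) : ℝ :=
  (Finset.range (m + 1)).inf' ⟨0, by simp⟩
    (fun i => min |x - p i| (if i < m then max |x - c i| (w i) else |x - p i|))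

lemma rho_nonneg (x : ℝ) : 0 ≤ rho m p c w x := by
  unfold rho
  apply Finset.le_inf'
  intro i _
  apply le_min (abs_nonneg _)
  split_ifs
  · exact le_max_of_le_left (abs_nonneg _)
  · exact abs_nonneg _

lemma rho_le_p {i : ℕ} (hi : i ≤ m) (x : ℝ) : rho m p c w x ≤ |x - p i| :=
  (Finset.inf'_le _ (Finset.mem_range.2 (Nat.lt_succ_of_le hi))).trans (min_le_left _ _)

lemma rho_le_c {j : ℕ} (hj : j < m) (x : ℝ) : rho m p c w x ≤ max |x - c j| (w j) := by
  refine (Finset.inf'_le _ (Finset.mem_range.2 (Nat.lt_succ_of_lt hj))).trans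
    ((min_le_right _ _).trans ?_)
  rw [if_pos hj]

lemma le_rho {x r : ℝ} (h1 : ∀ i ≤ m, r ≤ |x - p i|) (h2 : ∀ j < m, r ≤ max |x - c j| (w j)) :
    r ≤ rho m p c w x := by
  unfold rho
  apply Finset.le_inf'
  intro i hi
  have hi' : i ≤ m := by have := Finset.mem_range.1 hi; omega
  apply le_min (h1 i hi')
  split_ifs with h
  · exact h2 i h
  · exact h1 i hi'

lemma rho_lip (x y : ℝ) : rho m p c w x ≤ rho m p c w y + |x - y| := by
  have h : rho m p c w x - |x - y| ≤ rho m p c w y := by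
    apply le_rho
    · intro i hi
      have h1 := rho_le_p (p := p) (c := c) (w := w) hi x
      have h2 : |x - p i| ≤ |x - y| + |y - p i| := abs_sub_le _ _ _
      linarith
    · intro j hj
      have h1 := rho_le_c (p := p) (c := c) (w := w) hj x
      have h2 : |x - c j| ≤ |x - y| + |y - c j| := abs_sub_le _ _ _
      rcases max_choice |x - c j| (w j) with h3 | h3
      · rw [h3] at h1
        exact le_max_of_le_left (by linarith)
      · rw [h3] at h1
        have := abs_nonneg (x - y)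
        exact le_max_of_le_right (by linarith)
  linarith

lemma rho_zero (S : Sys m p c w) {x : ℝ} (h : rho m p c w x = 0) : ∃ i ≤ m, x = p i := by
  by_contra hc
  push Not at hc
  have h1 : ∀ i ∈ Finset.range (m + 1),
      0 < min |x - p i| (if i < m then max |x - c i| (w i) else |x - p i|) := by
    intro i hi
    have hi' : i ≤ m := by have := Finset.mem_range.1 hi; omega
    have h2 : 0 < |x - p i| := abs_pos.2 (sub_ne_zero.2 (hc i hi'))
    apply lt_min h2
    split_ifs with h3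
    · exact lt_max_of_lt_right (S.hw i h3)
    · exact h2
  have h2 : 0 < rho m p c w x := by
    exact (Finset.lt_inf'_iff _).2 h1
  linarith

/-- Position of a point which is not a pole. -/
lemma Sys.cases (_S : Sys m p c w) {x : ℝ} (hx : ∀ i ≤ m, x ≠ p i) :
    x < p 0 ∨ p m < x ∨ ∃ J < m, p J < x ∧ x < p (J + 1) := by
  rcases lt_or_gt_of_ne (hx 0 (Nat.zero_le _)) with h | h
  · exact Or.inl h
  right
  rcases lt_or_gt_of_ne (hx m le_rfl) with h' | h'
  · right
    -- greatest i with p i < x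
    classical
    have hex : ∃ i, i ≤ m ∧ p i < x := ⟨0, Nat.zero_le _, h⟩
    set J := Nat.findGreatest (fun i => p i < x) m with hJ
    have hJ1 : p J < x := Nat.findGreatest_spec (P := fun i => p i < x) (Nat.zero_le m) h
    have hJ2 : J ≤ m := Nat.findGreatest_le m
    have hJ3 : J ≠ m := by
      intro he
      rw [he] at hJ1
      linarith
    have hJ4 : J < m := lt_of_le_of_ne hJ2 hJ3
    refine ⟨J, hJ4, hJ1, ?_⟩
    have h5 : ¬ p (J + 1) < x := Nat.findGreatest_is_greatest (P := fun i => p i < x)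
      (Nat.lt_succ_self _) hJ4
    exact lt_of_le_of_ne (not_lt.1 h5) (hx _ hJ4)
  · exact Or.inl h'

end

end Pool.Agent.W2helper20.PK
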