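import Mathlib

/-!
# The smoothed linear factor

For `w > 0` the function `Sw w z = s * exp (w ^ 2 / (8 s ^ 2))`, where `z = s + w ^ 2 / (4 s)`, is
the exponential of the logarithmic potential of a semicircle law of radius `w`. It replaces the
linear factor `z` and has no zeros in the closed upper half plane.
-/

set_option autoImplicit false

open Complex Set Filter Topology

namespace Pool.Agent.W2helper20.PK

/-- The square root in the closed upper half plane. -/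
noncomputable def sU (z : ℂ) : ℂ :=
  (Real.sqrt ((‖z‖ + z.re) / 2) : ℂ) + (Real.sqrt ((‖z‖ - z.re) / 2) : ℂ) * I

lemma continuous_sU : Continuous sU := by
  unfold sU
  fun_prop

lemma sU_re (z : ℂ) : (sU z).re = Real.sqrt ((‖z‖ + z.re) / 2) := by simp [sU]

lemma sU_im (z : ℂ) : (sU z).im = Real.sqrt ((‖z‖ - z.re) / 2) := by simp [sU]

lemma sU_re_nonneg (z : ℂ) : 0 ≤ (sU z).re := by rw [sU_re]; positivity

lemma sU_im_nonneg (z : ℂ) : 0 ≤ (sU z).im := by rw [sU_im]; positivity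

lemma sU_eq_sqrt {z : ℂ} (hz : 0 ≤ z.im) : sU z = Complex.sqrt z := by
  rw [Complex.sqrt_eq_real_add_ite, if_pos hz, one_mul]
  rfl

lemma sU_sq {z : ℂ} (hz : 0 ≤ z.im) : sU z ^ 2 = z := by
  rw [sU_eq_sqrt hz, Complex.sqrt, Complex.cpow_ofNat_inv_pow]

lemma sU_differentiableAt {z : ℂ} (hz : 0 < z.im) : DifferentiableAt ℂ sU z := by
  have h1 : DifferentiableAt ℂ Complex.sqrt z :=
    Complex.differentiableAt_sqrt (Or.inr hz.ne')
  refine h1.congr_of_eventuallyEq ?_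
  have : {z : ℂ | 0 < z.im} ∈ 𝓝 z := (isOpen_lt continuous_const Complex.continuous_im).mem_nhds hz
  filter_upwards [this] with y hy
  exact sU_eq_sqrt (le_of_lt hy)

/-- `√(z ^ 2 - w ^ 2)` in the closed upper half plane. -/
noncomputable def rt (w : ℝ) (z : ℂ) : ℂ := sU (z - w) * sU (z + w)

lemma continuous_rt (w : ℝ) : Continuous (rt w) := by
  unfold rt
  exact (continuous_sU.comp (by fun_prop)).mul (continuous_sU.comp (by fun_prop))

lemma rt_sq {w : ℝ} {z : ℂ} (hz : 0 ≤ z.im) : rt w z ^ 2 = z ^ 2 - w ^ 2 := by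
  unfold rt
  rw [mul_pow, sU_sq (by simpa using hz), sU_sq (by simpa using hz)]
  ring

lemma rt_differentiableAt {w : ℝ} {z : ℂ} (hz : 0 < z.im) : DifferentiableAt ℂ (rt w) z := by
  unfold rt
  apply DifferentiableAt.mul
  · exact (sU_differentiableAt (by simpa using hz)).comp z (by fun_prop)
  · exact (sU_differentiableAt (by simpa using hz)).comp z (by fun_prop)

/-- `a = w / (2 s)`. -/
noncomputable def aw (w : ℝ) (z : ℂ) : ℂ := (z - rt w z) / w

lemma continuous_aw (w : ℝ) : Continuous (aw w) := by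
  unfold aw
  exact (continuous_id.sub (continuous_rt w)).div_const _

lemma aw_mul {w : ℝ} (hw : 0 < w) {z : ℂ} (hz : 0 ≤ z.im) : aw w z * (z + rt w z) = w := by
  have h := rt_sq (w := w) hz
  have hw' : (w : ℂ) ≠ 0 := by exact_mod_cast hw.ne'
  unfold aw
  field_simp
  linear_combination -h

lemma aw_ne {w : ℝ} (hw : 0 < w) {z : ℂ} (hz : 0 ≤ z.im) : aw w z ≠ 0 := by
  intro h
  have h1 := aw_mul hw hz
  rw [h, zero_mul] at h1
  have hw' : (w : ℂ) ≠ 0 := by exact_mod_cast hw.ne'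
  exact hw' h1.symm

lemma aw_eq {w : ℝ} (hw : 0 < w) {z : ℂ} (hz : 0 ≤ z.im) :
    z = w / 2 * (aw w z + 1 / aw w z) := by
  have h1 := aw_mul hw hz
  have h2 := aw_ne hw hz
  have hw' : (w : ℂ) ≠ 0 := by exact_mod_cast hw.ne'
  have h3 : 1 / aw w z = (z + rt w z) / w := by
    field_simp
    exact h1.symm
  rw [h3]
  unfold aw
  field_simp
  ring

lemma aw_differentiableAt {w : ℝ} {z : ℂ} (hz : 0 < z.im) : DifferentiableAt ℂ (aw w) z := by
  unfold aw
  exact (differentiableAt_id.sub (rt_differentiableAt hz)).div_const _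

/-- `Re (z * conj (rt w z)) ≥ 0`. -/
lemma rt_re_nonneg {w : ℝ} {z : ℂ} (hz : 0 ≤ z.im) :
    0 ≤ z.re * (rt w z).re + z.im * (rt w z).im := by
  set A := sU (z - w) with hA
  set B := sU (z + w) with hB
  have hA2 : A ^ 2 = z - w := sU_sq (by simpa using hz)
  have hB2 : B ^ 2 = z + w := sU_sq (by simpa using hz)
  have hz2 : z = (A ^ 2 + B ^ 2) / 2 := by rw [hA2, hB2]; ring
  have h1 := sU_re_nonneg (z - w)
  have h2 := sU_im_nonneg (z - w)
  have h3 := sU_re_nonneg (z + w)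
  have h4 := sU_im_nonneg (z + w)
  rw [← hA] at h1 h2
  rw [← hB] at h3 h4
  have hr : rt w z = A * B := rfl
  have hre : z.re = (A.re ^ 2 - A.im ^ 2 + (B.re ^ 2 - B.im ^ 2)) / 2 := by
    have := congrArg Complex.re hz2
    rw [this]
    simp [pow_two, Complex.add_re, Complex.mul_re]
  have him : z.im = A.re * A.im + B.re * B.im := by
    have := congrArg Complex.im hz2
    rw [this]
    simp [pow_two, Complex.add_im, Complex.mul_im]
    ring
  rw [hr, Complex.mul_re, Complex.mul_im, hre, him]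
  have : (A.re ^ 2 - A.im ^ 2 + (B.re ^ 2 - B.im ^ 2)) / 2 * (A.re * B.re - A.im * B.im) +
      (A.re * A.im + B.re * B.im) * (A.re * B.im + A.im * B.re) =
      (A.re ^ 2 + A.im ^ 2 + B.re ^ 2 + B.im ^ 2) / 2 * (A.re * B.re + A.im * B.im) := by ring
  rw [this]
  positivity


lemma rt_norm_sub_le {w : ℝ} {z : ℂ} (hz : 0 ≤ z.im) : ‖z - rt w z‖ ≤ ‖z + rt w z‖ := by
  have h := rt_re_nonneg (w := w) hz
  rw [← sq_le_sq₀ (norm_nonneg _) (norm_nonneg _), ← Complex.normSq_eq_norm_sq,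
    ← Complex.normSq_eq_norm_sq, Complex.normSq_apply, Complex.normSq_apply]
  simp only [Complex.sub_re, Complex.sub_im, Complex.add_re, Complex.add_im]
  nlinarith

lemma aw_norm_le {w : ℝ} (hw : 0 < w) {z : ℂ} (hz : 0 ≤ z.im) : ‖aw w z‖ ≤ 1 := by
  have h1 := aw_mul hw hz
  have h2 := rt_norm_sub_le (w := w) hz
  have h3 : ‖aw w z‖ * w = ‖z - rt w z‖ := by
    unfold aw
    rw [norm_div, Complex.norm_real, Real.norm_of_nonneg hw.le]
    field_simp
  have h4 : ‖aw w z‖ * ‖z + rt w z‖ = w := by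
    rw [← norm_mul, h1, Complex.norm_real, Real.norm_of_nonneg hw.le]
  have h5 : 0 < ‖aw w z‖ := norm_pos_iff.2 (aw_ne hw hz)
  have h6 : ‖aw w z‖ * ‖aw w z‖ * w ≤ w := by
    calc ‖aw w z‖ * ‖aw w z‖ * w = ‖aw w z‖ * (‖aw w z‖ * w) := by ring
      _ = ‖aw w z‖ * ‖z - rt w z‖ := by rw [h3]
      _ ≤ ‖aw w z‖ * ‖z + rt w z‖ := by gcongr
      _ = w := h4
  have h7 : ‖aw w z‖ * ‖aw w z‖ ≤ 1 := by
    by_contra hc
    push Not at hc
    nlinarith
  nlinarith

/-- `‖a‖ ≤ w / ‖z‖`. -/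
lemma aw_norm_mul_le {w : ℝ} (hw : 0 < w) {z : ℂ} (hz : 0 ≤ z.im) : ‖aw w z‖ * ‖z‖ ≤ w := by
  have h1 := aw_norm_le hw hz
  have h2 := aw_eq hw hz
  have h3 : 0 < ‖aw w z‖ := norm_pos_iff.2 (aw_ne hw hz)
  have h4 : ‖z‖ ≤ w / 2 * (‖aw w z‖ + 1 / ‖aw w z‖) := by
    have : ‖z‖ = ‖(w : ℂ) / 2 * (aw w z + 1 / aw w z)‖ := by rw [← h2]
    rw [this, norm_mul, norm_div, Complex.norm_real, Real.norm_of_nonneg hw.le]
    have h5 : ‖aw w z + 1 / aw w z‖ ≤ ‖aw w z‖ + 1 / ‖aw w z‖ := by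
      refine (norm_add_le _ _).trans ?_
      rw [norm_div, norm_one]
    have h6 : ‖(2 : ℂ)‖ = 2 := by simp
    rw [h6]
    gcongr
  calc ‖aw w z‖ * ‖z‖ ≤ ‖aw w z‖ * (w / 2 * (‖aw w z‖ + 1 / ‖aw w z‖)) := by gcongr
    _ = w / 2 * (‖aw w z‖ * ‖aw w z‖ + 1) := by field_simp
    _ ≤ w / 2 * (1 * 1 + 1) := by gcongr
    _ = w := by ring

/-- For `z` in the open upper half plane `a` is in the open lower half of the unit disc. -/
lemma aw_im_neg {w : ℝ} (hw : 0 < w) {z : ℂ} (hz : 0 < z.im) :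
    (aw w z).im < 0 ∧ ‖aw w z‖ < 1 := by
  set a := aw w z with ha
  have h0 : a ≠ 0 := aw_ne hw hz.le
  have h1 : ‖a‖ ≤ 1 := aw_norm_le hw hz.le
  have h2 : z = w / 2 * (a + 1 / a) := aw_eq hw hz.le
  have h3 : z.im = w / 2 * (a.im * (1 - 1 / ‖a‖ ^ 2)) := by
    have h4 := congrArg Complex.im h2
    rw [h4]
    have h5 : (w : ℂ) / 2 = ((w / 2 : ℝ) : ℂ) := by push_cast; ring
    rw [h5, Complex.im_ofReal_mul, Complex.add_im, one_div, Complex.inv_im,
      Complex.normSq_eq_norm_sq]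
    ring
  have hpos : 0 < ‖a‖ := norm_pos_iff.2 h0
  have h6 : 1 - 1 / ‖a‖ ^ 2 ≤ 0 := by
    have : 1 ≤ 1 / ‖a‖ ^ 2 := by
      rw [le_div_iff₀ (by positivity)]
      nlinarith
    linarith
  have h7 : 0 < a.im * (1 - 1 / ‖a‖ ^ 2) := by
    by_contra hc
    push Not at hc
    nlinarith
  have h8 : 1 - 1 / ‖a‖ ^ 2 ≠ 0 := by
    intro h
    rw [h, mul_zero] at h7
    exact lt_irrefl _ h7
  have h9 : 1 - 1 / ‖a‖ ^ 2 < 0 := lt_of_le_of_ne h6 h8
  refine ⟨by nlinarith, ?_⟩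
  rcases lt_or_eq_of_le h1 with h | h
  · exact h
  · rw [h] at h8
    norm_num at h8

/-- The smoothed linear factor. -/
noncomputable def Sw (w : ℝ) (z : ℂ) : ℂ := w / (2 * aw w z) * Complex.exp (aw w z ^ 2 / 2)

lemma Sw_ne {w : ℝ} (hw : 0 < w) {z : ℂ} (hz : 0 ≤ z.im) : Sw w z ≠ 0 := by
  have h1 := aw_ne hw hz
  have hw' : (w : ℂ) ≠ 0 := by exact_mod_cast hw.ne'
  unfold Sw
  apply mul_ne_zero
  · apply div_ne_zero hw'
    exact mul_ne_zero two_ne_zero h1
  · exact Complex.exp_ne_zero _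

lemma continuousOn_Sw {w : ℝ} (hw : 0 < w) : ContinuousOn (Sw w) {z : ℂ | 0 ≤ z.im} := by
  unfold Sw
  apply ContinuousOn.mul
  · apply ContinuousOn.div continuousOn_const
    · exact (continuous_const.mul (continuous_aw w)).continuousOn
    · intro z hz
      exact mul_ne_zero two_ne_zero (aw_ne hw hz)
  · exact (((continuous_aw w).pow 2).div_const 2).cexp.continuousOn

lemma Sw_differentiableAt {w : ℝ} (hw : 0 < w) {z : ℂ} (hz : 0 < z.im) :
    DifferentiableAt ℂ (Sw w) z := by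
  unfold Sw
  have h1 := aw_differentiableAt (w := w) hz
  have h2 := aw_ne hw hz.le
  apply DifferentiableAt.mul
  · apply DifferentiableAt.div (by fun_prop) (by fun_prop)
    exact mul_ne_zero two_ne_zero h2
  · fun_prop

lemma exp_sq_re_bounds {a : ℂ} (ha : ‖a‖ ≤ 1) :
    Real.exp (-1 / 2) ≤ ‖Complex.exp (a ^ 2 / 2)‖ ∧ ‖Complex.exp (a ^ 2 / 2)‖ ≤ Real.exp (1 / 2) := by
  rw [Complex.norm_exp]
  have h : |(a ^ 2 / 2).re| ≤ 1 / 2 := by
    refine (Complex.abs_re_le_norm _).trans ?_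
    rw [norm_div, norm_pow]
    have h6 : ‖(2 : ℂ)‖ = 2 := by simp
    rw [h6]
    have := norm_nonneg a
    have : ‖a‖ ^ 2 ≤ 1 := by nlinarith
    linarith
  obtain ⟨h1, h2⟩ := abs_le.1 h
  exact ⟨Real.exp_le_exp.2 (by linarith), Real.exp_le_exp.2 h2⟩

lemma exp_neg_half_ge : (1 / 2 : ℝ) ≤ Real.exp (-1 / 2) := by
  have := Real.add_one_le_exp (-1 / 2 : ℝ)
  linarith

lemma exp_half_le : Real.exp (1 / 2) ≤ 2 := by
  have h := exp_neg_half_ge
  have h1 : Real.exp (1 / 2) * Real.exp (-1 / 2) = 1 := by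
    rw [← Real.exp_add]; norm_num
  have h2 := Real.exp_pos (1 / 2 : ℝ)
  nlinarith

/-- Lower bound of the smoothed linear factor. -/
lemma Sw_norm_ge {w : ℝ} (hw : 0 < w) {z : ℂ} (hz : 0 ≤ z.im) :
    max ‖z‖ w / 4 ≤ ‖Sw w z‖ := by
  have h1 := aw_norm_le hw hz
  have h2 := aw_norm_mul_le hw hz
  have h3 : 0 < ‖aw w z‖ := norm_pos_iff.2 (aw_ne hw hz)
  have h4 := (exp_sq_re_bounds h1).1
  have h5 := exp_neg_half_ge
  have h6 : max ‖z‖ w ≤ w / ‖aw w z‖ := by
    apply max_le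
    · rw [le_div_iff₀ h3]; linarith
    · rw [le_div_iff₀ h3]; nlinarith
  unfold Sw
  rw [norm_mul, norm_div, norm_mul, Complex.norm_real, Real.norm_of_nonneg hw.le]
  have h7 : ‖(2 : ℂ)‖ = 2 := by simp
  rw [h7]
  have h8 : w / (2 * ‖aw w z‖) = (w / ‖aw w z‖) / 2 := by field_simp
  rw [h8]
  have h9 : 0 ≤ max ‖z‖ w := le_max_of_le_right hw.le
  nlinarith

/-- `1 / s`, the logarithmic derivative of the smoothed linear factor. -/
noncomputable def Dw (w : ℝ) (z : ℂ) : ℂ := 2 * aw w z / w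

lemma Dw_norm_le {w : ℝ} (hw : 0 < w) {z : ℂ} (hz : 0 ≤ z.im) :
    ‖Dw w z‖ ≤ 2 / max ‖z‖ w := by
  have h1 := aw_norm_le hw hz
  have h2 := aw_norm_mul_le hw hz
  have h3 : 0 < ‖aw w z‖ := norm_pos_iff.2 (aw_ne hw hz)
  have h9 : 0 < max ‖z‖ w := lt_max_of_lt_right hw
  unfold Dw
  rw [norm_div, norm_mul, Complex.norm_real, Real.norm_of_nonneg hw.le]
  have h7 : ‖(2 : ℂ)‖ = 2 := by simp
  rw [h7, div_le_div_iff₀ hw h9]
  rcases max_choice ‖z‖ w with h | h
  · rw [h]; nlinarith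
  · rw [h]; nlinarith

lemma continuous_Dw (w : ℝ) : Continuous (Dw w) := by
  unfold Dw
  exact (continuous_const.mul (continuous_aw w)).div_const _

lemma rt_ne {w : ℝ} {z : ℂ} (hz : 0 < z.im) : rt w z ≠ 0 := by
  intro h
  have h1 := rt_sq (w := w) hz.le
  rw [h] at h1
  have h2 : (z - w) * (z + w) = 0 := by linear_combination -h1
  rcases mul_eq_zero.1 h2 with h3 | h3
  · have := congrArg Complex.im h3
    simp at this
    exact hz.ne' this
  · have := congrArg Complex.im h3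
    simp at this
    exact hz.ne' this

/-- The derivative of the smoothed factor in the open upper half plane. -/
lemma Sw_hasDerivAt {w : ℝ} (hw : 0 < w) {z : ℂ} (hz : 0 < z.im) :
    HasDerivAt (Sw w) (Sw w z * Dw w z) z := by
  have hw' : (w : ℂ) ≠ 0 := by exact_mod_cast hw.ne'
  have ha := aw_ne hw hz.le
  have hr := rt_ne (w := w) hz
  -- derivative of rt
  have hd : HasDerivAt (rt w) (deriv (rt w) z) z := (rt_differentiableAt hz).hasDerivAt
  have hsq : HasDerivAt (fun y => rt w y ^ 2) (2 * rt w z * deriv (rt w) z) z := by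
    refine (hd.fun_pow 2).congr_deriv ?_
    simp
  have hsq2 : HasDerivAt (fun y : ℂ => y ^ 2 - (w : ℂ) ^ 2) (2 * z) z := by
    refine ((hasDerivAt_pow 2 z).sub_const ((w : ℂ) ^ 2)).congr_deriv ?_
    simp
  have hev : (fun y => rt w y ^ 2) =ᶠ[𝓝 z] (fun y : ℂ => y ^ 2 - (w : ℂ) ^ 2) := by
    have : {z : ℂ | 0 < z.im} ∈ 𝓝 z :=
      (isOpen_lt continuous_const Complex.continuous_im).mem_nhds hz
    filter_upwards [this] with y hy
    exact rt_sq (le_of_lt hy)
  have hder : 2 * rt w z * deriv (rt w) z = 2 * z :=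
    hsq.unique (hsq2.congr_of_eventuallyEq hev)
  have hrd : deriv (rt w) z = z / rt w z := by
    field_simp
    linear_combination hder / 2
  rw [hrd] at hd
  have had : HasDerivAt (aw w) ((1 - z / rt w z) / w) z := by
    unfold aw
    exact ((hasDerivAt_id z).sub hd).div_const _
  have hval : (1 - z / rt w z) / w = - aw w z / rt w z := by
    unfold aw
    field_simp
    ring
  rw [hval] at had
  have h1 : HasDerivAt (fun y => (w : ℂ) / (2 * aw w y))
      (-(w * (2 * (- aw w z / rt w z))) / (2 * aw w z) ^ 2) z := by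
    have h2 := (had.const_mul 2)
    refine ((hasDerivAt_const z (w : ℂ)).fun_div h2 (mul_ne_zero two_ne_zero ha)).congr_deriv ?_
    ring
  have h4 : HasDerivAt (fun y => Complex.exp (aw w y ^ 2 / 2))
      (Complex.exp (aw w z ^ 2 / 2) * (aw w z * (- aw w z / rt w z))) z := by
    refine (((had.fun_pow 2).div_const 2).cexp).congr_deriv ?_
    push_cast
    ring
  have h6 := h1.fun_mul h4
  have hmul := aw_mul hw hz.le
  have hsub : aw w z * w = z - rt w z := by
    unfold aw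
    field_simp
  refine h6.congr_deriv ?_
  unfold Sw Dw
  have key : aw w z ^ 2 * w = w - 2 * rt w z * aw w z := by
    linear_combination aw w z * hsub + hmul
  field_simp
  linear_combination -key

end Pool.Agent.W2helper20.PK
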